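import Pool.Agent.Helper81x.QP.Runs

/-!
# Memory of bounded approximate degree
-/

set_option autoImplicit false

namespace Pool.Agent.Helper81x.QP

open Finset
open Pool.Agent.H699R2.OMV (Prog)

section prog

variable {A : Type} {w : ℕ} {O : Type} [DecidableEq O]

/-- The probability of the output `o` after at most `τ` probes if each probe of the cell `a` shows
independent random bits with the means `f a`. -/
noncomputable def apr (f : A → Fin w → ℝ) (o : O) : Prog A (Fin w → Bool) O → ℕ → ℝ
  | .done o' => fun _ => if o' = o then 1 else 0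
  | .probe a k => fun τ => match τ with
    | 0 => 0
    | τ + 1 => ∑ c : Fin w → Bool, (∏ i, if c i = true then f a i else 1 - f a i) *
        apr f o (k c) τ

lemma prod_nonneg' {f : Fin w → ℝ} (h : ∀ i, 0 ≤ f i ∧ f i ≤ 1) (c : Fin w → Bool) :
    0 ≤ ∏ i, if c i = true then f i else 1 - f i := by
  apply prod_nonneg
  intro i _
  split_ifs
  · exact (h i).1
  · linarith [(h i).2]

lemma sum_prod' (f : Fin w → ℝ) :
    ∑ c : Fin w → Bool, (∏ i, if c i = true then f i else 1 - f i) = 1 := by
  have h := Finset.prod_univ_sum (fun _ : Fin w => (univ : Finset Bool))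
    (fun i (b : Bool) => if b = true then f i else 1 - f i)
  rw [Fintype.piFinset_univ] at h
  rw [← h]
  apply prod_eq_one
  intro i _
  simp

lemma apr_nonneg {f : A → Fin w → ℝ} (h : ∀ a i, 0 ≤ f a i ∧ f a i ≤ 1) (o : O)
    (P : Prog A (Fin w → Bool) O) : ∀ τ, 0 ≤ apr f o P τ := by
  induction P with
  | done o' =>
    intro τ
    unfold apr
    split_ifs <;> norm_num
  | probe a k ih =>
    intro τ
    rcases τ with _ | τ
    · simp only [apr]
      exact le_refl _
    · simp only [apr]
      exact sum_nonneg fun c _ => mul_nonneg (prod_nonneg' (h a) c) (ih c τ)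

lemma apr_sum [Fintype O] {f : A → Fin w → ℝ} (h : ∀ a i, 0 ≤ f a i ∧ f a i ≤ 1)
    (P : Prog A (Fin w → Bool) O) : ∀ τ, ∑ o, apr f o P τ ≤ 1 := by
  induction P with
  | done o' =>
    intro τ
    simp only [apr]
    rw [sum_ite_eq]
    simp
  | probe a k ih =>
    intro τ
    rcases τ with _ | τ
    · simp only [apr]
      simp
    · simp only [apr]
      rw [sum_comm]
      refine le_trans ?_ (le_of_eq (sum_prod' (f a)))
      apply sum_le_sum
      intro c _
      rw [← mul_sum]
      exact mul_le_of_le_one_right (prod_nonneg' (h a) c) (ih c τ)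

lemma apr_ge {f : A → Fin w → ℝ} (h : ∀ a i, 0 ≤ f a i ∧ f a i ≤ 1) {m : A → Fin w → Bool}
    {ε : ℝ} (hε0 : 0 ≤ ε) (hε1 : ε ≤ 1) (hm : ∀ a i, |f a i - bitR (m a i)| ≤ ε) (o : O)
    (P : Prog A (Fin w → Bool) O) : ∀ τ, (P.addrs m).length ≤ τ → P.out m = o →
      (1 - ε) ^ (w * τ) ≤ apr f o P τ := by
  induction P with
  | done o' =>
    intro τ _ ho
    have h1 : apr f o (Prog.done (A := A) (W := Fin w → Bool) o') τ = 1 := by
      simp only [apr]
      exact if_pos ho
    rw [h1]
    exact pow_le_one₀ (by linarith) (by linarith)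
  | probe a k ih =>
    intro τ hτ ho
    rcases τ with _ | τ
    · simp [Prog.addrs] at hτ
    · have h1 : ((k (m a)).addrs m).length ≤ τ := by
        simpa [Prog.addrs] using hτ
      have h2 := ih (m a) τ h1 ho
      simp only [apr]
      have h3 : (1 - ε) ^ w ≤ ∏ i, if m a i = true then f a i else 1 - f a i := by
        have h4 : ∏ _i : Fin w, (1 - ε) ≤ ∏ i, if m a i = true then f a i else 1 - f a i := by
          apply prod_le_prod
          · intro i _
            linarith
          · intro i _
            have h5 := hm a i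
            unfold bitR at h5
            rw [abs_le] at h5
            split_ifs at h5 ⊢ <;> linarith [h5.1, h5.2]
        rwa [prod_const, card_univ, Fintype.card_fin] at h4
      have h6 : (1 - ε) ^ (w * (τ + 1)) ≤
          (∏ i, if m a i = true then f a i else 1 - f a i) * apr f o (k (m a)) τ := by
        rw [show w * (τ + 1) = w + w * τ by ring, pow_add]
        exact mul_le_mul h3 h2 (pow_nonneg (by linarith) _) (prod_nonneg' (h a) _)
      refine h6.trans ?_
      exact single_le_sum (f := fun c : Fin w → Bool =>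
        (∏ i, if c i = true then f a i else 1 - f a i) * apr f o (k c) τ)
        (fun c _ => mul_nonneg (prod_nonneg' (h a) c) (apr_nonneg h o _ τ)) (mem_univ (m a))

lemma apr_deg {I : Type} {d : ℕ} (f : (I → Bool) → A → Fin w → ℝ)
    (hf : ∀ a i, (fun x => ((f x a i : ℝ) : ℂ)) ∈ Dg I d) (o : O)
    (P : Prog A (Fin w → Bool) O) : ∀ τ, (fun x => ((apr (f x) o P τ : ℝ) : ℂ)) ∈
      Dg I (τ * (w * d)) := by
  induction P with
  | done o' =>
    intro τ
    simp only [apr]
    exact Dg.const _ _
  | probe a k ih =>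
    intro τ
    rcases τ with _ | τ
    · simp only [apr]
      exact Dg.const _ _
    · have h1 : (fun x => ((apr (f x) o (Prog.probe a k) (τ + 1) : ℝ) : ℂ)) = fun x =>
          ∑ c : Fin w → Bool, (∏ i, (if c i = true then ((f x a i : ℝ) : ℂ) else
            1 - ((f x a i : ℝ) : ℂ))) * ((apr (f x) o (k c) τ : ℝ) : ℂ) := by
        funext x
        simp only [apr]
        push_cast
        apply sum_congr rfl
        intro c _
        congr 1
        apply prod_congr rfl
        intro i _
        split_ifs <;> simp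
      rw [h1]
      apply Dg.sum
      intro c _
      rw [show (τ + 1) * (w * d) = w * d + τ * (w * d) by ring]
      refine Dg.mul' ?_ (ih c τ)
      have h2 := Dg.prod (univ : Finset (Fin w)) (fun i x => if c i = true then ((f x a i : ℝ) : ℂ)
        else 1 - ((f x a i : ℝ) : ℂ)) (fun _ => d) (by
          intro i _
          by_cases hc : c i = true
          · simp only [hc, if_true]
            exact hf a i
          · simp only [hc]
            exact (Dg I d).sub_mem (Dg.const d 1) (hf a i))
      rw [sum_const, card_univ, Fintype.card_fin, smul_eq_mul] at h2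
      exact h2

end prog

section quantum

variable {A : Type} {w : ℕ} {O : Type}

/-- the norm of a state -/
noncomputable def nrm {W : Type} [Fintype W] (ψ : W → ℂ) : ℝ :=
  ‖(WithLp.toLp 2 ψ : EuclideanSpace ℂ W)‖

lemma nrm_sq {W : Type} [Fintype W] (ψ : W → ℂ) : nrm ψ ^ 2 = ∑ w, ‖ψ w‖ ^ 2 := by
  unfold nrm
  rw [EuclideanSpace.norm_sq_eq]

lemma nrm_nonneg {W : Type} [Fintype W] (ψ : W → ℂ) : 0 ≤ nrm ψ := norm_nonneg _

lemma nrm_add_le {W : Type} [Fintype W] (ψ φ : W → ℂ) : nrm (ψ + φ) ≤ nrm ψ + nrm φ := by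
  unfold nrm
  rw [WithLp.toLp_add]
  exact norm_add_le _ _

lemma nrm_le {W : Type} [Fintype W] {ψ : W → ℂ} {c : ℝ} (hc : 0 ≤ c)
    (h : ∑ w, ‖ψ w‖ ^ 2 ≤ c ^ 2) : nrm ψ ≤ c := by
  rw [← nrm_sq] at h
  exact (sq_le_sq₀ (nrm_nonneg _) hc).1 h

/-- the approximation of the sign of a probe -/
noncomputable def phaseF (f : A → Fin w → ℝ) : Option (A × (Fin w → Bool)) → ℂ
  | none => 1
  | some (a, s) => ∏ i, if s i = true then ((1 - 2 * f a i : ℝ) : ℂ) else 1

lemma phaseF_le {f : A → Fin w → ℝ} (h : ∀ a i, 0 ≤ f a i ∧ f a i ≤ 1)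
    (o : Option (A × (Fin w → Bool))) : ‖phaseF f o‖ ≤ 1 := by
  rcases o with _ | ⟨a, s⟩
  · simp [phaseF]
  · show ‖∏ i, (if s i = true then ((1 - 2 * f a i : ℝ) : ℂ) else 1)‖ ≤ 1
    rw [norm_prod]
    apply prod_le_one (fun _ _ => norm_nonneg _)
    intro i _
    split_ifs
    · rw [Complex.norm_real, Real.norm_eq_abs, abs_le]
      have := h a i
      constructor <;> linarith [this.1, this.2]
    · simp

lemma prod_sub_le {κ : Type} (s : Finset κ) (x y : κ → ℂ) (c : ℝ) (hx : ∀ i, ‖x i‖ ≤ 1)
    (hy : ∀ i, ‖y i‖ ≤ 1) (hc : ∀ i, ‖x i - y i‖ ≤ c) :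
    ‖∏ i ∈ s, x i - ∏ i ∈ s, y i‖ ≤ s.card * c := by
  classical
  induction s using Finset.induction_on with
  | empty => simp
  | insert a s ha ih =>
    rw [prod_insert ha, prod_insert ha, card_insert_of_notMem ha]
    have h1 : x a * ∏ i ∈ s, x i - y a * ∏ i ∈ s, y i =
        x a * (∏ i ∈ s, x i - ∏ i ∈ s, y i) + (x a - y a) * ∏ i ∈ s, y i := by ring
    rw [h1]
    refine (norm_add_le _ _).trans ?_
    rw [norm_mul, norm_mul]
    have h2 : ‖∏ i ∈ s, y i‖ ≤ 1 := by
      rw [norm_prod]
      exact prod_le_one (fun _ _ => norm_nonneg _) (fun i _ => hy i)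
    have h3 : ‖x a‖ * ‖∏ i ∈ s, x i - ∏ i ∈ s, y i‖ ≤ 1 * (s.card * c) :=
      mul_le_mul (hx a) ih (norm_nonneg _) zero_le_one
    have h4 : ‖x a - y a‖ * ‖∏ i ∈ s, y i‖ ≤ c * 1 :=
      mul_le_mul (hc a) h2 (norm_nonneg _) ((norm_nonneg _).trans (hc a))
    push_cast
    linarith

lemma phase_sub_le {f : A → Fin w → ℝ} (h : ∀ a i, 0 ≤ f a i ∧ f a i ≤ 1)
    {m : A → Fin w → Bool} {ε : ℝ} (hε0 : 0 ≤ ε) (hm : ∀ a i, |f a i - bitR (m a i)| ≤ ε)
    (o : Option (A × (Fin w → Bool))) : ‖phase m o - phaseF f o‖ ≤ w * (2 * ε) := by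
  rcases o with _ | ⟨a, s⟩
  · simp only [phase, phaseF, sub_self, norm_zero]
    positivity
  · have h1 := prod_sub_le (univ : Finset (Fin w))
      (fun i => if s i = true ∧ m a i = true then (-1 : ℂ) else 1)
      (fun i => if s i = true then ((1 - 2 * f a i : ℝ) : ℂ) else 1) (2 * ε) (by
        intro i
        split_ifs <;> simp) (by
        intro i
        split_ifs
        · rw [Complex.norm_real, Real.norm_eq_abs, abs_le]
          have := h a i
          constructor <;> linarith [this.1, this.2]
        · simp) (by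
        intro i
        have h5 := hm a i
        unfold bitR at h5
        rw [abs_le] at h5
        by_cases hs : s i = true
        · by_cases hma : m a i = true
          · rw [if_pos ⟨hs, hma⟩, if_pos hs]
            rw [if_pos hma] at h5
            have h6 : (-1 : ℂ) - ((1 - 2 * f a i : ℝ) : ℂ) = ((2 * (f a i - 1) : ℝ) : ℂ) := by
              push_cast
              ring
            rw [h6, Complex.norm_real, Real.norm_eq_abs, abs_le]
            constructor <;> linarith [h5.1, h5.2]
          · rw [if_neg (fun hc => hma hc.2), if_pos hs]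
            rw [if_neg hma] at h5
            have h6 : (1 : ℂ) - ((1 - 2 * f a i : ℝ) : ℂ) = ((2 * f a i : ℝ) : ℂ) := by
              push_cast
              ring
            rw [h6, Complex.norm_real, Real.norm_eq_abs, abs_le]
            constructor <;> linarith [h5.1, h5.2]
        · rw [if_neg (fun hc => hs hc.1), if_neg hs]
          simp
          linarith)
    rw [card_univ, Fintype.card_fin] at h1
    exact h1

namespace QProg

/-- the state after `t` probes of the approximated memory -/
noncomputable def stateF (P : QProg A w O) (f : A → Fin w → ℝ) : ℕ → Fin P.N → ℂ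
  | 0 => P.U 0 P.start
  | t + 1 => P.U (t + 1) (fun b => phaseF f (P.query b) * stateF P f t b)

/-- the approximated probability of the output `o` -/
noncomputable def probF [DecidableEq O] (P : QProg A w O) (f : A → Fin w → ℝ) (o : O) : ℝ :=
  ∑ b, if P.out b = o then ‖P.stateF f P.T b‖ ^ 2 else 0

lemma stateF_norm (P : QProg A w O) {f : A → Fin w → ℝ} (h : ∀ a i, 0 ≤ f a i ∧ f a i ≤ 1)
    (t : ℕ) : ∑ b, ‖P.stateF f t b‖ ^ 2 ≤ 1 := by
  induction t with
  | zero => rw [stateF, P.isometry, P.start_norm]
  | succ t ih =>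
    rw [stateF, P.isometry]
    refine le_trans ?_ ih
    apply sum_le_sum
    intro b _
    rw [norm_mul, mul_pow]
    have h1 := phaseF_le h (P.query b)
    exact mul_le_of_le_one_left (by positivity) (pow_le_one₀ (norm_nonneg _) h1)

lemma stateF_sub (P : QProg A w O) {f : A → Fin w → ℝ} (h : ∀ a i, 0 ≤ f a i ∧ f a i ≤ 1)
    {m : A → Fin w → Bool} {ε : ℝ} (hε0 : 0 ≤ ε) (hm : ∀ a i, |f a i - bitR (m a i)| ≤ ε)
    (t : ℕ) : nrm (P.state m t - P.stateF f t) ≤ t * (w * (2 * ε)) := by
  induction t with
  | zero =>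
    simp only [state, stateF, sub_self]
    apply nrm_le (by simp)
    simp
  | succ t ih =>
    have h1 : nrm (P.state m (t + 1) - P.stateF f (t + 1)) ≤
        nrm ((fun b => phaseF f (P.query b) * (P.state m t - P.stateF f t) b) +
          fun b => (phase m (P.query b) - phaseF f (P.query b)) * P.state m t b) := by
      apply nrm_le (nrm_nonneg _)
      rw [nrm_sq]
      have h2 : P.state m (t + 1) - P.stateF f (t + 1) = P.U (t + 1)
          ((fun b => phaseF f (P.query b) * (P.state m t - P.stateF f t) b) +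
          fun b => (phase m (P.query b) - phaseF f (P.query b)) * P.state m t b) := by
        rw [state, stateF, ← map_sub]
        congr 1
        funext b
        simp only [Pi.sub_apply, Pi.add_apply]
        ring
      rw [h2, P.isometry]
    refine h1.trans ((nrm_add_le _ _).trans ?_)
    have h3 : nrm (fun b => phaseF f (P.query b) * (P.state m t - P.stateF f t) b) ≤
        t * (w * (2 * ε)) := by
      refine le_trans ?_ ih
      apply nrm_le (nrm_nonneg _)
      rw [nrm_sq]
      apply sum_le_sum
      intro b _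
      rw [norm_mul, mul_pow]
      exact mul_le_of_le_one_left (by positivity) (pow_le_one₀ (norm_nonneg _) (phaseF_le h _))
    have h4 : nrm (fun b => (phase m (P.query b) - phaseF f (P.query b)) * P.state m t b) ≤
        w * (2 * ε) := by
      apply nrm_le (by positivity)
      calc ∑ b, ‖(phase m (P.query b) - phaseF f (P.query b)) * P.state m t b‖ ^ 2 ≤
          ∑ b, (w * (2 * ε)) ^ 2 * ‖P.state m t b‖ ^ 2 := by
            apply sum_le_sum
            intro b _
            rw [norm_mul, mul_pow]
            apply mul_le_mul_of_nonneg_right _ (by positivity)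
            exact pow_le_pow_left₀ (norm_nonneg _) (phase_sub_le h hε0 hm _) 2
        _ = (w * (2 * ε)) ^ 2 := by rw [← mul_sum, P.state_norm, mul_one]
    push_cast
    linarith

lemma prob_le (P : QProg A w O) [DecidableEq O] {f : A → Fin w → ℝ}
    (h : ∀ a i, 0 ≤ f a i ∧ f a i ≤ 1)
    {m : A → Fin w → Bool} {ε : ℝ} (hε0 : 0 ≤ ε) (hm : ∀ a i, |f a i - bitR (m a i)| ≤ ε) (o : O) :
    P.prob m o ≤ 2 * P.probF f o + 2 * (P.T * (w * (2 * ε))) ^ 2 := by
  classical
  have h1 : ∑ b, ‖(P.state m P.T - P.stateF f P.T) b‖ ^ 2 ≤ (P.T * (w * (2 * ε))) ^ 2 := by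
    rw [← nrm_sq]
    exact pow_le_pow_left₀ (nrm_nonneg _) (P.stateF_sub h hε0 hm P.T) 2
  have h2 : P.prob m o ≤ ∑ b, (2 * (if P.out b = o then ‖P.stateF f P.T b‖ ^ 2 else 0) +
      2 * ‖(P.state m P.T - P.stateF f P.T) b‖ ^ 2) := by
    unfold prob
    apply sum_le_sum
    intro b _
    by_cases hb : P.out b = o
    · rw [if_pos hb, if_pos hb, Pi.sub_apply]
      have h3 := norm_add_le (P.stateF f P.T b) (P.state m P.T b - P.stateF f P.T b)
      rw [add_sub_cancel] at h3
      have h4 := norm_nonneg (P.state m P.T b)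
      have h5 : ‖P.state m P.T b‖ ^ 2 ≤
          (‖P.stateF f P.T b‖ + ‖P.state m P.T b - P.stateF f P.T b‖) ^ 2 :=
        pow_le_pow_left₀ h4 h3 2
      nlinarith [sq_nonneg (‖P.stateF f P.T b‖ - ‖P.state m P.T b - P.stateF f P.T b‖)]
    · rw [if_neg hb, if_neg hb]
      positivity
  refine h2.trans ?_
  rw [sum_add_distrib, ← mul_sum, ← mul_sum]
  unfold probF
  linarith

lemma phaseF_deg {I : Type} {d : ℕ} (f : (I → Bool) → A → Fin w → ℝ)
    (hf : ∀ a i, (fun x => ((f x a i : ℝ) : ℂ)) ∈ Dg I d) (o : Option (A × (Fin w → Bool))) :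
    (fun x => phaseF (f x) o) ∈ Dg I (w * d) := by
  rcases o with _ | ⟨a, s⟩
  · exact Dg.const _ _
  · have h2 := Dg.prod (univ : Finset (Fin w)) (fun i x => if s i = true then
        ((1 - 2 * f x a i : ℝ) : ℂ) else 1) (fun _ => d) (by
          intro i _
          by_cases hc : s i = true
          · simp only [hc, if_true]
            have h3 := (Dg I d).sub_mem (Dg.const d 1) (Dg.smul 2 (hf a i))
            convert h3 using 1
            funext x
            simp
          · simp only [hc]
            exact Dg.const _ _)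
    rw [sum_const, card_univ, Fintype.card_fin, smul_eq_mul] at h2
    exact h2

lemma stateF_deg {I : Type} {d : ℕ} (P : QProg A w O) (f : (I → Bool) → A → Fin w → ℝ)
    (hf : ∀ a i, (fun x => ((f x a i : ℝ) : ℂ)) ∈ Dg I d) (t : ℕ) : ∀ b,
    (fun x => P.stateF (f x) t b) ∈ Dg I (t * (w * d)) := by
  induction t with
  | zero =>
    intro b
    exact Dg.const _ _
  | succ t ih =>
    intro b
    have h1 : (fun x => P.stateF (f x) (t + 1) b) =
        fun x => ∑ c, (P.U (t + 1) (fun j => if c = j then 1 else 0) b) *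
          (phaseF (f x) (P.query c) * P.stateF (f x) t c) := by
      funext x
      rw [stateF, LinearMap.pi_apply_eq_sum_univ (P.U (t + 1)), Finset.sum_apply]
      apply sum_congr rfl
      intro c _
      rw [Pi.smul_apply, smul_eq_mul, mul_comm]
    rw [h1]
    apply Dg.sum
    intro c _
    apply Dg.smul
    have h2 := Dg.mul' (phaseF_deg f hf (P.query c)) (ih c)
    rw [show (t + 1) * (w * d) = w * d + t * (w * d) by ring]
    exact h2

lemma isRunX {I : Type} {d : ℕ} [Fintype O] [DecidableEq O] (P : QProg A w O)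
    (f : (I → Bool) → A → Fin w → ℝ)
    (h : ∀ x a i, 0 ≤ f x a i ∧ f x a i ≤ 1)
    (hf : ∀ a i, (fun x => ((f x a i : ℝ) : ℂ)) ∈ Dg I d) :
    IsRunX (2 * P.T * w * d) (fun o x => P.probF (f x) o) := by
  classical
  refine ⟨?_, ?_, ?_⟩
  · intro o x
    unfold probF
    apply sum_nonneg
    intro b _
    split_ifs <;> positivity
  · intro x
    unfold probF
    rw [sum_comm]
    refine le_trans (le_of_eq ?_) (P.stateF_norm (h x) P.T)
    apply sum_congr rfl
    intro b _
    rw [sum_ite_eq]
    simp
  · intro o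
    have h1 : (fun x => ((P.probF (f x) o : ℝ) : ℂ)) =
        fun x => ∑ b, (if P.out b = o then (1 : ℂ) else 0) *
          (P.stateF (f x) P.T b * (starRingEnd ℂ) (P.stateF (f x) P.T b)) := by
      funext x
      unfold probF
      rw [Complex.ofReal_sum]
      apply sum_congr rfl
      intro b _
      rw [Complex.mul_conj]
      split_ifs
      · rw [one_mul, Complex.normSq_eq_norm_sq]
      · simp
    rw [h1]
    apply Dg.sum
    intro b _
    apply Dg.smul
    have h2 := Dg.mul' (P.stateF_deg f hf P.T b) (Dg.star (P.stateF_deg f hf P.T b))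
    rw [show 2 * P.T * w * d = P.T * (w * d) + P.T * (w * d) by ring]
    exact h2

end QProg

end quantum

end Pool.Agent.Helper81x.QP
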