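import Pool.Agent.Helper81x.QP.Seq

/-!
# Few vectors are bad
-/

set_option autoImplicit false

namespace Pool.Agent.Helper81x.QP

open Finset H568R2
open Pool.Agent.TH163.AC2 (free Avoid cut cut_apply cutSpan exists_dz)
open Pool.Agent.H699R2.OMV (Vec Mat)

variable {n : ℕ}

/-- the number of sets with fewer than `D0` elements -/
lemma card_sets (n D0 : ℕ) : ((univ.filter (fun S : Finset (Fin n) => S.card < D0)).card : ℝ) ≤
    8 ^ D0 * (9 / 8) ^ n := by
  have h1 : ∑ S : Finset (Fin n), (1 / 8 : ℝ) ^ S.card = (9 / 8) ^ n := by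
    have h := Fintype.sum_pow_mul_eq_add_pow (Fin n) (1 / 8 : ℝ) 1
    simp only [one_pow, mul_one, Fintype.card_fin] at h
    rw [h]
    norm_num
  have h2 : ∑ S ∈ univ.filter (fun S : Finset (Fin n) => S.card < D0), (1 / 8 : ℝ) ^ D0 ≤
      ∑ S : Finset (Fin n), (1 / 8 : ℝ) ^ S.card := by
    refine le_trans (sum_le_sum (g := fun S : Finset (Fin n) => (1 / 8 : ℝ) ^ S.card) ?_) ?_
    · intro S hS
      exact pow_le_pow_of_le_one (by norm_num) (by norm_num) (mem_filter.1 hS).2.le
    · exact sum_le_sum_of_subset_of_nonneg (filter_subset _ _) (fun _ _ _ => by positivity)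
  rw [h1, sum_const, nsmul_eq_mul, one_div, inv_pow, ← div_eq_mul_inv,
    div_le_iff₀ (by positivity)] at h2
  rw [mul_comm]
  exact h2

open Classical in
lemma card_not_avoid_univ (l : List (Vec n)) (D0 : ℕ) :
    ((univ.filter (fun v : Vec n => ¬ Avoid univ l D0 v)).card : ℝ) ≤
      2 ^ l.length * (8 ^ D0 * (9 / 8) ^ n) := by
  have h1 : (univ.filter (fun v : Vec n => ¬ Avoid univ l D0 v)) ⊆
      ((univ : Finset (Fin l.length → ZMod 2)) ×ˢ
        (univ.filter (fun S : Finset (Fin n) => S.card < D0))).image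
        (fun cS => (∑ i, cS.1 i • l.get i) + fun c => if c ∈ cS.2 then (1 : ZMod 2) else 0) := by
    intro v hv
    rw [mem_filter] at hv
    have hv2 := hv.2
    unfold Avoid at hv2
    push Not at hv2
    obtain ⟨D, hD, hall⟩ := hv2
    have h2 : cut (univ \ D) v ∈ cutSpan (univ \ D) l := by
      by_contra hcon
      obtain ⟨u, hu1, hu2, hu3⟩ := exists_dz _ _ _ hcon
      exact hall u (fun c _ => mem_univ c) (fun c hc => (mem_sdiff.1 (hu1 c hc)).2) hu2 hu3
    unfold cutSpan at h2
    rw [Submodule.mem_span_range_iff_exists_fun] at h2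
    obtain ⟨c, hc⟩ := h2
    rw [mem_image]
    refine ⟨(c, univ.filter (fun i => (v - ∑ i, c i • l.get i) i = 1)), ?_, ?_⟩
    · rw [mem_product]
      refine ⟨mem_univ _, ?_⟩
      rw [mem_filter]
      refine ⟨mem_univ _, lt_of_le_of_lt (card_le_card ?_) hD⟩
      intro i hi
      by_contra hiD
      have h3 := congrFun hc i
      have h4 : (∑ j, c j • cut (univ \ D) (l.get j)) i = (∑ j, c j • l.get j) i := by
        rw [Finset.sum_apply, Finset.sum_apply]
        apply sum_congr rfl
        intro j _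
        rw [Pi.smul_apply, Pi.smul_apply, cut_apply, if_pos (mem_sdiff.2 ⟨mem_univ i, hiD⟩)]
      rw [h4, cut_apply, if_pos (mem_sdiff.2 ⟨mem_univ i, hiD⟩)] at h3
      have h5 := (mem_filter.1 hi).2
      rw [Pi.sub_apply, h3, sub_self] at h5
      exact absurd h5 (by decide)
    · funext i
      have hbit : ∀ a : ZMod 2, (if a = 1 then (1 : ZMod 2) else 0) = a := by decide
      show (∑ j, c j • l.get j) i + (if i ∈ univ.filter (fun i => (v - ∑ i, c i • l.get i) i = 1)
        then (1 : ZMod 2) else 0) = v i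
      have h6 : (if i ∈ univ.filter (fun i => (v - ∑ i, c i • l.get i) i = 1)
        then (1 : ZMod 2) else 0) = (v - ∑ i, c i • l.get i) i := by
        simp only [mem_filter, mem_univ, true_and]
        exact hbit _
      rw [h6, Pi.sub_apply]
      ring
  have h2 := (card_le_card h1).trans card_image_le
  rw [card_product, card_univ, Fintype.card_fun, ZMod.card, Fintype.card_fin] at h2
  have h3 : ((univ.filter (fun v : Vec n => ¬ Avoid univ l D0 v)).card : ℝ) ≤
      2 ^ l.length * ((univ.filter (fun S : Finset (Fin n) => S.card < D0)).card : ℝ) := by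
    exact_mod_cast h2
  refine h3.trans ?_
  exact mul_le_mul_of_nonneg_left (card_sets n D0) (by positivity)

lemma free_none (r : Fin n) : free (fun _ : Fin n × Fin n => (none : Option Bool)) r = univ := by
  unfold free
  simp

open Classical in
/-- few vectors are bad -/
lemma card_bad (B : Fin n → (Mat n)ˣ) (l : List (Vec n)) (D0 : ℕ) :
    ((univ.filter (fun v : Vec n => ¬ Gd B (fun _ => none) D0 l v)).card : ℝ) ≤
      n * (2 ^ l.length * (8 ^ D0 * (9 / 8) ^ n)) := by
  have h1 : (univ.filter (fun v : Vec n => ¬ Gd B (fun _ => none) D0 l v)) ⊆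
      (univ : Finset (Fin n)).biUnion (fun r => univ.filter (fun v : Vec n =>
        ¬ Avoid univ (l.map (↑(B r)⁻¹ : Mat n).mulVec) D0 ((↑(B r)⁻¹ : Mat n).mulVec v))) := by
    intro v hv
    rw [mem_filter] at hv
    have hv2 := hv.2
    unfold Gd at hv2
    push Not at hv2
    obtain ⟨r, hr⟩ := hv2
    rw [free_none] at hr
    rw [mem_biUnion]
    exact ⟨r, mem_univ r, mem_filter.2 ⟨mem_univ v, hr⟩⟩
  have h2 : ∀ r : Fin n, ((univ.filter (fun v : Vec n =>
        ¬ Avoid univ (l.map (↑(B r)⁻¹ : Mat n).mulVec) D0 ((↑(B r)⁻¹ : Mat n).mulVec v))).card : ℝ) ≤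
      2 ^ l.length * (8 ^ D0 * (9 / 8) ^ n) := by
    intro r
    have h3 := card_not_avoid_univ (l.map (↑(B r)⁻¹ : Mat n).mulVec) D0
    rw [List.length_map] at h3
    refine le_trans ?_ h3
    have h4 : (univ.filter (fun v : Vec n =>
        ¬ Avoid univ (l.map (↑(B r)⁻¹ : Mat n).mulVec) D0 ((↑(B r)⁻¹ : Mat n).mulVec v))).card ≤
        (univ.filter (fun v : Vec n => ¬ Avoid univ (l.map (↑(B r)⁻¹ : Mat n).mulVec) D0 v)).card := by
      apply card_le_card_of_injOn (fun v => (↑(B r)⁻¹ : Mat n).mulVec v)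
      · intro v hv
        have hv' := (mem_filter.1 (mem_coe.1 hv)).2
        exact mem_coe.2 (mem_filter.2 ⟨mem_univ _, hv'⟩)
      · intro v _ v' _ hvv
        have h1 := congrArg (fun z => (B r : Mat n).mulVec z) hvv
        simpa [Matrix.mulVec_mulVec] using h1
    exact_mod_cast h4
  have h3 := (card_le_card h1).trans card_biUnion_le
  have h4 : ((univ.filter (fun v : Vec n => ¬ Gd B (fun _ => none) D0 l v)).card : ℝ) ≤
      ∑ r : Fin n, ((univ.filter (fun v : Vec n =>
        ¬ Avoid univ (l.map (↑(B r)⁻¹ : Mat n).mulVec) D0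
          ((↑(B r)⁻¹ : Mat n).mulVec v))).card : ℝ) := by
    exact_mod_cast h3
  refine h4.trans ?_
  refine (sum_le_card_nsmul _ _ _ (fun r _ => h2 r)).trans (le_of_eq ?_)
  rw [card_univ, Fintype.card_fin, nsmul_eq_mul]

end Pool.Agent.Helper81x.QP
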