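import Pool.Agent.TH163.AC2.Core
import Pool.Agent.Helper81x.QP.Vol

/-!
# The average over the stream, and the parameters
-/

set_option autoImplicit false

namespace Pool.Agent.Helper81x.QP

open Finset H568R2
open Pool.Agent.TH163.AC2 (toM coord unif unif_mono mavg mavg_eq avg_eq mavg_sum_mul sum_before)
open Pool.Agent.H699R2.OMV (Vec Mat IsProb before avg)

variable {n : ℕ} {Ω : Type}

/-- From bounds for given coins and earlier vectors to the average over the stream. -/
theorem avg_core [Fintype Ω] (μ : Ω → ℝ) (hμ : IsProb μ)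
    (right cost : Ω → List (Vec n) → Vec n → Mat n → ℝ) (hcost : ∀ ω h v M, 0 ≤ cost ω h v M)
    {γ β N c : ℝ} (hN : 0 ≤ N) (hc : 0 ≤ c) (Q : ℕ) (hQ : Q ≤ n)
    (hone : ∀ ω (h : List (Vec n)), h.length < Q → (2 : ℝ) ^ n * (-(N * β)) ≤
      ∑ v, (c * mavg (cost ω h v) - N * mavg (right ω h v)))
    (hR : ∀ q : Fin n, γ ≤ avg (fun M vs => ∑ ω, μ ω * right ω (before vs q) (vs q) M)) :
    Q * (N * (γ - β)) ≤ c * avg (fun M vs => ∑ ω, μ ω * ∑ q, cost ω (before vs q) (vs q) M) := by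
  have hcV : (0 : ℝ) < (Fintype.card (Fin n → Vec n) : ℝ) := by
    exact_mod_cast Fintype.card_pos
  let T : Fin n → ℝ := fun q => avg (fun M vs => ∑ ω, μ ω * cost ω (before vs q) (vs q) M)
  have hT : ∀ q, T q = (∑ ω, μ ω * ∑ vs : Fin n → Vec n, mavg (cost ω (before vs q) (vs q))) /
      (Fintype.card (Fin n → Vec n) : ℝ) := by
    intro q
    show avg _ = _
    rw [avg_eq]
    congr 1
    simp only [mavg_sum_mul]
    rw [Finset.sum_comm]
    apply Finset.sum_congr rfl
    intro ω _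
    rw [Finset.mul_sum]
  have hE : ∀ q : Fin n, γ ≤ (∑ ω, μ ω * ∑ vs : Fin n → Vec n,
      mavg (right ω (before vs q) (vs q))) / (Fintype.card (Fin n → Vec n) : ℝ) := by
    intro q
    have := hR q
    rw [avg_eq] at this
    simp only [mavg_sum_mul] at this
    rw [Finset.sum_comm] at this
    refine le_trans this (le_of_eq ?_)
    congr 1
    apply Finset.sum_congr rfl
    intro ω _
    rw [Finset.mul_sum]
  have hTnn : ∀ q, 0 ≤ T q := by
    intro q
    rw [hT]
    apply div_nonneg _ hcV.le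
    apply Finset.sum_nonneg
    intro ω _
    apply mul_nonneg (hμ.nonneg ω)
    apply Finset.sum_nonneg
    intro vs _
    unfold mavg
    exact div_nonneg (Finset.sum_nonneg fun M _ => hcost _ _ _ M) (by positivity)
  have hq : ∀ q : Fin n, q.val < Q → N * (γ - β) ≤ c * T q := by
    intro q hq
    have hG : ∀ ω, (Fintype.card (Fin n → Vec n) : ℝ) * (-(N * β)) ≤
        ∑ vs : Fin n → Vec n, (c * mavg (cost ω (before vs q) (vs q)) -
          N * mavg (right ω (before vs q) (vs q))) := by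
      intro ω
      apply sum_before (fun h v => c * mavg (cost ω h v) - N * mavg (right ω h v))
      intro h hh
      exact hone ω h (by omega)
    have hsum : (Fintype.card (Fin n → Vec n) : ℝ) * (-(N * β)) ≤
        c * (∑ ω, μ ω * ∑ vs : Fin n → Vec n, mavg (cost ω (before vs q) (vs q))) -
        N * ∑ ω, μ ω * ∑ vs : Fin n → Vec n, mavg (right ω (before vs q) (vs q)) := by
      have h4 := Finset.sum_le_sum (fun ω (_ : ω ∈ (univ : Finset Ω)) =>
        mul_le_mul_of_nonneg_left (hG ω) (hμ.nonneg ω))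
      rw [← Finset.sum_mul, hμ.sum_one, one_mul] at h4
      refine h4.trans (le_of_eq ?_)
      rw [Finset.mul_sum, Finset.mul_sum, ← Finset.sum_sub_distrib]
      apply Finset.sum_congr rfl
      intro ω _
      rw [Finset.sum_sub_distrib, ← Finset.mul_sum, ← Finset.mul_sum]
      ring
    have h5 : -(N * β) ≤ c * T q - N * ((∑ ω, μ ω *
        ∑ vs : Fin n → Vec n, mavg (right ω (before vs q) (vs q))) /
          (Fintype.card (Fin n → Vec n) : ℝ)) := by
      rw [hT, ← mul_div_assoc, ← mul_div_assoc, ← sub_div, le_div_iff₀ hcV]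
      linarith
    have h7 := mul_le_mul_of_nonneg_left (hE q) hN
    linarith
  have htot : avg (fun M vs => ∑ ω, μ ω * ∑ q, cost ω (before vs q) (vs q) M) =
      ∑ q, T q := by
    show _ = ∑ q, avg _
    unfold avg
    rw [← Finset.sum_div]
    congr 1
    symm
    rw [Finset.sum_comm]
    apply Finset.sum_congr rfl
    intro M _
    rw [Finset.sum_comm]
    apply Finset.sum_congr rfl
    intro vs _
    rw [Finset.sum_comm]
    apply Finset.sum_congr rfl
    intro ω _
    rw [Finset.mul_sum]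
  rw [htot]
  have hsub : ∑ q ∈ univ.filter (fun q : Fin n => q.val < Q), (c * T q) ≤
      c * ∑ q, T q := by
    rw [Finset.mul_sum]
    apply Finset.sum_le_sum_of_subset_of_nonneg (Finset.filter_subset _ _)
    intro q _ _
    exact mul_nonneg hc (hTnn q)
  refine le_trans ?_ hsub
  have hcard : (univ.filter (fun q : Fin n => q.val < Q)).card = Q := by
    rw [Fin.card_filter_val_lt, min_eq_right hQ]
  have := Finset.card_nsmul_le_sum (univ.filter (fun q : Fin n => q.val < Q))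
    (fun q => c * T q) (N * (γ - β)) (by
      intro q hq'
      exact hq q (Finset.mem_filter.1 hq').2)
  rw [hcard, nsmul_eq_mul] at this
  exact this

/-- the number of vectors that are treated together -/
def tt (n e : ℕ) : ℕ := (e + n) / (n / 4) + 1

lemma tt_le {n e : ℕ} (hn : 128 ≤ n) (he : 64 * e ≤ n ^ 2) : tt n e ≤ n / 16 + 6 := by
  unfold tt
  obtain ⟨s, hs⟩ : ∃ s, s = n / 4 := ⟨_, rfl⟩
  rw [← hs]
  have h1 : n ≤ 4 * s + 3 := by omega
  have h2 : 32 ≤ s := by omega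
  have h3 : n / 16 = s / 4 := by omega
  rw [h3]
  have h4 : (e + n) / s < s / 4 + 6 := by
    rw [Nat.div_lt_iff_lt_mul (by omega)]
    have h5 : 64 * e ≤ (4 * s + 3) ^ 2 := he.trans (Nat.pow_le_pow_left h1 2)
    have h6 : s ≤ 4 * (s / 4) + 3 := by omega
    nlinarith
  omega

lemma tt_mul {n e : ℕ} (hn : 128 ≤ n) : e + n ≤ tt n e * (n / 4) := by
  unfold tt
  have h := Nat.lt_div_mul_add (a := e + n) (b := n / 4) (by omega)
  rw [add_mul, one_mul]
  exact h.le

lemma tt_n {n e : ℕ} (hn : 128 ≤ n) (he : 64 * e ≤ n ^ 2) : tt n e * n ≤ 6 * (e + n) := by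
  have h1 := tt_le hn he
  obtain ⟨s, hs⟩ : ∃ s, s = n / 4 := ⟨_, rfl⟩
  have h2 : tt n e * s ≤ (e + n) + s := by
    unfold tt
    rw [← hs, add_mul, one_mul]
    exact Nat.add_le_add_right (Nat.div_mul_le_self _ _) _
  have h3 : n ≤ 4 * s + 3 := by omega
  calc tt n e * n ≤ tt n e * (4 * s + 3) := Nat.mul_le_mul_left _ h3
    _ = 4 * (tt n e * s) + 3 * tt n e := by ring
    _ ≤ 6 * (e + n) := by omega

lemma pow_bound (n : ℕ) : (9 / 8 : ℝ) ^ n ≤ 2 ^ (n / 5 + 1) := by
  have h1 : (9 / 8 : ℝ) ^ n ≤ (9 / 8) ^ (5 * (n / 5 + 1)) :=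
    pow_le_pow_right₀ (by norm_num) (by omega)
  refine h1.trans ?_
  rw [pow_mul]
  exact pow_le_pow_left₀ (by positivity) (by norm_num) _

lemma n_le_pow {n : ℕ} (hn : 128 ≤ n) : n ≤ 2 ^ (n / 10) := by
  obtain ⟨a, ha⟩ : ∃ a, a = n / 10 := ⟨_, rfl⟩
  rw [← ha]
  have h1 : n ≤ 10 * a + 9 := by omega
  have h2 : 12 ≤ a := by omega
  refine h1.trans ?_
  clear ha h1
  induction a, h2 using Nat.le_induction with
  | base => norm_num
  | succ a ha ih =>
    rw [pow_succ]
    omega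

lemma beta_le {n e : ℕ} (hn : 128 ≤ n) (he : 64 * e ≤ n ^ 2) {γ : ℝ}
    (hγ : 1 / 2 ^ (n / 10) ≤ γ) :
    n * (2 ^ (n / 4 + tt n e) * (8 ^ (n / 16) * (9 / 8) ^ n)) / 2 ^ n +
      2 ^ (n / 4 + n / 4) / 2 ^ n ≤ γ / 8 := by
  have h1 := tt_le hn he
  have h2 := pow_bound n
  have h3 : (n : ℝ) ≤ 2 ^ (n / 10) := by exact_mod_cast n_le_pow hn
  have h4 : n * (2 ^ (n / 4 + tt n e) * (8 ^ (n / 16) * (9 / 8) ^ n)) / 2 ^ n ≤
      (1 / 2 ^ (n / 10)) / (16 : ℝ) := by
    rw [div_div, div_le_div_iff₀ (by positivity) (by positivity), one_mul]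
    calc (n : ℝ) * (2 ^ (n / 4 + tt n e) * (8 ^ (n / 16) * (9 / 8) ^ n)) * (2 ^ (n / 10) * 16) ≤
        2 ^ (n / 10) * (2 ^ (n / 4 + (n / 16 + 6)) * (2 ^ (3 * (n / 16)) * 2 ^ (n / 5 + 1))) *
          (2 ^ (n / 10) * 2 ^ 4) := by
          have h5 : (8 : ℝ) ^ (n / 16) = 2 ^ (3 * (n / 16)) := by
            rw [pow_mul]
            norm_num
          rw [h5]
          have h6 : (2 : ℝ) ^ (n / 4 + tt n e) ≤ 2 ^ (n / 4 + (n / 16 + 6)) :=
            pow_le_pow_right₀ (by norm_num) (by omega)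
          have h7 : (16 : ℝ) = 2 ^ 4 := by norm_num
          rw [h7]
          gcongr
      _ = 2 ^ (n / 10 + (n / 4 + (n / 16 + 6) + (3 * (n / 16) + (n / 5 + 1))) + (n / 10 + 4)) := by
          rw [← pow_add, ← pow_add, ← pow_add, ← pow_add, ← pow_add]
      _ ≤ 2 ^ n := pow_le_pow_right₀ (by norm_num) (by omega)
  have h5 : (2 : ℝ) ^ (n / 4 + n / 4) / 2 ^ n ≤ (1 / 2 ^ (n / 10)) / 16 := by
    rw [div_div, div_le_div_iff₀ (by positivity) (by positivity), one_mul]
    have h7 : (16 : ℝ) = 2 ^ 4 := by norm_num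
    rw [h7, ← pow_add, ← pow_add]
    exact pow_le_pow_right₀ (by norm_num) (by omega)
  linarith

end Pool.Agent.Helper81x.QP
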