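import Mathlib

/-!
# Functions of bits of bounded degree
-/

set_option autoImplicit false

namespace Pool.Agent.Helper81x.QP

open Finset

/-- functions of at most `D` bits -/
def Jun (I : Type) (D : ℕ) : Set ((I → Bool) → ℂ) :=
  {f | ∃ T : Finset I, T.card ≤ D ∧ ∀ x x' : I → Bool, (∀ i ∈ T, x i = x' i) → f x = f x'}

/-- functions of degree at most `D` -/
def Dg (I : Type) (D : ℕ) : Submodule ℂ ((I → Bool) → ℂ) := Submodule.span ℂ (Jun I D)

variable {I J : Type}

lemma Jun.mem {D : ℕ} {f : (I → Bool) → ℂ} (T : Finset I) (hT : T.card ≤ D)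
    (h : ∀ x x' : I → Bool, (∀ i ∈ T, x i = x' i) → f x = f x') : f ∈ Dg I D :=
  Submodule.subset_span ⟨T, hT, h⟩

lemma Dg.const (D : ℕ) (c : ℂ) : (fun _ : I → Bool => c) ∈ Dg I D :=
  Jun.mem ∅ (by simp) (fun _ _ _ => rfl)

lemma Dg.mono {D D' : ℕ} (h : D ≤ D') : Dg I D ≤ Dg I D' := by
  apply Submodule.span_mono
  rintro f ⟨T, hT, hf⟩
  exact ⟨T, hT.trans h, hf⟩

lemma Dg.mul {D D' : ℕ} {f g : (I → Bool) → ℂ} (hf : f ∈ Dg I D) (hg : g ∈ Dg I D') :
    f * g ∈ Dg I (D + D') := by
  classical
  have h := Submodule.mul_mem_mul hf hg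
  unfold Dg at h
  rw [Submodule.span_mul_span] at h
  refine Submodule.span_mono ?_ h
  rintro _ ⟨a, ⟨T, hT, ha⟩, b, ⟨T', hT', hb⟩, rfl⟩
  refine ⟨T ∪ T', (card_union_le _ _).trans (add_le_add hT hT'), fun x x' hx => ?_⟩
  show a x * b x = a x' * b x'
  rw [ha x x' (fun i hi => hx i (mem_union_left _ hi)),
    hb x x' (fun i hi => hx i (mem_union_right _ hi))]

lemma Dg.mul' {D D' : ℕ} {f g : (I → Bool) → ℂ} (hf : f ∈ Dg I D) (hg : g ∈ Dg I D') :
    (fun x => f x * g x) ∈ Dg I (D + D') := Dg.mul hf hg

lemma Dg.prod {κ : Type} (s : Finset κ) (f : κ → (I → Bool) → ℂ) (D : κ → ℕ)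
    (h : ∀ k ∈ s, f k ∈ Dg I (D k)) : (fun x => ∏ k ∈ s, f k x) ∈ Dg I (∑ k ∈ s, D k) := by
  classical
  induction s using Finset.induction_on with
  | empty =>
    simp only [prod_empty, sum_empty]
    exact Dg.const 0 1
  | insert a s ha ih =>
    simp only [prod_insert ha, sum_insert ha]
    exact Dg.mul' (h a (mem_insert_self a s)) (ih (fun k hk => h k (mem_insert_of_mem hk)))

lemma Dg.sum {κ : Type} (s : Finset κ) (f : κ → (I → Bool) → ℂ) {D : ℕ}
    (h : ∀ k ∈ s, f k ∈ Dg I D) : (fun x => ∑ k ∈ s, f k x) ∈ Dg I D := by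
  have h2 := Submodule.sum_mem (Dg I D) h
  convert h2 using 1
  funext x
  rw [Finset.sum_apply]

lemma Dg.smul {D : ℕ} {f : (I → Bool) → ℂ} (c : ℂ) (h : f ∈ Dg I D) :
    (fun x => c * f x) ∈ Dg I D := (Dg I D).smul_mem c h

lemma Dg.star {D : ℕ} {f : (I → Bool) → ℂ} (h : f ∈ Dg I D) :
    (fun x => (starRingEnd ℂ) (f x)) ∈ Dg I D := by
  unfold Dg at h
  induction h using Submodule.span_induction with
  | mem f hf =>
    obtain ⟨T, hT, hf⟩ := hf
    exact Jun.mem T hT (fun x x' hx => by rw [hf x x' hx])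
  | zero =>
    have : (fun x : I → Bool => (starRingEnd ℂ) ((0 : (I → Bool) → ℂ) x)) = fun _ => 0 := by
      funext x; simp
    rw [this]
    exact Dg.const D 0
  | add f g _ _ hf hg =>
    have := (Dg I D).add_mem hf hg
    convert this using 1
    funext x
    simp
  | smul c f _ hf =>
    have := (Dg I D).smul_mem ((starRingEnd ℂ) c) hf
    convert this using 1
    funext x
    simp

/-- the bit as a number -/
def bt (b : Bool) : ℂ := if b = true then 1 else 0

/-- Polynomials in bits of bounded degree. -/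
lemma Dg.comp {D d : ℕ} {F : (J → Bool) → ℂ} (hF : F ∈ Dg J D) (b : (I → Bool) → J → Bool)
    (hb : ∀ j, (fun x => bt (b x j)) ∈ Dg I d) : (fun x => F (b x)) ∈ Dg I (D * d) := by
  classical
  unfold Dg at hF
  induction hF using Submodule.span_induction with
  | mem F hF =>
    obtain ⟨T, hT, hF⟩ := hF
    have h1 : (fun x => F (b x)) = fun x => ∑ S ∈ T.powerset, F (fun j => decide (j ∈ S)) *
        ∏ j ∈ T, (if j ∈ S then bt (b x j) else 1 - bt (b x j)) := by
      funext x
      rw [Finset.sum_eq_single (T.filter (fun j => b x j = true))]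
      · rw [Finset.prod_eq_one, mul_one]
        · apply hF
          intro i hi
          rcases h : b x i with _ | _ <;> simp [h, hi]
        · intro j hj
          rcases h : b x j with _ | _ <;> simp [h, hj, bt]
      · intro S hS hne
        rw [mul_eq_zero]
        right
        by_contra hcon
        rw [← ne_eq, Finset.prod_ne_zero_iff] at hcon
        apply hne
        ext j
        rw [mem_filter]
        constructor
        · intro hj
          refine ⟨mem_powerset.1 hS hj, ?_⟩
          have := hcon j (mem_powerset.1 hS hj)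
          rw [if_pos hj] at this
          rcases h : b x j with _ | _
          · rw [h] at this; simp [bt] at this
          · rfl
        · rintro ⟨hj, hbj⟩
          by_contra hjS
          have := hcon j hj
          rw [if_neg hjS, hbj] at this
          simp [bt] at this
      · intro h
        exact absurd (mem_powerset.2 (filter_subset _ _)) h
    rw [h1]
    apply Dg.sum
    intro S _
    apply Dg.smul
    have h2 := Dg.prod T (fun j x => if j ∈ S then bt (b x j) else 1 - bt (b x j)) (fun _ => d) (by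
      intro j _
      by_cases hj : j ∈ S
      · simp only [hj, if_true]
        exact hb j
      · simp only [hj, if_false]
        exact (Dg I d).sub_mem (Dg.const d 1) (hb j))
    rw [sum_const, smul_eq_mul] at h2
    exact Dg.mono (Nat.mul_le_mul_right d hT) h2
  | zero => exact Dg.const _ 0
  | add f g _ _ hf hg => exact (Dg I (D * d)).add_mem hf hg
  | smul c f _ hf => exact (Dg I (D * d)).smul_mem c hf

/-- Polynomials of total degree at most `d` have degree at most `d`. -/
lemma Dg.poly {d : ℕ} (p : MvPolynomial I ℝ) (hp : p.totalDegree ≤ d) :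
    (fun x : I → Bool => ((MvPolynomial.eval (fun i => if x i = true then (1 : ℝ) else 0) p : ℝ) : ℂ))
      ∈ Dg I d := by
  classical
  have h1 : (fun x : I → Bool =>
      ((MvPolynomial.eval (fun i => if x i = true then (1 : ℝ) else 0) p : ℝ) : ℂ)) =
      fun x => ∑ m ∈ p.support, ((p.coeff m : ℝ) : ℂ) *
        ∏ i ∈ m.support, (((if x i = true then (1 : ℝ) else 0) : ℝ) : ℂ) ^ m i := by
    funext x
    rw [MvPolynomial.eval_eq]
    push_cast
    rfl
  rw [h1]
  apply Dg.sum
  intro m hm
  apply Dg.smul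
  refine Jun.mem m.support ?_ ?_
  · refine le_trans ?_ hp
    refine le_trans ?_ (MvPolynomial.le_totalDegree hm)
    unfold Finsupp.sum
    rw [card_eq_sum_ones]
    apply sum_le_sum
    intro i hi
    exact Nat.one_le_iff_ne_zero.2 (Finsupp.mem_support_iff.1 hi)
  · intro x x' hx
    apply prod_congr rfl
    intro i hi
    rw [hx i hi]

end Pool.Agent.Helper81x.QP
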