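import Pool.Agent.Helper81x.QP.Model
import Pool.Agent.Helper81x.QP.Deg

/-!
# The probabilities of the outputs are polynomials in the bits of the memory
-/

set_option autoImplicit false

namespace Pool.Agent.Helper81x.QP

open Finset
open Pool.Agent.H699R2.OMV (Prog)

variable {A : Type} {w : ℕ} {O : Type}

/-- Output probabilities which are polynomials of degree at most `D` in the bits of the memory. -/
structure IsRun [Fintype O] (D : ℕ) (pr : O → (A → Fin w → Bool) → ℝ) : Prop where
  nonneg : ∀ o m, 0 ≤ pr o m
  sum_le : ∀ m, ∑ o, pr o m ≤ 1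
  deg : ∀ o, (fun x : A × Fin w → Bool => ((pr o (fun a i => x (a, i)) : ℝ) : ℂ)) ∈ Dg (A × Fin w) D

lemma IsRun.mono [Fintype O] {D D' : ℕ} {pr : O → (A → Fin w → Bool) → ℝ} (h : IsRun D pr)
    (hD : D ≤ D') : IsRun D' pr :=
  ⟨h.nonneg, h.sum_le, fun o => Dg.mono hD (h.deg o)⟩

lemma IsRun.zero [Fintype O] (D : ℕ) : IsRun D (fun (_ : O) (_ : A → Fin w → Bool) => (0 : ℝ)) :=
  ⟨fun _ _ => le_refl _, fun _ => by simp, fun _ => by
    simp only [Complex.ofReal_zero]
    exact Dg.const _ _⟩

/-- Output probabilities which are polynomials of degree at most `E` in the bits of the input. -/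
structure IsRunX {I : Type} [Fintype O] (E : ℕ) (pr : O → (I → Bool) → ℝ) : Prop where
  nonneg : ∀ o x, 0 ≤ pr o x
  sum_le : ∀ x, ∑ o, pr o x ≤ 1
  deg : ∀ o, (fun x : I → Bool => ((pr o x : ℝ) : ℂ)) ∈ Dg I E

lemma IsRunX.zero {I : Type} [Fintype O] (E : ℕ) :
    IsRunX E (fun (_ : O) (_ : I → Bool) => (0 : ℝ)) :=
  ⟨fun _ _ => le_refl _, fun _ => by simp, fun _ => by
    simp only [Complex.ofReal_zero]
    exact Dg.const _ _⟩

/-- A run on a memory whose bits have bounded degree. -/
lemma IsRun.comp {I : Type} [Fintype O] {D d E : ℕ} {pr : O → (A → Fin w → Bool) → ℝ}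
    (h : IsRun D pr) (mm : (I → Bool) → A → Fin w → Bool)
    (hmm : ∀ a i, (fun x => bt (mm x a i)) ∈ Dg I d) (hE : D * d ≤ E) :
    IsRunX E (fun o x => pr o (mm x)) :=
  ⟨fun o x => h.nonneg o _, fun x => h.sum_le _, fun o =>
    Dg.mono hE (Dg.comp (h.deg o) (fun x ai => mm x ai.1 ai.2) (fun ai => hmm ai.1 ai.2))⟩

/-! ### quantum programs -/

lemma norm_phase (m : A → Fin w → Bool) (o : Option (A × (Fin w → Bool))) : ‖phase m o‖ = 1 := by
  rcases o with _ | ⟨a, s⟩
  · simp [phase]
  · show ‖∏ i, (if s i = true ∧ m a i = true then (-1 : ℂ) else 1)‖ = 1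
    rw [norm_prod]
    apply prod_eq_one
    intro i _
    split_ifs <;> simp

lemma phase_deg (o : Option (A × (Fin w → Bool))) :
    (fun x : A × Fin w → Bool => phase (fun a i => x (a, i)) o) ∈ Dg (A × Fin w) w := by
  classical
  rcases o with _ | ⟨a, s⟩
  · exact Dg.const _ _
  · refine Jun.mem (univ.image (fun i : Fin w => (a, i))) ?_ ?_
    · refine card_image_le.trans ?_
      rw [card_univ, Fintype.card_fin]
    · intro x x' hx
      show ∏ i, (if s i = true ∧ x (a, i) = true then (-1 : ℂ) else 1) =
        ∏ i, (if s i = true ∧ x' (a, i) = true then (-1 : ℂ) else 1)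
      apply prod_congr rfl
      intro i _
      rw [hx (a, i) (mem_image_of_mem _ (mem_univ i))]

namespace QProg

lemma state_norm (P : QProg A w O) (m : A → Fin w → Bool) (t : ℕ) :
    ∑ b, ‖P.state m t b‖ ^ 2 = 1 := by
  induction t with
  | zero => rw [state, P.isometry, P.start_norm]
  | succ t ih =>
    rw [state, P.isometry]
    rw [← ih]
    apply sum_congr rfl
    intro b _
    rw [norm_mul, norm_phase, one_mul]

lemma state_deg (P : QProg A w O) (t : ℕ) : ∀ b,
    (fun x : A × Fin w → Bool => P.state (fun a i => x (a, i)) t b) ∈ Dg (A × Fin w) (t * w) := by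
  induction t with
  | zero =>
    intro b
    exact Dg.const _ _
  | succ t ih =>
    intro b
    have h1 : (fun x : A × Fin w → Bool => P.state (fun a i => x (a, i)) (t + 1) b) =
        fun x => ∑ c, (P.U (t + 1) (fun j => if c = j then 1 else 0) b) *
          (phase (fun a i => x (a, i)) (P.query c) * P.state (fun a i => x (a, i)) t c) := by
      funext x
      rw [state, LinearMap.pi_apply_eq_sum_univ (P.U (t + 1)), Finset.sum_apply]
      apply sum_congr rfl
      intro c _
      rw [Pi.smul_apply, smul_eq_mul, mul_comm]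
    rw [h1]
    apply Dg.sum
    intro c _
    apply Dg.smul
    have h2 := Dg.mul' (phase_deg (P.query c)) (ih c)
    rw [show (t + 1) * w = w + t * w by ring]
    exact h2

lemma isRun [Fintype O] (P : QProg A w O) :
    IsRun (2 * P.T * w) (fun o m => P.prob m o) := by
  classical
  refine ⟨?_, ?_, ?_⟩
  · intro o m
    unfold prob
    apply sum_nonneg
    intro b _
    split_ifs <;> positivity
  · intro m
    unfold prob
    rw [sum_comm]
    rw [← state_norm P m P.T]
    apply le_of_eq
    apply sum_congr rfl
    intro b _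
    rw [sum_ite_eq]
    simp
  · intro o
    have h1 : (fun x : A × Fin w → Bool => ((P.prob (fun a i => x (a, i)) o : ℝ) : ℂ)) =
        fun x => ∑ b, (if P.out b = o then (1 : ℂ) else 0) *
          (P.state (fun a i => x (a, i)) P.T b *
            (starRingEnd ℂ) (P.state (fun a i => x (a, i)) P.T b)) := by
      funext x
      unfold prob
      rw [Complex.ofReal_sum]
      apply sum_congr rfl
      intro b _
      rw [Complex.mul_conj]
      split_ifs
      · rw [one_mul, Complex.normSq_eq_norm_sq]
      · simp
    rw [h1]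
    apply Dg.sum
    intro b _
    apply Dg.smul
    have h2 := Dg.mul' (P.state_deg P.T b) (Dg.star (P.state_deg P.T b))
    rw [show 2 * P.T * w = P.T * w + P.T * w by ring]
    exact h2

end QProg

/-! ### classical programs -/

/-- The indicator of the output `o` after at most `τ` probes. -/
def cpr [DecidableEq O] (P : Prog A (Fin w → Bool) O) (τ : ℕ) (o : O) (m : A → Fin w → Bool) : ℝ :=
  if P.out m = o ∧ (P.addrs m).length ≤ τ then 1 else 0

lemma cpr_deg [DecidableEq O] (P : Prog A (Fin w → Bool) O) (o : O) : ∀ τ : ℕ,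
    (fun x : A × Fin w → Bool => ((cpr P τ o (fun a i => x (a, i)) : ℝ) : ℂ)) ∈
      Dg (A × Fin w) (τ * w) := by
  classical
  induction P with
  | done o' =>
    intro τ
    exact Dg.const (I := A × Fin w) (τ * w)
      ((cpr (Prog.done (W := Fin w → Bool) o') τ o (fun (_ : A) (_ : Fin w) => false) : ℝ) : ℂ)
  | probe a k ih =>
    intro τ
    rcases τ with _ | τ
    · have h1 : (fun x : A × Fin w → Bool =>
          ((cpr (Prog.probe a k) 0 o (fun a i => x (a, i)) : ℝ) : ℂ)) = fun _ => 0 := by
        funext x
        unfold cpr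
        rw [if_neg]
        · simp
        · rintro ⟨_, h⟩
          simp [Prog.addrs] at h
      rw [h1]
      exact Dg.const _ _
    · have h1 : (fun x : A × Fin w → Bool =>
          ((cpr (Prog.probe a k) (τ + 1) o (fun a i => x (a, i)) : ℝ) : ℂ)) =
          fun x => ∑ c : Fin w → Bool, (if (fun i => x (a, i)) = c then (1 : ℂ) else 0) *
            ((cpr (k c) τ o (fun a i => x (a, i)) : ℝ) : ℂ) := by
        funext x
        rw [Finset.sum_eq_single (fun i => x (a, i))]
        · rw [if_pos rfl, one_mul]
          congr 1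
          unfold cpr
          simp only [Prog.out, Prog.addrs, List.length_cons, Nat.add_le_add_iff_right]
        · intro c _ hc
          rw [if_neg (Ne.symm hc), zero_mul]
        · intro h
          exact absurd (mem_univ _) h
      rw [h1]
      apply Dg.sum
      intro c _
      have h2 : (fun x : A × Fin w → Bool => (if (fun i => x (a, i)) = c then (1 : ℂ) else 0)) ∈
          Dg (A × Fin w) w := by
        refine Jun.mem (univ.image (fun i : Fin w => (a, i))) ?_ ?_
        · refine card_image_le.trans ?_
          rw [card_univ, Fintype.card_fin]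
        · intro x x' hx
          have : (fun i => x (a, i)) = fun i => x' (a, i) := by
            funext i
            exact hx (a, i) (mem_image_of_mem _ (mem_univ i))
          rw [this]
      rw [show (τ + 1) * w = w + τ * w by ring]
      exact Dg.mul' h2 (ih c τ)

lemma isRun_cpr [DecidableEq O] [Fintype O] (P : Prog A (Fin w → Bool) O) (τ : ℕ) :
    IsRun (τ * w) (cpr P τ) := by
  refine ⟨?_, ?_, fun o => cpr_deg P o τ⟩
  · intro o m
    unfold cpr
    split_ifs <;> norm_num
  · intro m
    unfold cpr
    rw [Finset.sum_eq_single (P.out m)]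
    · split_ifs <;> norm_num
    · intro o _ ho
      rw [if_neg]
      rintro ⟨h, _⟩
      exact ho h.symm
    · intro h
      exact absurd (mem_univ _) h

end Pool.Agent.Helper81x.QP
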