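import Pool.Agent.TH163.AC2.Stars
import Pool.Agent.Helper81x.QP.Runs

/-!
# The direct product argument
-/

set_option autoImplicit false

namespace Pool.Agent.Helper81x.QP

open Finset H568R2
open Pool.Agent.TH163.AC2 (toM toMat coord gm gm_flp flp flp_flp dz toM_mulVec free)
open Pool.Agent.H699R2.OMV (Vec Mat)

/-- the sign of a bit -/
def sg (a : ZMod 2) : ℂ := if a = 1 then -1 else 1

lemma sg_add_one (a : ZMod 2) : sg (a + 1) = sg a * (-1) := by
  have h : a = 0 ∨ a = 1 := by revert a; decide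
  rcases h with rfl | rfl
  · simp [sg]
  · have h2 : (1 : ZMod 2) + 1 = 0 := by decide
    rw [h2]
    simp [sg]

lemma norm_sg (a : ZMod 2) : ‖sg a‖ = 1 := by
  unfold sg
  split_ifs <;> simp

lemma one_add_sg (a b : ZMod 2) : 1 + sg a * sg b = if a = b then 2 else 0 := by
  have ha : a = 0 ∨ a = 1 := by revert a; decide
  have hb : b = 0 ∨ b = 1 := by revert b; decide
  rcases ha with rfl | rfl <;> rcases hb with rfl | rfl <;> simp [sg] <;> norm_num

lemma prod_ind {Λ : Type} [Fintype Λ] [DecidableEq Λ] (z p : Λ → ZMod 2) :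
    ∏ l, (1 + sg (z l) * sg (p l)) = if p = z then (2 : ℂ) ^ (Fintype.card Λ) else 0 := by
  simp only [one_add_sg]
  by_cases h : p = z
  · subst h
    rw [if_pos rfl]
    simp
  · rw [if_neg h]
    have : ∃ l, z l ≠ p l := by
      by_contra hc
      push Not at hc
      exact h (funext fun l => (hc l).symm)
    obtain ⟨l, hl⟩ := this
    apply prod_eq_zero (mem_univ l)
    rw [if_neg hl]

/-- The direct product argument. -/
lemma dirprod {Λ X : Type} [Fintype Λ] [DecidableEq Λ] [Fintype X]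
    (G : (Λ → ZMod 2) → X → ℝ) (par : X → Λ → ZMod 2) (hG0 : ∀ z x, 0 ≤ G z x)
    (hG1 : ∀ x, ∑ z, G z x ≤ 1) (Small : Finset Λ → Prop) [DecidablePred Small]
    (hbig : ∀ R, ¬ Small R → ∀ z, ∑ x, (G z x : ℂ) * ∏ l ∈ R, sg (par x l) = 0) :
    (∑ x, G (par x) x) * 2 ^ (Fintype.card Λ) ≤
      (univ.filter Small).card * Fintype.card X := by
  have h1 : ((∑ x, G (par x) x : ℝ) : ℂ) * 2 ^ (Fintype.card Λ) =
      ∑ R : Finset Λ, ∑ z : Λ → ZMod 2, (∏ l ∈ R, sg (z l)) *
        ∑ x, (G z x : ℂ) * ∏ l ∈ R, sg (par x l) := by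
    have h2 : ∀ x, (G (par x) x : ℂ) * 2 ^ (Fintype.card Λ) =
        ∑ z : Λ → ZMod 2, (G z x : ℂ) * ∑ R : Finset Λ, ∏ l ∈ R, (sg (z l) * sg (par x l)) := by
      intro x
      rw [Finset.sum_eq_single (par x)]
      · congr 1
        have h3 := prod_ind (par x) (par x)
        rw [if_pos rfl, Finset.prod_one_add, Finset.powerset_univ] at h3
        exact h3.symm
      · intro z _ hz
        have h3 := prod_ind z (par x)
        rw [if_neg (Ne.symm hz), Finset.prod_one_add, Finset.powerset_univ] at h3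
        rw [h3, mul_zero]
      · intro h
        exact absurd (mem_univ _) h
    rw [Complex.ofReal_sum, sum_mul]
    rw [sum_congr rfl (fun x _ => h2 x)]
    rw [sum_comm]
    have h4 : ∀ z : Λ → ZMod 2, ∑ x, (G z x : ℂ) * ∑ R : Finset Λ,
        ∏ l ∈ R, (sg (z l) * sg (par x l)) = ∑ R : Finset Λ, (∏ l ∈ R, sg (z l)) *
        ∑ x, (G z x : ℂ) * ∏ l ∈ R, sg (par x l) := by
      intro z
      simp only [mul_sum]
      rw [sum_comm]
      apply sum_congr rfl
      intro R _
      apply sum_congr rfl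
      intro x _
      rw [prod_mul_distrib]
      ring
    rw [sum_congr rfl (fun z _ => h4 z), sum_comm]
  have h5 : ‖((∑ x, G (par x) x : ℝ) : ℂ) * 2 ^ (Fintype.card Λ)‖ =
      (∑ x, G (par x) x) * 2 ^ (Fintype.card Λ) := by
    rw [norm_mul, Complex.norm_real, norm_pow, Complex.norm_ofNat, Real.norm_of_nonneg]
    exact sum_nonneg (fun x _ => hG0 _ x)
  rw [← h5, h1]
  refine (norm_sum_le _ _).trans ?_
  have h6 : ∀ R : Finset Λ, ‖∑ z : Λ → ZMod 2, (∏ l ∈ R, sg (z l)) *
        ∑ x, (G z x : ℂ) * ∏ l ∈ R, sg (par x l)‖ ≤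
      if Small R then (Fintype.card X : ℝ) else 0 := by
    intro R
    by_cases hR : Small R
    · rw [if_pos hR]
      refine (norm_sum_le _ _).trans ?_
      have h7 : ∀ z : Λ → ZMod 2, ‖(∏ l ∈ R, sg (z l)) *
          ∑ x, (G z x : ℂ) * ∏ l ∈ R, sg (par x l)‖ ≤ ∑ x, G z x := by
        intro z
        rw [norm_mul, norm_prod, prod_eq_one (fun l _ => norm_sg (z l)), one_mul]
        refine (norm_sum_le _ _).trans ?_
        apply sum_le_sum
        intro x _
        rw [norm_mul, norm_prod, prod_eq_one (fun l _ => norm_sg _), mul_one, Complex.norm_real,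
          Real.norm_of_nonneg (hG0 z x)]
      refine (sum_le_sum (fun z _ => h7 z)).trans ?_
      rw [sum_comm]
      refine (sum_le_sum (fun x _ => hG1 x)).trans ?_
      simp
    · rw [if_neg hR]
      have : ∀ z : Λ → ZMod 2, (∏ l ∈ R, sg (z l)) *
          ∑ x, (G z x : ℂ) * ∏ l ∈ R, sg (par x l) = 0 := by
        intro z
        rw [hbig R hR z, mul_zero]
      simp [this]
  refine (sum_le_sum (fun R _ => h6 R)).trans ?_
  rw [← sum_filter, sum_const, nsmul_eq_mul]

/-- the number of sets that meet few rows -/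
lemma card_small (t n k : ℕ) : (univ.filter (fun R : Finset (Fin t × Fin n) =>
    (R.image Prod.snd).card ≤ k)).card ≤ 2 ^ (n + t * k) := by
  have h1 : (univ.filter (fun R : Finset (Fin t × Fin n) => (R.image Prod.snd).card ≤ k)) ⊆
      (univ.filter (fun S : Finset (Fin n) => S.card ≤ k)).biUnion
        (fun S => ((univ : Finset (Fin t)) ×ˢ S).powerset) := by
    intro R hR
    rw [mem_biUnion]
    refine ⟨R.image Prod.snd, ?_, ?_⟩
    · rw [mem_filter] at hR ⊢
      exact ⟨mem_univ _, hR.2⟩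
    · rw [mem_powerset]
      intro l hl
      rw [mem_product]
      exact ⟨mem_univ _, mem_image_of_mem _ hl⟩
  refine (card_le_card h1).trans (card_biUnion_le.trans ?_)
  calc ∑ S ∈ univ.filter (fun S : Finset (Fin n) => S.card ≤ k),
        (((univ : Finset (Fin t)) ×ˢ S).powerset).card ≤
      ∑ S ∈ univ.filter (fun S : Finset (Fin n) => S.card ≤ k), 2 ^ (t * k) := by
        apply sum_le_sum
        intro S hS
        rw [card_powerset, card_product, card_univ, Fintype.card_fin]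
        exact Nat.pow_le_pow_right (by norm_num) (Nat.mul_le_mul_left _ (mem_filter.1 hS).2)
    _ ≤ ∑ _S : Finset (Fin n), 2 ^ (t * k) :=
        sum_le_sum_of_subset (filter_subset _ _)
    _ = 2 ^ (n + t * k) := by
        rw [sum_const, card_univ, Fintype.card_finset, Fintype.card_fin, smul_eq_mul, pow_add]

variable {n : ℕ}

/-- the earlier products -/
def Yx (G : (Mat n)ˣ) (B : Fin n → (Mat n)ˣ) (ρ : Restr (Fin n × Fin n)) (h : List (Vec n))
    (x : Fin n × Fin n → Bool) : List (Vec n) := h.map (toM G B (ov ρ x)).mulVec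

/-- every few columns can be avoided -/
def Av (B : Fin n → (Mat n)ˣ) (ρ : Restr (Fin n × Fin n)) (h : List (Vec n)) {t : ℕ}
    (vs : Fin t → Vec n) (D0 : ℕ) (j : Fin t) (r : Fin n) : Prop :=
  ∀ D : Finset (Fin n), D.card < D0 → ∃ u : Fin n → Bool,
    (∀ c, u c = true → ρ (r, c) = none) ∧ (∀ c, u c = true → c ∉ D) ∧
    (∀ z ∈ h, dz u ((↑(B r)⁻¹ : Mat n).mulVec z) = 0) ∧
    (∀ i < j, dz u ((↑(B r)⁻¹ : Mat n).mulVec (vs i)) = 0) ∧
    dz u ((↑(B r)⁻¹ : Mat n).mulVec (vs j)) = 1

lemma exists_light {t : ℕ} (T : Finset (Fin n × Fin n)) (R : Finset (Fin t × Fin n)) {D D0 k : ℕ}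
    (hT : T.card ≤ D) (hD : D < (k + 1) * D0) (hR : ¬ (R.image Prod.snd).card ≤ k) :
    ∃ r ∈ R.image Prod.snd, ((T.filter (fun e => e.1 = r)).image Prod.snd).card < D0 := by
  by_contra hc
  push Not at hc
  have h1 : ∑ r ∈ R.image Prod.snd, D0 ≤ ∑ r ∈ R.image Prod.snd, (T.filter (fun e => e.1 = r)).card :=
    sum_le_sum (fun r hr => (hc r hr).trans card_image_le)
  rw [sum_const, smul_eq_mul] at h1
  have h2 : ∑ r ∈ R.image Prod.snd, (T.filter (fun e => e.1 = r)).card ≤ T.card := by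
    rw [card_eq_sum_card_fiberwise (f := Prod.fst) (s := T) (t := univ)
      (fun _ _ => mem_coe.2 (mem_univ _))]
    exact sum_le_sum_of_subset (subset_univ _)
  have h3 : (k + 1) * D0 ≤ (R.image Prod.snd).card * D0 := Nat.mul_le_mul_right _ (by omega)
  omega

lemma vanish_jun (G : (Mat n)ˣ) (B : Fin n → (Mat n)ˣ) (ρ : Restr (Fin n × Fin n))
    (h : List (Vec n)) {t : ℕ} (vs : Fin t → Vec n) {D D0 k : ℕ} (hD : D < (k + 1) * D0)
    (hav : ∀ j r, Av B ρ h vs D0 j r) (R : Finset (Fin t × Fin n))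
    (hR : ¬ (R.image Prod.snd).card ≤ k) (y : List (Vec n)) (f : (Fin n × Fin n → Bool) → ℂ)
    (T : Finset (Fin n × Fin n)) (hT : T.card ≤ D)
    (hf : ∀ x x' : Fin n × Fin n → Bool, (∀ i ∈ T, x i = x' i) → f x = f x') :
    ∑ x, (if Yx G B ρ h x = y then (1 : ℂ) else 0) *
      (f x * ∏ l ∈ R, sg (gm B (ov ρ x) (vs l.1) l.2)) = 0 := by
  classical
  obtain ⟨r, hr, hlight⟩ := exists_light T R hT hD hR
  -- the last vector of the row
  obtain ⟨j, hj, hjmax⟩ : ∃ j : Fin t, (j, r) ∈ R ∧ ∀ i, (i, r) ∈ R → i ≤ j := by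
    have hne : (univ.filter (fun j : Fin t => (j, r) ∈ R)).Nonempty := by
      obtain ⟨l, hl, hlr⟩ := mem_image.1 hr
      refine ⟨l.1, mem_filter.2 ⟨mem_univ _, ?_⟩⟩
      rw [← hlr]
      exact hl
    obtain ⟨j, hj, hmax⟩ := exists_max_image _ id hne
    refine ⟨j, (mem_filter.1 hj).2, fun i hi => hmax i (mem_filter.2 ⟨mem_univ _, hi⟩)⟩
  obtain ⟨u, hu1, hu2, hu3, hu4, hu5⟩ := hav j r _ hlight
  let uu : Fin n → Fin n → Bool := fun r' c => decide (r' = r) && u c
  have huur : uu r = u := by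
    funext c
    simp [uu]
  have huu0 : ∀ r', r' ≠ r → uu r' = fun _ => false := by
    intro r' hr'
    funext c
    simp [uu, hr']
  have hz0 : ∀ z : Vec n, dz (fun _ => false) z = 0 := by
    intro z
    unfold dz
    simp
  have huρ : ∀ r' c, uu r' c = true → ρ (r', c) = none := by
    intro r' c hc
    by_cases hr' : r' = r
    · subst hr'
      rw [huur] at hc
      exact hu1 c hc
    · rw [huu0 r' hr'] at hc
      cases hc
  have hgm : ∀ x z r', gm B (ov ρ (flp uu x)) z r' = gm B (ov ρ x) z r' +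
      dz (uu r') ((↑(B r')⁻¹ : Mat n).mulVec z) := fun x z r' => gm_flp B ρ uu huρ x z r'
  have hY : ∀ x, Yx G B ρ h (flp uu x) = Yx G B ρ h x := by
    intro x
    unfold Yx
    apply List.map_congr_left
    intro z hz
    rw [toM_mulVec, toM_mulVec]
    congr 1
    funext r'
    rw [hgm]
    by_cases hr' : r' = r
    · subst hr'
      rw [huur, hu3 z hz, add_zero]
    · rw [huu0 r' hr', hz0, add_zero]
  have hfx : ∀ x, f (flp uu x) = f x := by
    intro x
    apply hf
    intro e he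
    unfold flp
    rw [if_neg]
    intro hc
    by_cases hr' : e.1 = r
    · have h1 : uu e.1 e.2 = u e.2 := by rw [hr', huur]
      rw [h1] at hc
      apply hu2 e.2 hc
      rw [mem_image]
      exact ⟨e, mem_filter.2 ⟨he, hr'⟩, rfl⟩
    · rw [huu0 _ hr'] at hc
      cases hc
  have hprod : ∀ x, ∏ l ∈ R, sg (gm B (ov ρ (flp uu x)) (vs l.1) l.2) =
      (∏ l ∈ R, sg (gm B (ov ρ x) (vs l.1) l.2)) * (-1) := by
    intro x
    have h1 : ∀ l ∈ R, sg (gm B (ov ρ (flp uu x)) (vs l.1) l.2) =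
        sg (gm B (ov ρ x) (vs l.1) l.2) * (if l = (j, r) then -1 else 1) := by
      intro l hl
      rw [hgm]
      by_cases hlj : l = (j, r)
      · rw [if_pos hlj, hlj]
        show sg (gm B (ov ρ x) (vs j) r + dz (uu r) ((↑(B r)⁻¹ : Mat n).mulVec (vs j))) = _
        rw [huur, hu5, sg_add_one]
      · rw [if_neg hlj, mul_one]
        by_cases hr' : l.2 = r
        · have hlt : l.1 < j := by
            have h2 : l.1 ≤ j := by
              apply hjmax
              rw [← hr']
              exact hl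
            refine lt_of_le_of_ne h2 ?_
            intro h3
            exact hlj (Prod.ext h3 hr')
          rw [hr', huur, hu4 l.1 hlt, add_zero]
        · rw [huu0 _ hr', hz0, add_zero]
    rw [prod_congr rfl h1, prod_mul_distrib, prod_ite_eq', if_pos hj]
  set F : (Fin n × Fin n → Bool) → ℂ := fun x => (if Yx G B ρ h x = y then (1 : ℂ) else 0) *
      (f x * ∏ l ∈ R, sg (gm B (ov ρ x) (vs l.1) l.2)) with hF
  have hFx : ∀ x, F (flp uu x) = - F x := by
    intro x
    simp only [hF]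
    rw [hY, hfx, hprod]
    ring
  let σ : (Fin n × Fin n → Bool) ≃ (Fin n × Fin n → Bool) :=
    ⟨flp uu, flp uu, fun x => flp_flp uu x, fun x => flp_flp uu x⟩
  have h1 : ∑ x, F x = ∑ x, F (flp uu x) := (Equiv.sum_comp σ F).symm
  have h2 : ∑ x, F (flp uu x) = - ∑ x, F x := by
    rw [← sum_neg_distrib]
    exact sum_congr rfl (fun x _ => hFx x)
  have h3 : ∑ x, F x = - ∑ x, F x := h1.trans h2
  have h4 : (2 : ℂ) * ∑ x, F x = 0 := by
    rw [two_mul]
    nth_rewrite 2 [h3]
    ring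
  rcases mul_eq_zero.1 h4 with h5 | h5
  · norm_num at h5
  · exact h5

lemma vanish (G : (Mat n)ˣ) (B : Fin n → (Mat n)ˣ) (ρ : Restr (Fin n × Fin n))
    (h : List (Vec n)) {t : ℕ} (vs : Fin t → Vec n) {D D0 k : ℕ} (hD : D < (k + 1) * D0)
    (hav : ∀ j r, Av B ρ h vs D0 j r) (R : Finset (Fin t × Fin n))
    (hR : ¬ (R.image Prod.snd).card ≤ k) (F : List (Vec n) → (Fin n × Fin n → Bool) → ℂ)
    (hF : ∀ y, F y ∈ Dg (Fin n × Fin n) D) :
    ∑ x, F (Yx G B ρ h x) x * ∏ l ∈ R, sg (gm B (ov ρ x) (vs l.1) l.2) = 0 := by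
  classical
  have h1 : ∀ y, ∀ f ∈ Dg (Fin n × Fin n) D, ∑ x, (if Yx G B ρ h x = y then (1 : ℂ) else 0) *
      (f x * ∏ l ∈ R, sg (gm B (ov ρ x) (vs l.1) l.2)) = 0 := by
    intro y f hf
    unfold Dg at hf
    induction hf using Submodule.span_induction with
    | mem f hf =>
      obtain ⟨T, hT, hf⟩ := hf
      exact vanish_jun G B ρ h vs hD hav R hR y f T hT hf
    | zero => simp
    | add f g _ _ hf hg =>
      have := congrArg₂ (· + ·) hf hg
      simp only [add_zero] at this
      rw [← sum_add_distrib] at this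
      refine Eq.trans ?_ this
      apply sum_congr rfl
      intro x _
      simp only [Pi.add_apply]
      ring
    | smul c f _ hf =>
      have := congrArg (fun z => c * z) hf
      simp only [mul_zero] at this
      rw [mul_sum] at this
      refine Eq.trans ?_ this
      apply sum_congr rfl
      intro x _
      simp only [Pi.smul_apply, smul_eq_mul]
      ring
  have h2 : ∀ x, F (Yx G B ρ h x) x * ∏ l ∈ R, sg (gm B (ov ρ x) (vs l.1) l.2) =
      ∑ y ∈ univ.image (Yx G B ρ h), (if Yx G B ρ h x = y then (1 : ℂ) else 0) *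
      (F y x * ∏ l ∈ R, sg (gm B (ov ρ x) (vs l.1) l.2)) := by
    intro x
    rw [Finset.sum_eq_single (Yx G B ρ h x)]
    · rw [if_pos rfl, one_mul]
    · intro y _ hy
      rw [if_neg (Ne.symm hy), zero_mul]
    · intro hc
      exact absurd (mem_image_of_mem _ (mem_univ x)) hc
  rw [sum_congr rfl (fun x _ => h2 x), sum_comm]
  exact sum_eq_zero (fun y _ => h1 y (F y) (hF y))

end Pool.Agent.Helper81x.QP
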