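import Pool.Agent.Helper81x.QP.Model

/-!
# Memory computed by circuits of constant depth
-/

set_option autoImplicit false

namespace Pool.Agent.Helper81x.QP

open Pool.Agent.H699R2.OMV (Vec Mat)
open Pool.Agent.TH163.AC2 (coord)

/-- A circuit with inputs `x i`, `i : I`, and `s` nodes. `val v x` is the bit at the node `v`. An
element `(u, b)` of a set `J` of wires is a wire from the node `u`, and it is true if the bit at `u`
is `b` (so negations are free). Every node is a constant, an input, or a gate of one of the
following kinds: an arbitrary gate with at most `m` wires (its value is a function of the set of its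
true wires), an AND gate, an OR gate. The depth grows along the wires and is at most `d`. -/
structure Circ (I : Type) (m s d : ℕ) where
  val : Fin s → (I → Bool) → Bool
  depth : Fin s → ℕ
  depth_le : ∀ v, depth v ≤ d
  rule : ∀ v : Fin s, (∃ b, ∀ x, val v x = b) ∨ (∃ i, ∀ x, val v x = x i) ∨
    ∃ J : Finset (Fin s × Bool), (∀ u ∈ J, depth u.1 < depth v) ∧
      ((J.card ≤ m ∧ ∃ F : Finset (Fin s × Bool) → Bool,
          ∀ x, val v x = F (J.filter fun u => val u.1 x = u.2)) ∨
        (∀ x, val v x = decide (∀ u ∈ J, val u.1 x = u.2)) ∨
        (∀ x, val v x = decide (∃ u ∈ J, val u.1 x = u.2)))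

/-- For given coins and earlier vectors there are coordinates (invertible matrices `G` and `B r`; the
bit `(r, j)` of `M` in these coordinates is the entry `(r, j)` of `G * M * B r`) such that, for each
value `y` of the side information, there is a circuit with `s` nodes of depth at most `d`, with
AND and OR gates and arbitrary gates with at most `m` wires, whose input is given by the
`n * n` bits of the matrix, and every bit of the memory is computed at a node of this circuit, on
all matrices with this side information. -/
def Alg.CircuitLE {n : ℕ} {Ω A : Type} {w e : ℕ} {P : Type} (alg : Alg n Ω A w e P)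
    (m s d : ℕ) : Prop :=
  ∀ (ω : Ω) (h : List (Vec n)), ∃ (G : (Mat n)ˣ) (B : Fin n → (Mat n)ˣ), ∀ y : Fin e → Bool,
    ∃ (C : Circ (Fin n × Fin n) m s d) (node : A → Fin w → Fin s), ∀ M a i,
      alg.adv ω h M = y → alg.mem ω h M a i = C.val (node a i) (coord G B M)

end Pool.Agent.Helper81x.QP
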