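import Pool.Agent.Y603.MS.Multi2
import Pool.Agent.Helper81x.QP.ModelC

/-!
# Circuits of constant depth under random restrictions

(the same proof as in the starting file `Pool/Agent/Y603/MS/Level.lean`, for an arbitrary finite set
of input bits)
-/

set_option autoImplicit false

namespace Pool.Agent.Helper81x.QP

open Finset H568R2 Pool.Agent.TH163.AC3 Pool.Agent.Y603.MS

variable {I : Type}

variable [DecidableEq I]

lemma dt_pt {s : ℕ} {f : (I → Bool) → Bool} (h : HasDT s f) (x : I → Bool) :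
    ∃ A : Finset I, A.card ≤ s ∧ ∀ y, (∀ i ∈ A, y i = x i) → f y = f x := by
  obtain ⟨t, ht, he⟩ := h
  exact ⟨t.reads x, (t.card_reads x).trans ht, fun y hy => by
    rw [← he y, (t.congr x y hy).1, he x]⟩

/-- Inputs have shallow trees. -/
lemma dt_input {ℓ : ℕ} (hℓ : 1 ≤ ℓ) (ρ : Restr I) (i : I) :
    HasDT ℓ (rs (fun x => x i) ρ) := by
  cases hρ : ρ i with
  | none =>
    refine ⟨TH163.AC3.Tree.node i (TH163.AC3.Tree.leaf false) (TH163.AC3.Tree.leaf true), ?_, ?_⟩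
    · unfold TH163.AC3.Tree.depth
      simp only [TH163.AC3.Tree.depth]
      omega
    · intro x
      have h1 : rs (fun x : I → Bool => x i) ρ x = x i := by
        show ov ρ x i = x i
        unfold ov
        rw [hρ]
        rfl
      rw [h1]
      unfold TH163.AC3.Tree.eval
      rcases hx : x i with _ | _
      · simp [TH163.AC3.Tree.eval]
      · simp [TH163.AC3.Tree.eval]
  | some b =>
    apply hasDT_const b
    intro x
    show ov ρ x i = b
    unfold ov
    rw [hρ]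
    rfl

variable {m s d : ℕ}

lemma circ_cert (C : Circ I m s d) (v : Fin s) {ℓ : ℕ} (hℓ : 1 ≤ ℓ) (hw : 1 ≤ m) {ρ : Restr I}
    (hρ : ∀ u, C.depth u < C.depth v → HasDT ℓ (rs (C.val u) ρ)) :
    ∃ b, Cert (m * ℓ) b (rs (C.val v) ρ) := by
  classical
  have hlw : ℓ ≤ m * ℓ := Nat.le_mul_of_pos_left _ hw
  have cmono : ∀ {K K' : ℕ} {b : Bool} {f : (I → Bool) → Bool}, Cert K b f → K ≤ K' →
      Cert K' b f := by
    intro K K' b f h hK x hx
    obtain ⟨A, hA, hy⟩ := h x hx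
    exact ⟨A, hA.trans hK, hy⟩
  rcases C.rule v with ⟨b, hb⟩ | ⟨i, hi⟩ | ⟨J, hJ, ⟨hJw, F, hF⟩ | hF | hF⟩
  · exact ⟨b, fun x _ => ⟨∅, by simp, fun y _ => hb _⟩⟩
  · refine ⟨true, cmono (HasDT.cert ?_ true) hlw⟩
    have : C.val v = fun x => x i := funext hi
    rw [this]
    exact dt_input hℓ ρ i
  · refine ⟨true, fun x hx => ?_⟩
    have h1 : ∀ u : Fin s × Bool, ∃ A : Finset I, A.card ≤ ℓ ∧
        (u ∈ J → ∀ y, (∀ i ∈ A, y i = x i) → rs (C.val u.1) ρ y = rs (C.val u.1) ρ x) := by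
      intro u
      by_cases hu : u ∈ J
      · obtain ⟨A, hA1, hA2⟩ := dt_pt (hρ u.1 (hJ u hu)) x
        exact ⟨A, hA1, fun _ => hA2⟩
      · exact ⟨∅, by simp, fun h => absurd h hu⟩
    choose A hA1 hA2 using h1
    refine ⟨J.biUnion A, ?_, fun y hy => ?_⟩
    · refine Finset.card_biUnion_le.trans ?_
      refine (Finset.sum_le_card_nsmul _ _ _ fun u _ => hA1 u).trans ?_
      rw [smul_eq_mul]
      exact Nat.mul_le_mul_right _ hJw
    · rw [← hx]
      unfold rs
      rw [hF, hF]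
      congr 1
      refine Finset.filter_congr fun u hu => ?_
      have := hA2 u hu y fun i hi => hy i (Finset.mem_biUnion.2 ⟨u, hu, hi⟩)
      unfold rs at this
      rw [this]
  · refine ⟨false, fun x hx => ?_⟩
    unfold rs at hx
    rw [hF, decide_eq_false_iff_not] at hx
    push Not at hx
    obtain ⟨u, hu, hux⟩ := hx
    obtain ⟨A, hA1, hA2⟩ := dt_pt (hρ u.1 (hJ u hu)) x
    refine ⟨A, hA1.trans hlw, fun y hy => ?_⟩
    unfold rs
    rw [hF, decide_eq_false_iff_not]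
    intro hall
    apply hux
    have h3 := hA2 y hy
    unfold rs at h3
    rw [← h3]
    exact hall u hu
  · refine ⟨true, fun x hx => ?_⟩
    unfold rs at hx
    rw [hF, decide_eq_true_iff] at hx
    obtain ⟨u, hu, hux⟩ := hx
    obtain ⟨A, hA1, hA2⟩ := dt_pt (hρ u.1 (hJ u hu)) x
    refine ⟨A, hA1.trans hlw, fun y hy => ?_⟩
    unfold rs
    rw [hF, decide_eq_true_iff]
    have h3 := hA2 y hy
    unfold rs at h3
    exact ⟨u, hu, h3.trans hux⟩

lemma circ_zero (C : Circ I m s d) (v : Fin s) (hv : C.depth v = 0) {ℓ : ℕ} (hℓ : 1 ≤ ℓ)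
    (ρ : Restr I) : HasDT ℓ (rs (C.val v) ρ) := by
  classical
  rcases C.rule v with ⟨b, hb⟩ | ⟨i, hi⟩ | ⟨J, hJ, h⟩
  · exact hasDT_const b (fun x => hb _) ℓ
  · have : C.val v = fun x => x i := funext hi
    rw [this]
    exact dt_input hℓ ρ i
  · have hJe : J = ∅ := by
      rw [Finset.eq_empty_iff_forall_notMem]
      intro u hu
      have := hJ u hu
      omega
    subst hJe
    rcases h with ⟨_, F, hF⟩ | hF | hF
    · refine hasDT_const (F ∅) (fun x => ?_) ℓ
      show C.val v _ = _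
      rw [hF, Finset.filter_empty]
    · refine hasDT_const true (fun x => ?_) ℓ
      show C.val v _ = _
      rw [hF]; simp
    · refine hasDT_const false (fun x => ?_) ℓ
      show C.val v _ = _
      rw [hF]; simp

open Classical in
/-- All the nodes of depth at most `j` under a random restriction. -/
theorem levels [Fintype I] (C : Circ I m s d)
    {ℓ : ℕ} (hℓ : 1 ≤ ℓ) (hw : 1 ≤ m) (hs : s ≤ 2 ^ ℓ) {q : ℝ} (h0 : 0 ≤ q)
    (h1 : q ≤ 1 / 3) (h2 : 96 * (m * ℓ : ℕ) * q ≤ 1 / 2) {t : ℕ} (ht : 1 ≤ t) (j : ℕ) :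
    Ex (wq (q ^ j)) (fun ρ : Restr I => if ¬ Dt (fun ρ' => ∀ v, C.depth v ≤ j →
      HasDT ℓ (rs (C.val v) ρ')) (j * t) ρ then (1 : ℝ) else 0) ≤
      2 ^ (j * t) * (2 * (96 * (m * ℓ : ℕ) * q) ^ (t + 1)) := by
  set δ : ℝ := 2 * (96 * (m * ℓ : ℕ) * q) ^ (t + 1) with hδ
  have hδ0 : 0 ≤ δ := by positivity
  induction j with
  | zero =>
    have hgood : ∀ ρ : Restr I, Dt (fun ρ' => ∀ v, C.depth v ≤ 0 →
        HasDT ℓ (rs (C.val v) ρ')) (0 * t) ρ := fun ρ =>
      Dt.leaf _ _ fun v hv => circ_zero C v (by omega) hℓ ρ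
    have : ∀ ρ : Restr I, (if ¬ Dt (fun ρ' => ∀ v, C.depth v ≤ 0 →
        HasDT ℓ (rs (C.val v) ρ')) (0 * t) ρ then (1 : ℝ) else 0) = 0 := fun ρ => by
      rw [if_neg (not_not.2 (hgood ρ))]
    simp only [this]
    unfold Ex
    simp only [mul_zero, Finset.sum_const_zero]
    positivity
  | succ j ih =>
    rw [pow_succ q j, wq_cmp]
    have hwj : ∀ a, 0 ≤ wq (q ^ j) a :=
      wq_nonneg (pow_nonneg h0 j) (pow_le_one₀ h0 (by linarith))
    have hw1 : ∀ a, 0 ≤ wq q a := wq_nonneg h0 (by linarith)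
    have hstep : ∀ ρ : Restr I, (∀ v, C.depth v ≤ j → HasDT ℓ (rs (C.val v) ρ)) →
        Ex (wq q) (fun τ : Restr I => if ¬ Dt (fun ρ' => ∀ v, C.depth v ≤ j + 1 →
          HasDT ℓ (rs (C.val v) ρ')) t (cmp ρ τ) then (1 : ℝ) else 0) ≤ δ := by
      intro ρ hρ
      have hms := multi_switching (ι := {v : Fin s // C.depth v ≤ j + 1}) (k := m * ℓ) (ℓ := ℓ)
        (F := fun v => rs (C.val v.1) ρ) (fun v => circ_cert C v.1 hℓ hw
          (fun u hu => hρ u (by have := v.2; omega))) (by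
            refine (Fintype.card_subtype_le _).trans ?_
            rwa [Fintype.card_fin]) h0 h1 h2 t
      refine le_trans (Ex_mono hw1 fun τ => ?_) hms
      by_cases hd : Dt (fun ρ' => ∀ v : {v : Fin s // C.depth v ≤ j + 1},
          HasDT ℓ (rs (rs (C.val v.1) ρ) ρ')) t τ
      · have : Dt (fun ρ' => ∀ v, C.depth v ≤ j + 1 → HasDT ℓ (rs (C.val v) ρ')) t (cmp ρ τ) := by
          refine Dt.cmp_right ρ (fun τ' h v hv => ?_) hd
          have := h ⟨v, hv⟩
          rwa [← rs_cmp] at this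
        rw [if_neg (not_not.2 this)]
        split_ifs <;> norm_num
      · rw [if_pos hd]
        split_ifs <;> norm_num
    have hin : ∀ ρ : Restr I, Ex (wq q) (fun τ : Restr I =>
        if ¬ Dt (fun ρ' => ∀ v, C.depth v ≤ j + 1 → HasDT ℓ (rs (C.val v) ρ')) ((j + 1) * t)
          (cmp ρ τ) then (1 : ℝ) else 0) ≤
        (if ¬ Dt (fun ρ' => ∀ v, C.depth v ≤ j → HasDT ℓ (rs (C.val v) ρ')) (j * t) ρ then (1 : ℝ)
          else 0) + 2 ^ (j * t) * δ := by
      intro ρ
      by_cases hG : Dt (fun ρ' => ∀ v, C.depth v ≤ j → HasDT ℓ (rs (C.val v) ρ')) (j * t) ρ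
      · rw [if_neg (not_not.2 hG), zero_add, show (j + 1) * t = j * t + t by ring]
        exact Ex_leaves h0 (by linarith) hδ0 hstep hG
      · rw [if_pos hG]
        have h3 : Ex (wq q) (fun τ : Restr I => if ¬ Dt (fun ρ' => ∀ v, C.depth v ≤ j + 1 →
            HasDT ℓ (rs (C.val v) ρ')) ((j + 1) * t) (cmp ρ τ) then (1 : ℝ) else 0) ≤
            Ex (wq q) (fun _ : Restr I => (1 : ℝ)) := by
          apply Ex_mono hw1
          intro τ
          split_ifs <;> norm_num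
        rw [Ex_const (wq_sum q)] at h3
        have : 0 ≤ 2 ^ (j * t) * δ := by positivity
        linarith
    refine (Ex_mono hwj hin).trans ?_
    rw [Ex_add, Ex_const (wq_sum (q ^ j))]
    have h4 : (2 : ℝ) ^ ((j + 1) * t) * δ = 2 ^ t * (2 ^ (j * t) * δ) := by
      rw [show (j + 1) * t = t + j * t by ring, pow_add]; ring
    have h5 : (2 : ℝ) ≤ 2 ^ t := by
      calc (2 : ℝ) = 2 ^ 1 := by norm_num
        _ ≤ 2 ^ t := pow_le_pow_right₀ (by norm_num) ht
    have h6 : 0 ≤ 2 ^ (j * t) * δ := by positivity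
    rw [h4]
    nlinarith

end Pool.Agent.Helper81x.QP
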