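import Pool.Agent.Helper81x.QP.Core
import Pool.Agent.Helper81x.QP.Approx

/-!
# Memory of bounded degree
-/

set_option autoImplicit false

namespace Pool.Agent.Helper81x.QP

open Finset H568R2
open Pool.Agent.TH163.AC2 (toM coord coord_toM unif unif_mono unif_smul unif_sum unif_add mavg
  mavg_eq)
open Pool.Agent.H699R2.OMV (Prog Vec Mat IsProb before avg)

variable {n e : ℕ} {Ω A : Type} {w : ℕ}

/-- the error term -/
noncomputable def bet (n e : ℕ) : ℝ :=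
  n * (2 ^ (n / 4 + tt n e) * (8 ^ (n / 16) * (9 / 8) ^ n)) / 2 ^ n +
      2 ^ (n / 4 + n / 4) / 2 ^ n

lemma tt_pos (n e : ℕ) : 1 ≤ tt n e := Nat.le_add_left _ _

lemma ov_none (x : Fin n × Fin n → Bool) : ov (fun _ : Fin n × Fin n => (none : Option Bool)) x = x :=
  rfl

/-- The bound for given coins and earlier vectors. -/
lemma one_vec (hn : 128 ≤ n) (G : (Mat n)ˣ) (B : Fin n → (Mat n)ˣ) (h : List (Vec n))
    (hh : h.length < n / 4 + 1) (adv : Mat n → Fin e → Bool) {E : ℕ}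
    (hE : tt n e * E < (n / 4 + 1) * (n / 16))
    (pr : (Fin e → Bool) → List (Vec n) → Vec n → Vec n → (Fin n × Fin n → Bool) → ℝ)
    (hpr : ∀ a y v, IsRunX E (pr a y v)) (right cost : Vec n → Mat n → ℝ) (N c δ : ℝ) (hN : 0 ≤ N)
    (hpt : ∀ v x, N * right v (toM G B x) ≤ 2 * N * pr (adv (toM G B x))
      (h.map (toM G B x).mulVec) v ((toM G B x).mulVec v) x +
        (N * δ + c * cost v (toM G B x))) :
    (2 : ℝ) ^ n * (-(N * (2 * bet n e + δ))) ≤
      ∑ v, (c * mavg (cost v) - N * mavg (right v)) := by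
  have hdeg : ∀ a y (vs o : Fin (tt n e) → Vec n),
      (fun x => ∏ j, ((pr a y (vs j) (o j) x : ℝ) : ℂ)) ∈ Dg (Fin n × Fin n) (tt n e * E) := by
    intro a y vs o
    have h3 := Dg.prod (univ : Finset (Fin (tt n e))) (fun j x => ((pr a y (vs j) (o j) x : ℝ) : ℂ))
      (fun _ => E) (fun j _ => (hpr a y (vs j)).deg (o j))
    rw [sum_const, card_univ, Fintype.card_fin, smul_eq_mul] at h3
    exact h3
  have h1 := one_restr G B (fun _ => none) h (t := tt n e) (tt_pos n e) hE pr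
    (fun a y v => (hpr a y v).nonneg) (fun a y v => (hpr a y v).sum_le) hdeg
    (tt_mul hn) (n / 4 + tt n e) (by omega)
    (n * (2 ^ (n / 4 + tt n e) * (8 ^ (n / 16) * (9 / 8) ^ n)) / 2 ^ n) (by
      intro l hl
      rw [div_mul_cancel₀ _ (by positivity)]
      refine (card_bad B l (n / 16)).trans ?_
      have : (2 : ℝ) ^ l.length ≤ 2 ^ (n / 4 + tt n e) := pow_le_pow_right₀ (by norm_num) hl
      gcongr) (fun x => adv (toM G B x))
  have h2 : ∑ v, N * mavg (right v) ≤ 2 * N * (2 ^ n * bet n e) +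
      (2 ^ n * (N * δ) + ∑ v, c * mavg (cost v)) := by
    have h3 : ∀ v : Vec n, N * mavg (right v) ≤ 2 * N * unif (fun x => pr (adv (toM G B x))
        (h.map (toM G B x).mulVec) v ((toM G B x).mulVec v) x) +
        (N * δ + c * mavg (cost v)) := by
      intro v
      have e1 : N * δ = unif (fun _ : Fin n × Fin n → Bool => N * δ) :=
        (Pool.Agent.TH163.AC2.unif_const _).symm
      rw [mavg_eq G B (right v), mavg_eq G B (cost v), ← unif_smul, ← unif_smul, ← unif_smul,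
        e1, ← unif_add, ← unif_add]
      exact unif_mono (hpt v)
    refine (sum_le_sum (fun v _ => h3 v)).trans ?_
    rw [sum_add_distrib, sum_add_distrib]
    have e2 : ∑ _v : Vec n, N * δ = 2 ^ n * (N * δ) := by
      rw [sum_const, card_univ, nsmul_eq_mul, card_vec]
    rw [e2]
    apply add_le_add_left
    rw [← mul_sum]
    apply mul_le_mul_of_nonneg_left _ (by positivity)
    have h4 : ∑ v : Vec n, unif (fun x => pr (adv (toM G B x))
        (h.map (toM G B x).mulVec) v ((toM G B x).mulVec v) x) =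
        2 ^ n * unif (fun x => (∑ v : Vec n, pr (adv (toM G B x))
        (h.map (toM G B x).mulVec) v ((toM G B x).mulVec v) x) / 2 ^ n) := by
      rw [← unif_sum, ← unif_smul]
      congr 1
      funext x
      rw [mul_div_cancel₀]
      positivity
    rw [h4]
    exact mul_le_mul_of_nonneg_left h1 (by positivity)
  rw [sum_sub_distrib]
  linarith

lemma Nat_short {t D N : ℕ} (ht : 1 ≤ t) (h : t * D < N) : D ≤ (N - 1) / t := by
  rw [Nat.le_div_iff_mul_le (by omega), mul_comm]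
  omega

lemma Nat_E {t N : ℕ} (hN : 1 ≤ N) : t * ((N - 1) / t) < N := by
  have := Nat.mul_div_le (N - 1) t
  omega

lemma N_pos (hn : 128 ≤ n) : 1 ≤ (n / 4 + 1) * (n / 16) :=
  Nat.mul_pos (by omega) (by omega)

lemma N_le (hn : 128 ≤ n) : 62 * ((n / 4 + 1) * (n / 16)) ≤ n ^ 2 := by
  have h1 : 124 * (n / 4 + 1) ≤ 32 * n := by omega
  have h2 : 16 * (n / 16) ≤ n := by omega
  have h3 := Nat.mul_le_mul h1 h2
  nlinarith

lemma f_deg {G : (Mat n)ˣ} {B : Fin n → (Mat n)ˣ} {d : ℕ} {f : Mat n → A → Fin w → ℝ} {a : A}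
    {i : Fin w}
    (h : ∃ p : MvPolynomial (Fin n × Fin n) ℝ, p.totalDegree ≤ d ∧
      ∀ M : Mat n, MvPolynomial.eval (fun c => bitR (coord G B M c)) p = f M a i) :
    (fun x => ((f (toM G B x) a i : ℝ) : ℂ)) ∈ Dg (Fin n × Fin n) d := by
  obtain ⟨p, hp, hpe⟩ := h
  have h1 := Dg.poly p hp
  convert h1 using 1
  funext x
  rw [← hpe, coord_toM]
  rfl

lemma one_vec_q (hn : 128 ≤ n) {d : ℕ} (hd1 : 1 ≤ d) {ε : ℝ} (hε : 0 ≤ ε)
    (alg : Alg n Ω A w e (QProg A w (Vec n)))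
    (hd : alg.ApproxLE d ε) (ω : Ω) (h : List (Vec n)) (hh : h.length < n / 4 + 1) :
    (2 : ℝ) ^ n * (-((((n / 4 + 1) * (n / 16) : ℕ) : ℝ) * (2 * bet n e + ε ^ 2 * n ^ 4 / 4))) ≤
      ∑ v, (((tt n e * (2 * w * d) : ℕ) : ℝ) * mavg (fun M =>
        ((alg.prog ω h (h.map M.mulVec) (alg.adv ω h M) v).T : ℝ)) -
        (((n / 4 + 1) * (n / 16) : ℕ) : ℝ) * mavg (fun M =>
        (alg.prog ω h (h.map M.mulVec) (alg.adv ω h M) v).prob (alg.mem ω h M) (M.mulVec v))) := by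
  classical
  obtain ⟨G, B, f, hmem, hf⟩ := hd ω h
  have ht : 1 ≤ tt n e := tt_pos n e
  have hN62 := N_le hn
  set N : ℕ := (n / 4 + 1) * (n / 16) with hN
  refine one_vec hn G B h hh (alg.adv ω h) (E := (N - 1) / tt n e) (Nat_E (N_pos hn))
    (fun a y v o x => if tt n e * (2 * (alg.prog ω h y a v).T * w * d) < N then
      (alg.prog ω h y a v).probF (f a (toM G B x)) o else 0) ?_
    (fun v M => (alg.prog ω h (h.map M.mulVec) (alg.adv ω h M) v).prob (alg.mem ω h M) (M.mulVec v))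
    (fun v M => ((alg.prog ω h (h.map M.mulVec) (alg.adv ω h M) v).T : ℝ))
    _ _ _ (Nat.cast_nonneg _) ?_
  · intro a y v
    by_cases hs : tt n e * (2 * (alg.prog ω h y a v).T * w * d) < N
    · simp only [if_pos hs]
      have h1 := (alg.prog ω h y a v).isRunX (fun x => f a (toM G B x)) (d := d)
        (fun x a' i => (hf a a' i).1 _) (fun a' i => f_deg (hf a a' i).2)
      exact ⟨h1.nonneg, h1.sum_le, fun o => Dg.mono (Nat_short ht hs) (h1.deg o)⟩
    · simp only [if_neg hs]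
      exact IsRunX.zero _
  · intro v x
    set M := toM G B x with hM
    set P := alg.prog ω h (h.map M.mulVec) (alg.adv ω h M) v with hP
    have hr1 : P.prob (alg.mem ω h M) (M.mulVec v) ≤ 1 :=
      (single_le_sum (fun o _ => P.isRun.nonneg o _) (mem_univ _)).trans (P.isRun.sum_le _)
    have h4 : (0 : ℝ) ≤ N := Nat.cast_nonneg _
    by_cases hs : tt n e * (2 * P.T * w * d) < N
    · rw [if_pos hs]
      have h6 := P.prob_le (fun a i => (hf (alg.adv ω h M) a i).1 M) hε (hmem M) (M.mulVec v)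
      have h7 : (0 : ℝ) ≤ ((tt n e * (2 * w * d) : ℕ) : ℝ) * (P.T : ℝ) := by positivity
      have h8 : 2 * P.T * w ≤ N := by
        have h9 : 2 * P.T * w * 1 ≤ 2 * P.T * w * d := Nat.mul_le_mul_left _ hd1
        have h10 : 1 * (2 * P.T * w * d) ≤ tt n e * (2 * P.T * w * d) := Nat.mul_le_mul_right _ ht
        omega
      have h11 : 62 * ((P.T : ℝ) * (w * (2 * ε))) ≤ n ^ 2 * ε := by
        have h12 : 62 * (2 * P.T * w) ≤ n ^ 2 := (Nat.mul_le_mul_left 62 h8).trans hN62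
        have h13 : (62 : ℝ) * (2 * P.T * w) ≤ n ^ 2 := by exact_mod_cast h12
        have h14 := mul_le_mul_of_nonneg_right h13 hε
        linarith
      have h15 : 0 ≤ (P.T : ℝ) * (w * (2 * ε)) := by positivity
      have h16 : 2 * ((P.T : ℝ) * (w * (2 * ε))) ^ 2 ≤ ε ^ 2 * n ^ 4 / 4 := by
        have h17 := pow_le_pow_left₀ (by positivity) h11 2
        nlinarith
      have h18 := mul_le_mul_of_nonneg_left (h6.trans (add_le_add_right h16 _)) h4
      linarith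
    · rw [if_neg hs, mul_zero, zero_add]
      have h1 : (N : ℝ) ≤ ((tt n e * (2 * w * d) : ℕ) : ℝ) * (P.T : ℝ) := by
        have h2 : N ≤ tt n e * (2 * w * d) * P.T := by
          have h3 : tt n e * (2 * w * d) * P.T = tt n e * (2 * P.T * w * d) := by ring
          rw [h3]
          exact not_lt.1 hs
        exact_mod_cast h2
      have h5 := mul_le_mul_of_nonneg_left hr1 h4
      have h6 : 0 ≤ (N : ℝ) * (ε ^ 2 * n ^ 4 / 4) := by positivity
      linarith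

lemma one_vec_c (hn : 128 ≤ n) {d : ℕ} (hd1 : 1 ≤ d) (hw1 : 1 ≤ w) {ε : ℝ} (hε : 0 ≤ ε)
    (hε1 : ε * n ^ 2 ≤ 1) (alg : Alg n Ω A w e (Prog A (Fin w → Bool) (Vec n)))
    (hd : alg.ApproxLE d ε) (ω : Ω) (h : List (Vec n)) (hh : h.length < n / 4 + 1) :
    (2 : ℝ) ^ n * (-((((n / 4 + 1) * (n / 16) : ℕ) : ℝ) * (2 * bet n e + 0))) ≤
      ∑ v, (((tt n e * (w * d) : ℕ) : ℝ) * mavg (fun M =>
        (((alg.prog ω h (h.map M.mulVec) (alg.adv ω h M) v).addrs (alg.mem ω h M)).length : ℝ)) -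
        (((n / 4 + 1) * (n / 16) : ℕ) : ℝ) * mavg (fun M =>
        if (alg.prog ω h (h.map M.mulVec) (alg.adv ω h M) v).out (alg.mem ω h M) = M.mulVec v
          then (1 : ℝ) else 0)) := by
  classical
  obtain ⟨G, B, f, hmem, hf⟩ := hd ω h
  have ht : 1 ≤ tt n e := tt_pos n e
  have hN62 := N_le hn
  set N : ℕ := (n / 4 + 1) * (n / 16) with hN
  have hN1 : 1 ≤ N := N_pos hn
  have hc1 : 1 ≤ tt n e * (w * d) := Nat.mul_pos ht (Nat.mul_pos hw1 hd1)
  obtain ⟨τ, hτ⟩ : ∃ τ, τ = (N - 1) / (tt n e * (w * d)) := ⟨_, rfl⟩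
  have hτ1 : tt n e * (w * d) * τ ≤ N - 1 := by
    rw [hτ]
    exact Nat.mul_div_le _ _
  have hτ2 : ∀ l, ¬ l ≤ τ → N ≤ tt n e * (w * d) * l := by
    intro l hl
    by_contra hc
    apply hl
    rw [hτ]
    exact Nat_short hc1 (by omega)
  have hwτ : w * τ ≤ N := by
    have h1 : w * 1 ≤ w * d := Nat.mul_le_mul_left _ hd1
    have h2 : 1 * (w * d) ≤ tt n e * (w * d) := Nat.mul_le_mul_right _ ht
    have h3 : w * τ ≤ tt n e * (w * d) * τ := Nat.mul_le_mul_right _ (by omega)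
    omega
  have hn2 : (1 : ℝ) ≤ (n : ℝ) ^ 2 := by
    have : (1 : ℝ) ≤ n := by exact_mod_cast (by omega : 1 ≤ n)
    exact one_le_pow₀ this
  have hε2 : ε ≤ 1 := by nlinarith
  have hhalf : (1 / 2 : ℝ) ≤ (1 - ε) ^ (w * τ) := by
    have h1 := one_add_mul_le_pow (a := -ε) (by linarith) (w * τ)
    have h2 : (62 : ℝ) * ((w * τ : ℕ) : ℝ) ≤ n ^ 2 := by
      exact_mod_cast (Nat.mul_le_mul_left 62 hwτ).trans hN62
    have h3 := mul_le_mul_of_nonneg_right h2 hε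
    rw [← sub_eq_add_neg] at h1
    refine le_trans ?_ h1
    linarith
  refine one_vec hn G B h hh (alg.adv ω h) (E := (N - 1) / tt n e) (Nat_E hN1)
    (fun a y v o x => apr (f a (toM G B x)) o (alg.prog ω h y a v) τ) ?_
    (fun v M => if (alg.prog ω h (h.map M.mulVec) (alg.adv ω h M) v).out (alg.mem ω h M) =
      M.mulVec v then (1 : ℝ) else 0)
    (fun v M => (((alg.prog ω h (h.map M.mulVec) (alg.adv ω h M) v).addrs
      (alg.mem ω h M)).length : ℝ)) _ _ _ (Nat.cast_nonneg _) ?_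
  · intro a y v
    refine ⟨fun o x => apr_nonneg (fun a' i => (hf a a' i).1 _) o _ τ,
      fun x => apr_sum (fun a' i => (hf a a' i).1 _) _ τ, fun o => Dg.mono ?_
      (apr_deg (fun x => f a (toM G B x)) (fun a' i => f_deg (hf a a' i).2) o _ τ)⟩
    rw [Nat.le_div_iff_mul_le (by omega)]
    calc τ * (w * d) * tt n e = tt n e * (w * d) * τ := by ring
      _ ≤ N - 1 := hτ1
  · intro v x
    set M := toM G B x with hM
    set P := alg.prog ω h (h.map M.mulVec) (alg.adv ω h M) v with hP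
    have h4 : (0 : ℝ) ≤ N := Nat.cast_nonneg _
    have h5 : (0 : ℝ) ≤ ((tt n e * (w * d) : ℕ) : ℝ) * ((P.addrs (alg.mem ω h M)).length : ℝ) := by
      positivity
    have h6 : 0 ≤ apr (f (alg.adv ω h M) M) (M.mulVec v) P τ :=
      apr_nonneg (fun a' i => (hf _ a' i).1 _) _ _ τ
    have h7 : 0 ≤ 2 * (N : ℝ) * apr (f (alg.adv ω h M) M) (M.mulVec v) P τ := by positivity
    by_cases h1 : P.out (alg.mem ω h M) = M.mulVec v
    · by_cases h2 : (P.addrs (alg.mem ω h M)).length ≤ τ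
      · have h8 := apr_ge (fun a' i => (hf (alg.adv ω h M) a' i).1 M) hε hε2 (hmem M) (M.mulVec v)
          P τ h2 h1
        rw [if_pos h1]
        have h9 := mul_le_mul_of_nonneg_left (hhalf.trans h8) h4
        linarith
      · rw [if_pos h1, mul_one]
        have h8 : (N : ℝ) ≤ ((tt n e * (w * d) : ℕ) : ℝ) *
            ((P.addrs (alg.mem ω h M)).length : ℝ) := by
          exact_mod_cast hτ2 _ h2
        linarith
    · rw [if_neg h1, mul_zero]
      linarith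

lemma final_num (hn : 128 ≤ n) (he : 64 * e ≤ n ^ 2) {γ T δ : ℝ} {c0 : ℕ} (hT : 0 ≤ T)
    (hγ : 1 / 2 ^ (n / 10) ≤ γ) (hδ : δ ≤ γ / 4)
    (h : ((n / 4 + 1 : ℕ) : ℝ) * ((((n / 4 + 1) * (n / 16) : ℕ) : ℝ) *
      (γ - (2 * bet n e + δ))) ≤ ((tt n e * c0 : ℕ) : ℝ) * T) :
    γ * (n : ℝ) ^ 4 ≤ 3500 * (e + n) * c0 * T := by
  have hγ0 : 0 < γ := lt_of_lt_of_le (by positivity) hγ
  have h1 : bet n e ≤ γ / 8 := beta_le hn he hγ
  have h2 : ((n / 4 + 1 : ℕ) : ℝ) * ((((n / 4 + 1) * (n / 16) : ℕ) : ℝ) * (γ / 2)) ≤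
      ((tt n e * c0 : ℕ) : ℝ) * T := by
    refine le_trans ?_ h
    gcongr
    linarith
  have h3 : n ^ 3 ≤ 288 * ((n / 4 + 1) * ((n / 4 + 1) * (n / 16))) := by
    have a1 : n ≤ 4 * (n / 4 + 1) := by omega
    have a2 : n ≤ 18 * (n / 16) := by omega
    calc n ^ 3 = n * n * n := by ring
      _ ≤ (4 * (n / 4 + 1)) * (4 * (n / 4 + 1)) * (18 * (n / 16)) :=
          Nat.mul_le_mul (Nat.mul_le_mul a1 a1) a2
      _ = _ := by ring
  have h3' : (n : ℝ) ^ 3 ≤ 288 * (((n / 4 + 1 : ℕ) : ℝ) * (((n / 4 + 1) * (n / 16) : ℕ) : ℝ)) := by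
    exact_mod_cast h3
  have h4 : ((tt n e : ℕ) : ℝ) * n ≤ 6 * (e + n) := by
    have := tt_n hn he
    exact_mod_cast this
  have h5 : γ * (n : ℝ) ^ 3 ≤ 576 * (((tt n e * c0 : ℕ) : ℝ) * T) := by
    calc γ * (n : ℝ) ^ 3 ≤ γ * (288 * (((n / 4 + 1 : ℕ) : ℝ) *
          (((n / 4 + 1) * (n / 16) : ℕ) : ℝ))) := mul_le_mul_of_nonneg_left h3' hγ0.le
      _ = 576 * (((n / 4 + 1 : ℕ) : ℝ) * ((((n / 4 + 1) * (n / 16) : ℕ) : ℝ) * (γ / 2))) := by ring
      _ ≤ _ := mul_le_mul_of_nonneg_left h2 (by norm_num)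
  have hn0 : (0 : ℝ) ≤ n := Nat.cast_nonneg n
  have hc0 : (0 : ℝ) ≤ (c0 : ℝ) * T := by positivity
  calc γ * (n : ℝ) ^ 4 = (γ * (n : ℝ) ^ 3) * n := by ring
    _ ≤ (576 * (((tt n e * c0 : ℕ) : ℝ) * T)) * n := mul_le_mul_of_nonneg_right h5 hn0
    _ = 576 * (((tt n e : ℕ) : ℝ) * n) * (c0 * T) := by push_cast; ring
    _ ≤ 576 * (6 * (e + n)) * (c0 * T) := by gcongr
    _ ≤ 3500 * (e + n) * c0 * T := by
        have : (0 : ℝ) ≤ (e + n) * (c0 * T) := by positivity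
        nlinarith

lemma avg_nonneg' {F : Mat n → (Fin n → Vec n) → ℝ} (h : ∀ M vs, 0 ≤ F M vs) : 0 ≤ avg F := by
  unfold avg
  exact div_nonneg (sum_nonneg fun M _ => sum_nonneg fun vs _ => h M vs) (by positivity)

theorem quantum [Fintype Ω] (hn : 128 ≤ n) {d : ℕ} (hd1 : 1 ≤ d) (he : 64 * e ≤ n ^ 2)
    (μ : Ω → ℝ) (hμ : IsProb μ) {γ ε : ℝ} (hγ : 1 / 2 ^ (n / 10) ≤ γ) (hε : 0 ≤ ε)
    (hε2 : ε ^ 2 * n ^ 4 ≤ γ) (alg : Alg n Ω A w e (QProg A w (Vec n))) (hd : alg.ApproxLE d ε)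
    (hR : alg.QRight μ γ) : γ * (n : ℝ) ^ 4 ≤ 7000 * (e + n) * (d * w) * alg.QProbes μ := by
  have h1 := avg_core μ hμ (fun ω h v M =>
      (alg.prog ω h (h.map M.mulVec) (alg.adv ω h M) v).prob (alg.mem ω h M) (M.mulVec v))
    (fun ω h v M => ((alg.prog ω h (h.map M.mulVec) (alg.adv ω h M) v).T : ℝ))
    (fun ω h v M => Nat.cast_nonneg _) (Nat.cast_nonneg ((n / 4 + 1) * (n / 16)))
    (Nat.cast_nonneg (tt n e * (2 * w * d))) (n / 4 + 1) (by omega)
    (fun ω h hh => one_vec_q hn hd1 hε alg hd ω h hh) hR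
  have hT : 0 ≤ alg.QProbes μ := avg_nonneg' fun M vs => sum_nonneg fun ω _ =>
    mul_nonneg (hμ.nonneg ω) (sum_nonneg fun q _ => Nat.cast_nonneg _)
  have h2 := final_num hn he (T := alg.QProbes μ) hT hγ (by linarith) h1
  refine h2.trans (le_of_eq ?_)
  push_cast
  ring

theorem classical' [Fintype Ω] (hn : 128 ≤ n) {d : ℕ} (hd1 : 1 ≤ d) (hw1 : 1 ≤ w)
    (he : 64 * e ≤ n ^ 2)
    (μ : Ω → ℝ) (hμ : IsProb μ) {γ ε : ℝ} (hγ : 1 / 2 ^ (n / 10) ≤ γ) (hε : 0 ≤ ε)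
    (hε2 : ε * n ^ 2 ≤ 1) (alg : Alg n Ω A w e (Prog A (Fin w → Bool) (Vec n)))
    (hd : alg.ApproxLE d ε)
    (hR : alg.CRight μ γ) : γ * (n : ℝ) ^ 4 ≤ 3500 * (e + n) * (d * w) * alg.CProbes μ := by
  have h1 := avg_core μ hμ (fun ω h v M =>
      if (alg.prog ω h (h.map M.mulVec) (alg.adv ω h M) v).out (alg.mem ω h M) = M.mulVec v
        then (1 : ℝ) else 0)
    (fun ω h v M => (((alg.prog ω h (h.map M.mulVec) (alg.adv ω h M) v).addrs
      (alg.mem ω h M)).length : ℝ))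
    (fun ω h v M => Nat.cast_nonneg _) (Nat.cast_nonneg ((n / 4 + 1) * (n / 16)))
    (Nat.cast_nonneg (tt n e * (w * d))) (n / 4 + 1) (by omega)
    (fun ω h hh => one_vec_c hn hd1 hw1 hε hε2 alg hd ω h hh) hR
  have hT : 0 ≤ alg.CProbes μ := avg_nonneg' fun M vs => sum_nonneg fun ω _ =>
    mul_nonneg (hμ.nonneg ω) (sum_nonneg fun q _ => Nat.cast_nonneg _)
  have hγ0 : 0 < γ := lt_of_lt_of_le (by positivity) hγ
  have h2 := final_num hn he (T := alg.CProbes μ) hT hγ (by linarith) h1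
  refine h2.trans (le_of_eq ?_)
  push_cast
  ring

end Pool.Agent.Helper81x.QP
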