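import Pool.Agent.Helper81x.QP.RestrAvg
import Pool.Agent.TH163.AC3.Final

/-!
# Memory of constant depth with side information
-/

set_option autoImplicit false

namespace Pool.Agent.Helper81x.QP

open Finset H568R2 Pool.Agent.Y603.MS
open Pool.Agent.TH163.AC2 (toM coord coord_toM unif unif_mono unif_smul unif_sum unif_add mavg
  mavg_eq)
open Pool.Agent.TH163.AC3 (few_term HasDT)
open Pool.Agent.H699R2.OMV (Prog Vec Mat IsProb before avg)

variable {n e : ℕ} {Ω A : Type} {w : ℕ}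

/-- the factor for one level -/
def LL (m ℓ d : ℕ) : ℕ := 384 * (m * ℓ) * 2 ^ d

/-- the number of the free bits of a row -/
def ss (n m ℓ d : ℕ) : ℕ := n / (4 * LL m ℓ d ^ d)

/-- the parameters are good -/
structure Par (n e m ℓ d : ℕ) : Prop where
  m1 : 1 ≤ m
  l1 : 1 ≤ ℓ
  nl : n ≤ 2 ^ ℓ
  big : 16 * (e + n) * LL m ℓ d ^ (d + 1) ≤ n ^ 2
  pos : 1 ≤ n

namespace Par

variable {m ℓ d : ℕ}

lemma L384 (P : Par n e m ℓ d) : 384 * ℓ * 2 ^ d ≤ LL m ℓ d := by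
  unfold LL
  have h1 : 384 * ℓ ≤ 384 * (m * ℓ) := Nat.mul_le_mul_left _ (Nat.le_mul_of_pos_left _ P.m1)
  exact Nat.mul_le_mul_right _ h1

lemma Lpos (P : Par n e m ℓ d) : 384 * ℓ ≤ LL m ℓ d :=
  (Nat.le_mul_of_pos_right _ (by positivity)).trans P.L384

lemma Ld (P : Par n e m ℓ d) : 384 * d ≤ LL m ℓ d := by
  have h1 : d ≤ 2 ^ d := Nat.lt_two_pow_self.le
  have h2 : 1 * 2 ^ d ≤ ℓ * 2 ^ d := Nat.mul_le_mul_right _ P.l1
  have h3 := P.L384
  nlinarith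

lemma s0_mul (_P : Par n e m ℓ d) : ss n m ℓ d * (4 * LL m ℓ d ^ d) ≤ n :=
  Nat.div_mul_le_self _ _

lemma Ldpos (P : Par n e m ℓ d) : 0 < LL m ℓ d ^ d := by
  have := P.Lpos
  have := P.l1
  exact Nat.pow_pos (by omega)

lemma n_lt (P : Par n e m ℓ d) : n < (ss n m ℓ d + 1) * (4 * LL m ℓ d ^ d) := by
  have h := Nat.lt_div_mul_add (a := n) (b := 4 * LL m ℓ d ^ d) (by have := P.Ldpos; omega)
  unfold ss
  linarith

lemma key (P : Par n e m ℓ d) : 4 * (e + n) * LL m ℓ d ≤ n * (ss n m ℓ d + 1) := by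
  have h1 := P.n_lt
  have h2 := P.big
  have h3 : 4 * (e + n) * LL m ℓ d * (4 * LL m ℓ d ^ d) ≤
      n * (ss n m ℓ d + 1) * (4 * LL m ℓ d ^ d) := by
    calc 4 * (e + n) * LL m ℓ d * (4 * LL m ℓ d ^ d) = 16 * (e + n) * LL m ℓ d ^ (d + 1) := by
          rw [pow_succ]; ring
      _ ≤ n ^ 2 := h2
      _ = n * n := by ring
      _ ≤ n * ((ss n m ℓ d + 1) * (4 * LL m ℓ d ^ d)) := Nat.mul_le_mul_left _ h1.le
      _ = _ := by ring
  exact Nat.le_of_mul_le_mul_right h3 (by have := P.Ldpos; omega)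

lemma s0_big (P : Par n e m ℓ d) : 1536 * ℓ ≤ ss n m ℓ d + 1 := by
  have h1 := P.key
  have h2 := P.Lpos
  have h3 : n * (1536 * ℓ) ≤ n * (ss n m ℓ d + 1) := by
    calc n * (1536 * ℓ) = 4 * n * (384 * ℓ) := by ring
      _ ≤ 4 * (e + n) * LL m ℓ d := Nat.mul_le_mul (by omega) h2
      _ ≤ _ := h1
  exact Nat.le_of_mul_le_mul_left h3 (by have := P.pos; omega)

lemma s0_n (P : Par n e m ℓ d) : 4 * ss n m ℓ d ≤ n := by
  have h1 := P.s0_mul
  have h2 := P.Ldpos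
  have h3 : ss n m ℓ d * 4 ≤ ss n m ℓ d * (4 * LL m ℓ d ^ d) :=
    Nat.mul_le_mul_left _ (by omega)
  omega

lemma n_big (P : Par n e m ℓ d) : 6000 ≤ n := by
  have h1 := P.s0_big
  have h2 := P.s0_n
  have h3 := P.l1
  omega

lemma e_le (P : Par n e m ℓ d) : 1536 * (e + n) ≤ n * (ss n m ℓ d + 1) := by
  have h1 := P.key
  have h2 := P.Lpos
  have h3 := P.l1
  have h4 : 4 * (e + n) * 384 ≤ 4 * (e + n) * LL m ℓ d := Nat.mul_le_mul_left _ (by omega)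
  omega

lemma de_le (P : Par n e m ℓ d) : 1536 * (d * (e + n)) ≤ n * (ss n m ℓ d + 1) := by
  have h1 := P.key
  have h2 := P.Ld
  have h4 : 4 * (e + n) * (384 * d) ≤ 4 * (e + n) * LL m ℓ d := Nat.mul_le_mul_left _ h2
  have h5 : 4 * (e + n) * (384 * d) = 1536 * (d * (e + n)) := by ring
  omega

lemma tt_small (P : Par n e m ℓ d) : tt n e ≤ ss n m ℓ d / 16 + 1 := by
  unfold tt
  have h1 := P.e_le
  have h2 := P.n_big
  apply Nat.add_le_add_right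
  rw [← Nat.lt_succ_iff, Nat.div_lt_iff_lt_mul (by omega)]
  obtain ⟨a, ha⟩ : ∃ a, a = ss n m ℓ d / 16 := ⟨_, rfl⟩
  obtain ⟨b, hb⟩ : ∃ b, b = n / 4 := ⟨_, rfl⟩
  rw [← ha, ← hb]
  have h3 : ss n m ℓ d + 1 ≤ 16 * (a + 1) := by omega
  have h4 : n ≤ 8 * b := by omega
  have h5 : n * (ss n m ℓ d + 1) ≤ (8 * b) * (16 * (a + 1)) := Nat.mul_le_mul h4 h3
  have h6 : (8 * b) * (16 * (a + 1)) = 128 * ((a + 1) * b) := by ring
  show e + n < (a + 1) * b
  omega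

lemma tt_n (P : Par n e m ℓ d) : tt n e * n ≤ 6 * (e + n) := by
  have h1 := P.tt_small
  have h0 := P.s0_n
  have hn := P.n_big
  obtain ⟨s, hs⟩ : ∃ s, s = n / 4 := ⟨_, rfl⟩
  have h2 : tt n e * s ≤ (e + n) + s := by
    unfold tt
    rw [← hs, add_mul, one_mul]
    exact Nat.add_le_add_right (Nat.div_mul_le_self _ _) _
  have h3 : n ≤ 4 * s + 3 := by omega
  calc tt n e * n ≤ tt n e * (4 * s + 3) := Nat.mul_le_mul_left _ h3
    _ = 4 * (tt n e * s) + 3 * tt n e := by ring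
    _ ≤ 6 * (e + n) := by omega

/-- the threshold for the degree -/
lemma N0_le (P : Par n e m ℓ d) :
    n * (ss n m ℓ d + 1) ≤ 128 * ((n / 4 + 1) * (ss n m ℓ d / 16)) := by
  have h1 := P.s0_big
  have h2 := P.l1
  have h3 : n ≤ 4 * (n / 4 + 1) := by omega
  have h4 : ss n m ℓ d + 1 ≤ 32 * (ss n m ℓ d / 16) := by omega
  have h5 := Nat.mul_le_mul h3 h4
  calc n * (ss n m ℓ d + 1) ≤ 4 * (n / 4 + 1) * (32 * (ss n m ℓ d / 16)) := h5
    _ = _ := by ring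

lemma Q_le (P : Par n e m ℓ d) : ss n m ℓ d / 4 + 1 ≤ n := by
  have h1 := P.s0_n
  have h2 := P.n_big
  omega

end Par

/-- the depth of the common trees -/
def at' (n e d : ℕ) : ℕ := d * (e + n)

/-- what remains for the degree -/
def NN (n e m ℓ d : ℕ) : ℕ := (n / 4 + 1) * (ss n m ℓ d / 16) - at' n e d

namespace Par

variable {m ℓ d : ℕ}

lemma at_le (P : Par n e m ℓ d) : 12 * at' n e d ≤ (n / 4 + 1) * (ss n m ℓ d / 16) := by
  have h1 := P.N0_le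
  have h2 := P.de_le
  unfold at'
  omega

lemma NN_ge (P : Par n e m ℓ d) : n * (ss n m ℓ d + 1) ≤ 256 * NN n e m ℓ d := by
  have h1 := P.at_le
  have h2 := P.N0_le
  unfold NN
  omega

lemma NN_pos (P : Par n e m ℓ d) : 1 ≤ NN n e m ℓ d := by
  have h1 := P.NN_ge
  have h2 : 1 ≤ n * (ss n m ℓ d + 1) := Nat.mul_pos P.pos (Nat.succ_pos _)
  omega

lemma deg_ok (P : Par n e m ℓ d) : at' n e d + tt n e * ((NN n e m ℓ d - 1) / tt n e) <
    (n / 4 + 1) * (ss n m ℓ d / 16) := by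
  have h1 := P.NN_pos
  have h2 := Nat.mul_div_le (NN n e m ℓ d - 1) (tt n e)
  have h3 := P.at_le
  unfold NN at *
  omega

end Par

/-- the error term -/
noncomputable def betC (n e m ℓ d : ℕ) : ℝ :=
  n * (2 ^ (ss n m ℓ d / 4 + tt n e) * (8 ^ (ss n m ℓ d / 16) * (9 / 16) ^ ss n m ℓ d)) +
    2 ^ (n / 4 + n / 4) / 2 ^ n +
    (2 ^ e * (1 / 2 ^ (2 * (e + n))) +
      n * (2 ^ ss n m ℓ d * (1 - (1 / (LL m ℓ d : ℝ)) ^ d / 2) ^ n))

lemma betC_le {m ℓ d : ℕ} (P : Par n e m ℓ d) {γ : ℝ}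
    (hγ : 1 / 2 ^ (n / (40 * LL m ℓ d ^ d)) ≤ γ) : betC n e m ℓ d ≤ γ / 2 := by
  have hL0 : (0 : ℝ) < (LL m ℓ d : ℝ) := by
    have := P.Lpos
    have := P.l1
    exact_mod_cast (by omega : 0 < LL m ℓ d)
  obtain ⟨s0, hs0⟩ : ∃ s0, s0 = ss n m ℓ d := ⟨_, rfl⟩
  have e1 : n / (40 * LL m ℓ d ^ d) = s0 / 10 := by
    rw [hs0]
    unfold ss
    rw [Nat.div_div_eq_div_mul]
    congr 1
    ring
  rw [e1] at hγ
  have hs1 := P.s0_big
  have hl := P.l1
  have hs2 := P.s0_n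
  have ht := P.tt_small
  have hn := P.n_big
  unfold betC
  rw [← hs0] at hs1 hs2 ht ⊢
  have hnl : (n : ℝ) ≤ 2 ^ ℓ := by exact_mod_cast P.nl
  have t1 : (n : ℝ) * (2 ^ (s0 / 4 + tt n e) * (8 ^ (s0 / 16) * (9 / 16) ^ s0)) ≤
      (1 / 2 ^ (s0 / 10)) / 64 := by
    have h1 : (9 / 16 : ℝ) ^ s0 ≤ 1 / 2 ^ (4 * (s0 / 5)) := by
      have h2 : (9 / 16 : ℝ) ^ s0 ≤ (9 / 16) ^ (5 * (s0 / 5)) :=
        pow_le_pow_of_le_one (by norm_num) (by norm_num) (by omega)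
      refine h2.trans ?_
      rw [pow_mul, pow_mul, ← one_div_pow]
      exact pow_le_pow_left₀ (by positivity) (by norm_num) _
    have h5 : (8 : ℝ) ^ (s0 / 16) = 2 ^ (3 * (s0 / 16)) := by
      rw [pow_mul]
      norm_num
    have h6 : (2 : ℝ) ^ (s0 / 4 + tt n e) ≤ 2 ^ (s0 / 4 + (s0 / 16 + 1)) :=
      pow_le_pow_right₀ (by norm_num) (by omega)
    calc (n : ℝ) * (2 ^ (s0 / 4 + tt n e) * (8 ^ (s0 / 16) * (9 / 16) ^ s0)) ≤
        2 ^ ℓ * (2 ^ (s0 / 4 + (s0 / 16 + 1)) * (2 ^ (3 * (s0 / 16)) *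
          (1 / 2 ^ (4 * (s0 / 5))))) := by
          rw [h5]
          gcongr
      _ = 2 ^ (ℓ + (s0 / 4 + (s0 / 16 + 1)) + 3 * (s0 / 16)) / 2 ^ (4 * (s0 / 5)) := by
          rw [pow_add, pow_add]
          ring
      _ ≤ _ := by
          rw [div_div, div_le_div_iff₀ (by positivity) (by positivity), one_mul]
          have h7 : (64 : ℝ) = 2 ^ 6 := by norm_num
          rw [h7, ← pow_add, ← pow_add]
          exact pow_le_pow_right₀ (by norm_num) (by omega)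
  have t2 : (2 : ℝ) ^ (n / 4 + n / 4) / 2 ^ n ≤ (1 / 2 ^ (s0 / 10)) / 64 := by
    rw [div_div, div_le_div_iff₀ (by positivity) (by positivity), one_mul]
    have h7 : (64 : ℝ) = 2 ^ 6 := by norm_num
    rw [h7, ← pow_add, ← pow_add]
    exact pow_le_pow_right₀ (by norm_num) (by omega)
  have t3 : (2 : ℝ) ^ e * (1 / 2 ^ (2 * (e + n))) ≤ (1 / 2 ^ (s0 / 10)) / 64 := by
    rw [mul_one_div, div_div, div_le_div_iff₀ (by positivity) (by positivity), one_mul]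
    have h7 : (64 : ℝ) = 2 ^ 6 := by norm_num
    rw [h7, ← pow_add, ← pow_add]
    exact pow_le_pow_right₀ (by norm_num) (by omega)
  have hp1 : (1 / (LL m ℓ d : ℝ)) ^ d ≤ 1 := by
    apply pow_le_one₀ (by positivity)
    rw [div_le_one hL0]
    have := P.Lpos
    exact_mod_cast (by omega : 1 ≤ LL m ℓ d)
  have t4 : (n : ℝ) * (2 ^ s0 * (1 - (1 / (LL m ℓ d : ℝ)) ^ d / 2) ^ n) ≤
      (1 / 2 ^ (s0 / 10)) / 64 := by
    have h1 : 4 * (s0 : ℝ) ≤ n * (1 / (LL m ℓ d : ℝ)) ^ d := by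
      have h2 : (s0 : ℝ) * (4 * (LL m ℓ d : ℝ) ^ d) ≤ n := by
        rw [hs0]
        exact_mod_cast P.s0_mul
      rw [one_div, inv_pow, ← div_eq_mul_inv, le_div_iff₀ (by positivity)]
      linarith
    have h3 := few_term hp1 h1
    calc (n : ℝ) * (2 ^ s0 * (1 - (1 / (LL m ℓ d : ℝ)) ^ d / 2) ^ n) ≤ 2 ^ ℓ * (1 / 2 ^ s0) := by
          apply mul_le_mul hnl h3 _ (by positivity)
          apply mul_nonneg (by positivity)
          apply pow_nonneg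
          linarith
      _ = 2 ^ ℓ / 2 ^ s0 := by ring
      _ ≤ _ := by
          rw [div_div, div_le_div_iff₀ (by positivity) (by positivity), one_mul]
          have h7 : (64 : ℝ) = 2 ^ 6 := by norm_num
          rw [h7, ← pow_add, ← pow_add]
          exact pow_le_pow_right₀ (by norm_num) (by omega)
  have hx : (0 : ℝ) ≤ 1 / 2 ^ (s0 / 10) := by positivity
  linarith

/-- the trees for one value of the side information -/
def QC {m s d : ℕ} (C : Circ (Fin n × Fin n) m s d) (ℓ : ℕ) (ρ : Restr (Fin n × Fin n)) : Prop :=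
  ∀ v, C.depth v ≤ d → HasDT ℓ (rs (C.val v) ρ)

open Classical in
lemma bad_c {m ℓ d s : ℕ} (P : Par n e m ℓ d) (hs : s ≤ 2 ^ ℓ)
    (C : Circ (Fin n × Fin n) m s d) :
    Ex (wq ((1 / (LL m ℓ d : ℝ)) ^ d)) (fun ρ : Restr (Fin n × Fin n) =>
      if ¬ Dt (QC C ℓ) (at' n e d) ρ then (1 : ℝ) else 0) ≤ 1 / 2 ^ (2 * (e + n)) := by
  have hL1 : 384 ≤ LL m ℓ d := by
    have := P.Lpos
    have := P.l1
    omega
  have hL0 : (0 : ℝ) < (LL m ℓ d : ℝ) := by exact_mod_cast (by omega : 0 < LL m ℓ d)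
  have hq : 96 * (m * ℓ : ℕ) * (1 / (LL m ℓ d : ℝ)) = 1 / 2 ^ (d + 2) := by
    have h1 : (LL m ℓ d : ℝ) = 96 * (m * ℓ : ℕ) * 2 ^ (d + 2) := by
      unfold LL
      push_cast
      ring
    have h2 : (0 : ℝ) < 96 * (m * ℓ : ℕ) := by
      have h3 : 0 < m * ℓ := Nat.mul_pos P.m1 P.l1
      have h4 : (0 : ℝ) < ((m * ℓ : ℕ) : ℝ) := by exact_mod_cast h3
      linarith
    rw [h1, one_div, mul_inv, ← mul_assoc, mul_inv_cancel₀ h2.ne', one_mul, one_div]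
  have h1 : (1 / (LL m ℓ d : ℝ)) ≤ 1 / 3 := by
    apply one_div_le_one_div_of_le (by norm_num)
    exact_mod_cast (by omega : 3 ≤ LL m ℓ d)
  have h2 : 96 * (m * ℓ : ℕ) * (1 / (LL m ℓ d : ℝ)) ≤ 1 / 2 := by
    rw [hq]
    apply one_div_le_one_div_of_le (by norm_num)
    calc (2 : ℝ) = 2 ^ 1 := by norm_num
      _ ≤ 2 ^ (d + 2) := pow_le_pow_right₀ (by norm_num) (by omega)
  have h3 := levels C P.l1 P.m1 hs (q := 1 / (LL m ℓ d : ℝ)) (by positivity) h1 h2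
    (t := e + n) (by have := P.pos; omega) d
  refine h3.trans ?_
  rw [hq, one_div_pow, ← mul_assoc, mul_one_div, ← pow_mul, ← pow_succ,
    div_le_div_iff₀ (by positivity) (by positivity), one_mul, ← pow_add]
  apply pow_le_pow_right₀ (by norm_num)
  have h4 : (d + 2) * (e + n + 1) = d * (e + n) + 2 * (e + n) + (d + 2) := by ring
  omega

/-- The bound for given coins and earlier vectors. -/
lemma one_vecC {m ℓ d s : ℕ} (P : Par n e m ℓ d) (hs : s ≤ 2 ^ ℓ)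
    (G : (Mat n)ˣ) (B : Fin n → (Mat n)ˣ) (C : (Fin e → Bool) → Circ (Fin n × Fin n) m s d)
    (h : List (Vec n)) (hh : h.length < ss n m ℓ d / 4 + 1) (adv : Mat n → Fin e → Bool)
    (pr : (Fin e → Bool) → List (Vec n) → Vec n → Vec n → (Fin n × Fin n → Bool) → ℝ)
    (hpr0 : ∀ a y v o x, 0 ≤ pr a y v o x) (hpr1 : ∀ a y v x, ∑ o, pr a y v o x ≤ 1)
    (hleaf : ∀ a ρ, QC (C a) ℓ ρ → ∀ y v o,
      (fun x => ((pr a y v o (ov ρ x) : ℝ) : ℂ)) ∈
        Dg (Fin n × Fin n) ((NN n e m ℓ d - 1) / tt n e))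
    (right cost : Vec n → Mat n → ℝ) (N c : ℝ) (hN : 0 ≤ N)
    (hpt : ∀ v x, N * right v (toM G B x) ≤ N * pr (adv (toM G B x)) (h.map (toM G B x).mulVec) v
      ((toM G B x).mulVec v) x + c * cost v (toM G B x)) :
    (2 : ℝ) ^ n * (-(N * betC n e m ℓ d)) ≤ ∑ v, (c * mavg (cost v) - N * mavg (right v)) := by
  have hL1 : 384 ≤ LL m ℓ d := by
    have := P.Lpos
    have := P.l1
    omega
  have hp1 : (1 / (LL m ℓ d : ℝ)) ^ d ≤ 1 := by
    apply pow_le_one₀ (by positivity)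
    rw [div_le_one (by exact_mod_cast (by omega : 0 < LL m ℓ d))]
    exact_mod_cast (by omega : 1 ≤ LL m ℓ d)
  have h1 := restr_avg G B h (t := tt n e) (Nat.le_add_left _ _) (D0 := ss n m ℓ d / 16)
    (k := n / 4) (s := n / 4) (s0 := ss n m ℓ d) (Lm := ss n m ℓ d / 4 + tt n e)
    P.deg_ok pr hpr0 hpr1 (fun a => QC (C a) ℓ) hleaf
    (tt_mul (by have := P.n_big; omega)) (by omega) (fun x => adv (toM G B x))
    (p := (1 / (LL m ℓ d : ℝ)) ^ d) (by positivity) hp1 (fun a => bad_c P hs (C a))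
  have h2 : ∑ v, N * mavg (right v) ≤ N * (2 ^ n * betC n e m ℓ d) + ∑ v, c * mavg (cost v) := by
    have h3 : ∀ v : Vec n, N * mavg (right v) ≤ N * unif (fun x => pr (adv (toM G B x))
        (h.map (toM G B x).mulVec) v ((toM G B x).mulVec v) x) + c * mavg (cost v) := by
      intro v
      rw [mavg_eq G B (right v), mavg_eq G B (cost v), ← unif_smul, ← unif_smul, ← unif_smul,
        ← unif_add]
      exact unif_mono (hpt v)
    refine (sum_le_sum (fun v _ => h3 v)).trans ?_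
    rw [sum_add_distrib]
    apply add_le_add_left
    rw [← mul_sum]
    apply mul_le_mul_of_nonneg_left _ hN
    have h4 : ∑ v : Vec n, unif (fun x => pr (adv (toM G B x))
        (h.map (toM G B x).mulVec) v ((toM G B x).mulVec v) x) =
        2 ^ n * unif (fun x => (∑ v : Vec n, pr (adv (toM G B x))
        (h.map (toM G B x).mulVec) v ((toM G B x).mulVec v) x) / 2 ^ n) := by
      rw [← unif_sum, ← unif_smul]
      congr 1
      funext x
      rw [mul_div_cancel₀]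
      positivity
    rw [h4]
    exact mul_le_mul_of_nonneg_left h1 (by positivity)
  rw [sum_sub_distrib]
  linarith

lemma short_le {t D N : ℕ} (ht : 1 ≤ t) (h : t * D < N) : D ≤ (N - 1) / t := by
  rw [Nat.le_div_iff_mul_le (by omega), mul_comm]
  omega

lemma one_vecC_q {m ℓ d s : ℕ} (P : Par n e m ℓ d) (hs : s ≤ 2 ^ ℓ)
    (alg : Alg n Ω A w e (QProg A w (Vec n)))
    (hd : alg.CircuitLE m s d) (ω : Ω) (h : List (Vec n)) (hh : h.length < ss n m ℓ d / 4 + 1) :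
    (2 : ℝ) ^ n * (-((NN n e m ℓ d : ℝ) * betC n e m ℓ d)) ≤
      ∑ v, (((tt n e * (2 * w * ℓ) : ℕ) : ℝ) * mavg (fun M =>
        ((alg.prog ω h (h.map M.mulVec) (alg.adv ω h M) v).T : ℝ)) -
        (NN n e m ℓ d : ℝ) * mavg (fun M =>
        (alg.prog ω h (h.map M.mulVec) (alg.adv ω h M) v).prob (alg.mem ω h M) (M.mulVec v))) := by
  classical
  obtain ⟨G, B, hC⟩ := hd ω h
  choose C node hmem using hC
  have ht : 1 ≤ tt n e := Nat.le_add_left _ _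
  refine one_vecC P hs G B C h hh (alg.adv ω h)
    (fun a y v o x => if tt n e * (2 * (alg.prog ω h y a v).T * w * ℓ) < NN n e m ℓ d then
      (alg.prog ω h y a v).prob (fun a' i => (C a).val (node a a' i) x) o else 0) ?_ ?_ ?_
    (fun v M => (alg.prog ω h (h.map M.mulVec) (alg.adv ω h M) v).prob (alg.mem ω h M) (M.mulVec v))
    (fun v M => ((alg.prog ω h (h.map M.mulVec) (alg.adv ω h M) v).T : ℝ))
    _ _ (Nat.cast_nonneg _) ?_
  · intro a y v o x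
    split_ifs
    · exact (alg.prog ω h y a v).isRun.nonneg _ _
    · exact le_refl _
  · intro a y v x
    by_cases h1 : tt n e * (2 * (alg.prog ω h y a v).T * w * ℓ) < NN n e m ℓ d
    · simp only [if_pos h1]
      exact (alg.prog ω h y a v).isRun.sum_le _
    · simp only [if_neg h1]
      simp
  · intro a ρ hρ y v o
    by_cases h1 : tt n e * (2 * (alg.prog ω h y a v).T * w * ℓ) < NN n e m ℓ d
    · simp only [if_pos h1]
      have h2 := (alg.prog ω h y a v).isRun.comp (d := ℓ)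
        (E := (NN n e m ℓ d - 1) / tt n e)
        (fun x a' i => (C a).val (node a a' i) (ov ρ x))
        (fun a' i => dt_deg (hρ (node a a' i) ((C a).depth_le _))) (short_le ht h1)
      exact h2.deg o
    · simp only [if_neg h1, Complex.ofReal_zero]
      exact Dg.const _ _
  · intro v x
    set M := toM G B x with hM
    set Pr := alg.prog ω h (h.map M.mulVec) (alg.adv ω h M) v with hPr
    have hr1 : Pr.prob (alg.mem ω h M) (M.mulVec v) ≤ 1 :=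
      (single_le_sum (fun o _ => Pr.isRun.nonneg o _) (mem_univ _)).trans (Pr.isRun.sum_le _)
    have h4 : (0 : ℝ) ≤ NN n e m ℓ d := Nat.cast_nonneg _
    have h7 : (0 : ℝ) ≤ ((tt n e * (2 * w * ℓ) : ℕ) : ℝ) * (Pr.T : ℝ) := by positivity
    have hmm : alg.mem ω h M = fun a' i => (C (alg.adv ω h M)).val
        (node (alg.adv ω h M) a' i) x := by
      funext a' i
      rw [hmem (alg.adv ω h M) M a' i rfl, hM, coord_toM]
    by_cases h1 : tt n e * (2 * Pr.T * w * ℓ) < NN n e m ℓ d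
    · rw [if_pos h1, ← hmm]
      linarith
    · rw [if_neg h1, mul_zero, zero_add]
      have h2 : (NN n e m ℓ d : ℝ) ≤ ((tt n e * (2 * w * ℓ) : ℕ) : ℝ) * (Pr.T : ℝ) := by
        have h3 : tt n e * (2 * w * ℓ) * Pr.T = tt n e * (2 * Pr.T * w * ℓ) := by ring
        have h5 : NN n e m ℓ d ≤ tt n e * (2 * w * ℓ) * Pr.T := by
          rw [h3]
          exact not_lt.1 h1
        exact_mod_cast h5
      have h5 := mul_le_mul_of_nonneg_left hr1 h4
      linarith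

lemma one_vecC_c {m ℓ d s : ℕ} (P : Par n e m ℓ d) (hs : s ≤ 2 ^ ℓ) (hw1 : 1 ≤ w)
    (alg : Alg n Ω A w e (Prog A (Fin w → Bool) (Vec n)))
    (hd : alg.CircuitLE m s d) (ω : Ω) (h : List (Vec n)) (hh : h.length < ss n m ℓ d / 4 + 1) :
    (2 : ℝ) ^ n * (-((NN n e m ℓ d : ℝ) * betC n e m ℓ d)) ≤
      ∑ v, (((tt n e * (w * ℓ) : ℕ) : ℝ) * mavg (fun M =>
        (((alg.prog ω h (h.map M.mulVec) (alg.adv ω h M) v).addrs (alg.mem ω h M)).length : ℝ)) -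
        (NN n e m ℓ d : ℝ) * mavg (fun M =>
        if (alg.prog ω h (h.map M.mulVec) (alg.adv ω h M) v).out (alg.mem ω h M) = M.mulVec v
          then (1 : ℝ) else 0)) := by
  classical
  obtain ⟨G, B, hC⟩ := hd ω h
  choose C node hmem using hC
  have ht : 1 ≤ tt n e := Nat.le_add_left _ _
  have hN1 := P.NN_pos
  have hc1 : 1 ≤ tt n e * (w * ℓ) := Nat.mul_pos ht (Nat.mul_pos hw1 P.l1)
  obtain ⟨τ, hτ⟩ : ∃ τ, τ = (NN n e m ℓ d - 1) / (tt n e * (w * ℓ)) := ⟨_, rfl⟩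
  have hτ1 : tt n e * (w * ℓ) * τ ≤ NN n e m ℓ d - 1 := by
    rw [hτ]
    exact Nat.mul_div_le _ _
  have hτ2 : ∀ l, ¬ l ≤ τ → NN n e m ℓ d ≤ tt n e * (w * ℓ) * l := by
    intro l hl
    by_contra hc
    apply hl
    rw [hτ]
    exact short_le hc1 (by omega)
  refine one_vecC P hs G B C h hh (alg.adv ω h)
    (fun a y v o x => cpr (alg.prog ω h y a v) τ o (fun a' i => (C a).val (node a a' i) x)) ?_ ?_ ?_
    (fun v M => if (alg.prog ω h (h.map M.mulVec) (alg.adv ω h M) v).out (alg.mem ω h M) =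
      M.mulVec v then (1 : ℝ) else 0)
    (fun v M => (((alg.prog ω h (h.map M.mulVec) (alg.adv ω h M) v).addrs
      (alg.mem ω h M)).length : ℝ)) _ _ (Nat.cast_nonneg _) ?_
  · intro a y v o x
    exact (isRun_cpr (alg.prog ω h y a v) τ).nonneg _ _
  · intro a y v x
    exact (isRun_cpr (alg.prog ω h y a v) τ).sum_le _
  · intro a ρ hρ y v o
    have h2 := (isRun_cpr (alg.prog ω h y a v) τ).comp (d := ℓ)
      (E := (NN n e m ℓ d - 1) / tt n e)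
      (fun x a' i => (C a).val (node a a' i) (ov ρ x))
      (fun a' i => dt_deg (hρ (node a a' i) ((C a).depth_le _))) (by
        rw [Nat.le_div_iff_mul_le (by omega)]
        calc τ * w * ℓ * tt n e = tt n e * (w * ℓ) * τ := by ring
          _ ≤ NN n e m ℓ d - 1 := hτ1)
    exact h2.deg o
  · intro v x
    set M := toM G B x with hM
    set Pr := alg.prog ω h (h.map M.mulVec) (alg.adv ω h M) v with hPr
    have h4 : (0 : ℝ) ≤ NN n e m ℓ d := Nat.cast_nonneg _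
    have h5 : (0 : ℝ) ≤ ((tt n e * (w * ℓ) : ℕ) : ℝ) *
        ((Pr.addrs (alg.mem ω h M)).length : ℝ) := by
      positivity
    have hmm : alg.mem ω h M = fun a' i => (C (alg.adv ω h M)).val
        (node (alg.adv ω h M) a' i) x := by
      funext a' i
      rw [hmem (alg.adv ω h M) M a' i rfl, hM, coord_toM]
    unfold cpr
    rw [← hmm]
    by_cases h1 : Pr.out (alg.mem ω h M) = M.mulVec v
    · by_cases h2 : (Pr.addrs (alg.mem ω h M)).length ≤ τ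
      · rw [if_pos h1, if_pos ⟨h1, h2⟩]
        linarith
      · rw [if_pos h1, if_neg (fun h3 => h2 h3.2), mul_one, mul_zero, zero_add]
        exact_mod_cast hτ2 _ h2
    · rw [if_neg h1, if_neg (fun h3 => h1 h3.1)]
      linarith

lemma final_numC {m ℓ d : ℕ} (P : Par n e m ℓ d) {γ T : ℝ} {c0 : ℕ} (hT : 0 ≤ T)
    (hγ : 1 / 2 ^ (n / (40 * LL m ℓ d ^ d)) ≤ γ)
    (h : ((ss n m ℓ d / 4 + 1 : ℕ) : ℝ) * ((NN n e m ℓ d : ℝ) * (γ - betC n e m ℓ d)) ≤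
      ((tt n e * (c0 * ℓ) : ℕ) : ℝ) * T) :
    γ * (n : ℝ) ^ 4 ≤ 512 * (LL m ℓ d : ℝ) ^ (2 * d + 1) * (e + n) * c0 * T := by
  have hγ0 : 0 < γ := lt_of_lt_of_le (by positivity) hγ
  have h1 : betC n e m ℓ d ≤ γ / 2 := betC_le P hγ
  obtain ⟨s0, hs0⟩ : ∃ s0, s0 = ss n m ℓ d := ⟨_, rfl⟩
  have h2 : ((ss n m ℓ d / 4 + 1 : ℕ) : ℝ) * ((NN n e m ℓ d : ℝ) * (γ / 2)) ≤
      ((tt n e * (c0 * ℓ) : ℕ) : ℝ) * T := by
    refine le_trans ?_ h
    gcongr
    linarith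
  have a1 := P.NN_ge
  have a2 := P.n_lt
  rw [← hs0] at a1 a2 h2
  have h3 : n ^ 3 ≤ 16384 * LL m ℓ d ^ (2 * d) * ((s0 / 4 + 1) * NN n e m ℓ d) := by
    have a3 : s0 + 1 ≤ 4 * (s0 / 4 + 1) := by omega
    calc n ^ 3 = n * (n * n) := by ring
      _ ≤ n * (((s0 + 1) * (4 * LL m ℓ d ^ d)) * ((s0 + 1) * (4 * LL m ℓ d ^ d))) :=
          Nat.mul_le_mul_left _ (Nat.mul_le_mul a2.le a2.le)
      _ = 16 * LL m ℓ d ^ (2 * d) * ((s0 + 1) * (n * (s0 + 1))) := by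
          rw [two_mul d, pow_add]
          ring
      _ ≤ 16 * LL m ℓ d ^ (2 * d) * ((4 * (s0 / 4 + 1)) * (256 * NN n e m ℓ d)) :=
          Nat.mul_le_mul_left _ (Nat.mul_le_mul a3 a1)
      _ = _ := by ring
  have h3' : (n : ℝ) ^ 3 ≤ 16384 * (LL m ℓ d : ℝ) ^ (2 * d) *
      (((s0 / 4 + 1 : ℕ) : ℝ) * (NN n e m ℓ d : ℝ)) := by
    exact_mod_cast h3
  have h4 : ((tt n e : ℕ) : ℝ) * n ≤ 6 * (e + n) := by
    have := P.tt_n
    exact_mod_cast this
  have hLp : (0 : ℝ) ≤ (LL m ℓ d : ℝ) ^ (2 * d) := by positivity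
  have h5 : γ * (n : ℝ) ^ 3 ≤ 32768 * (LL m ℓ d : ℝ) ^ (2 * d) *
      (((tt n e * (c0 * ℓ) : ℕ) : ℝ) * T) := by
    calc γ * (n : ℝ) ^ 3 ≤ γ * (16384 * (LL m ℓ d : ℝ) ^ (2 * d) *
          (((s0 / 4 + 1 : ℕ) : ℝ) * (NN n e m ℓ d : ℝ))) := mul_le_mul_of_nonneg_left h3' hγ0.le
      _ = 32768 * (LL m ℓ d : ℝ) ^ (2 * d) *
          (((s0 / 4 + 1 : ℕ) : ℝ) * ((NN n e m ℓ d : ℝ) * (γ / 2))) := by ring
      _ ≤ _ := mul_le_mul_of_nonneg_left h2 (by positivity)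
  have hn0 : (0 : ℝ) ≤ n := Nat.cast_nonneg n
  have hc0 : (0 : ℝ) ≤ (c0 : ℝ) * T := by positivity
  have hℓ : 384 * (ℓ : ℝ) ≤ LL m ℓ d := by exact_mod_cast P.Lpos
  calc γ * (n : ℝ) ^ 4 = (γ * (n : ℝ) ^ 3) * n := by ring
    _ ≤ (32768 * (LL m ℓ d : ℝ) ^ (2 * d) * (((tt n e * (c0 * ℓ) : ℕ) : ℝ) * T)) * n :=
        mul_le_mul_of_nonneg_right h5 hn0
    _ = 32768 * (LL m ℓ d : ℝ) ^ (2 * d) * ℓ * (((tt n e : ℕ) : ℝ) * n) * (c0 * T) := by
        push_cast; ring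
    _ ≤ 32768 * (LL m ℓ d : ℝ) ^ (2 * d) * ℓ * (6 * (e + n)) * (c0 * T) := by gcongr
    _ = 512 * (LL m ℓ d : ℝ) ^ (2 * d) * (384 * ℓ) * (e + n) * (c0 * T) := by ring
    _ ≤ 512 * (LL m ℓ d : ℝ) ^ (2 * d) * (LL m ℓ d) * (e + n) * (c0 * T) := by gcongr
    _ = _ := by rw [pow_succ]; ring

theorem quantumC [Fintype Ω] {m ℓ d s : ℕ} (P : Par n e m ℓ d) (hs : s ≤ 2 ^ ℓ)
    (μ : Ω → ℝ) (hμ : IsProb μ) {γ : ℝ} (hγ : 1 / 2 ^ (n / (40 * LL m ℓ d ^ d)) ≤ γ)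
    (alg : Alg n Ω A w e (QProg A w (Vec n))) (hd : alg.CircuitLE m s d)
    (hR : alg.QRight μ γ) :
    γ * (n : ℝ) ^ 4 ≤ 1024 * (LL m ℓ d : ℝ) ^ (2 * d + 1) * (e + n) * w * alg.QProbes μ := by
  have h1 := avg_core μ hμ (fun ω h v M =>
      (alg.prog ω h (h.map M.mulVec) (alg.adv ω h M) v).prob (alg.mem ω h M) (M.mulVec v))
    (fun ω h v M => ((alg.prog ω h (h.map M.mulVec) (alg.adv ω h M) v).T : ℝ))
    (fun ω h v M => Nat.cast_nonneg _) (Nat.cast_nonneg (NN n e m ℓ d))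
    (Nat.cast_nonneg (tt n e * (2 * w * ℓ))) (ss n m ℓ d / 4 + 1) P.Q_le
    (fun ω h hh => one_vecC_q P hs alg hd ω h hh) hR
  have hT : 0 ≤ alg.QProbes μ := by
    unfold Alg.QProbes avg
    exact div_nonneg (sum_nonneg fun M _ => sum_nonneg fun vs _ => sum_nonneg fun ω _ =>
      mul_nonneg (hμ.nonneg ω) (sum_nonneg fun q _ => Nat.cast_nonneg _)) (by positivity)
  have h2 := final_numC P (T := alg.QProbes μ) (c0 := 2 * w) hT hγ h1
  refine h2.trans (le_of_eq ?_)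
  push_cast
  ring

theorem classicalC [Fintype Ω] {m ℓ d s : ℕ} (P : Par n e m ℓ d) (hs : s ≤ 2 ^ ℓ) (hw1 : 1 ≤ w)
    (μ : Ω → ℝ) (hμ : IsProb μ) {γ : ℝ} (hγ : 1 / 2 ^ (n / (40 * LL m ℓ d ^ d)) ≤ γ)
    (alg : Alg n Ω A w e (Prog A (Fin w → Bool) (Vec n))) (hd : alg.CircuitLE m s d)
    (hR : alg.CRight μ γ) :
    γ * (n : ℝ) ^ 4 ≤ 512 * (LL m ℓ d : ℝ) ^ (2 * d + 1) * (e + n) * w * alg.CProbes μ := by
  have h1 := avg_core μ hμ (fun ω h v M =>
      if (alg.prog ω h (h.map M.mulVec) (alg.adv ω h M) v).out (alg.mem ω h M) = M.mulVec v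
        then (1 : ℝ) else 0)
    (fun ω h v M => (((alg.prog ω h (h.map M.mulVec) (alg.adv ω h M) v).addrs
      (alg.mem ω h M)).length : ℝ))
    (fun ω h v M => Nat.cast_nonneg _) (Nat.cast_nonneg (NN n e m ℓ d))
    (Nat.cast_nonneg (tt n e * (w * ℓ))) (ss n m ℓ d / 4 + 1) P.Q_le
    (fun ω h hh => one_vecC_c P hs hw1 alg hd ω h hh) hR
  have hT : 0 ≤ alg.CProbes μ := by
    unfold Alg.CProbes avg
    exact div_nonneg (sum_nonneg fun M _ => sum_nonneg fun vs _ => sum_nonneg fun ω _ =>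
      mul_nonneg (hμ.nonneg ω) (sum_nonneg fun q _ => Nat.cast_nonneg _)) (by positivity)
  exact final_numC P (T := alg.CProbes μ) (c0 := w) hT hγ h1

end Pool.Agent.Helper81x.QP
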