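import Pool.Agent.TH163.AC2.Model

/-!
# Online matrix-vector multiplication over `ZMod 2`: quantum programs and side information
-/

set_option autoImplicit false

namespace Pool.Agent.Helper81x.QP

open Pool.Agent.H699R2.OMV (Prog Vec Mat IsProb before avg)
open Pool.Agent.TH163.AC2 (coord)

/-- A quantum program which probes a memory with addresses in `A` and cells of `w` bits, with
outputs in `O`. There are `N` basis states, and `T` is the number of probes. If
`query b = some (a, s)`, a probe multiplies the amplitude of the basis state `b` by `-1` to the
number of ones among those bits of the cell `a` that are marked by `s` (this is the usual probe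
`|a, s⟩ ↦ |a, s ⊕ content of a⟩`, up to Hadamard gates), and if `query b = none` a probe does nothing
to `b`. `U t` is a linear isometry, which is applied after `t` probes; `start` is the state at the
beginning, of norm one; `out b` is the output if the basis state `b` is measured at the end. -/
structure QProg (A : Type) (w : ℕ) (O : Type) where
  N : ℕ
  T : ℕ
  query : Fin N → Option (A × (Fin w → Bool))
  U : ℕ → (Fin N → ℂ) →ₗ[ℂ] (Fin N → ℂ)
  isometry : ∀ t ψ, ∑ b, ‖U t ψ b‖ ^ 2 = ∑ b, ‖ψ b‖ ^ 2
  start : Fin N → ℂ
  start_norm : ∑ b, ‖start b‖ ^ 2 = 1
  out : Fin N → O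

/-- The sign of a probe: `-1` to the number of ones among the marked bits of the cell. -/
def phase {A : Type} {w : ℕ} (m : A → Fin w → Bool) : Option (A × (Fin w → Bool)) → ℂ
  | none => 1
  | some (a, s) => ∏ i, if s i = true ∧ m a i = true then -1 else 1

namespace QProg

variable {A : Type} {w : ℕ} {O : Type}

/-- The state after `t` probes, if the content of the memory is `m`. -/
def state (P : QProg A w O) (m : A → Fin w → Bool) : ℕ → Fin P.N → ℂ
  | 0 => P.U 0 P.start
  | t + 1 => P.U (t + 1) (fun b => phase m (P.query b) * state P m t b)

open Classical in
/-- The probability of the output `o`, if the content of the memory is `m`. -/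
noncomputable def prob (P : QProg A w O) (m : A → Fin w → Bool) (o : O) : ℝ :=
  ∑ b, if P.out b = o then ‖P.state m P.T b‖ ^ 2 else 0

end QProg

/-- A randomised algorithm for online matrix-vector multiplication over `ZMod 2` in the cell-probe
model with cells of `w` bits, with programs in `P` (quantum programs or classical ones). `Ω` is the
set of outcomes of its coins, `A` the set of addresses. `mem ω h M` is the content of the memory
when the vectors in the list `h` have been processed, and `adv ω h M` are `e` further bits, the side
information; both are arbitrary functions of the coins, the earlier vectors and the matrix.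
`prog ω h y a v` is the program run on the next vector `v`; here `h` is the list of the earlier
vectors, `y` the list of the earlier (correct) products and `a` the side information. Only probes
of the memory cost time. -/
structure Alg (n : ℕ) (Ω A : Type) (w e : ℕ) (P : Type) where
  mem : Ω → List (Vec n) → Mat n → A → Fin w → Bool
  adv : Ω → List (Vec n) → Mat n → Fin e → Bool
  prog : Ω → List (Vec n) → List (Vec n) → (Fin e → Bool) → Vec n → P

/-- The bit `b` as a real number. -/
def bitR (b : Bool) : ℝ := if b = true then 1 else 0

namespace Alg

variable {n : ℕ} {Ω A : Type} {w e : ℕ} {P : Type}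

/-- The program run on the `q`-th vector of the stream `vs`. -/
def run (alg : Alg n Ω A w e P) (ω : Ω) (M : Mat n) (vs : Fin n → Vec n) (q : Fin n) : P :=
  alg.prog ω (before vs q) ((before vs q).map M.mulVec) (alg.adv ω (before vs q) M) (vs q)

/-- For given coins and earlier vectors there are coordinates (invertible matrices `G` and `B r`; the
bit `(r, j)` of `M` in these coordinates is the entry `(r, j)` of `G * M * B r`) such that, for each
value `y` of the side information, every bit of the memory differs by at most `ε`, on all matrices
with this side information, from a function of the matrix with values between `0` and `1` which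
is a real polynomial of degree at most `d` in the `n * n` bits of the matrix. -/
def ApproxLE (alg : Alg n Ω A w e P) (d : ℕ) (ε : ℝ) : Prop :=
  ∀ (ω : Ω) (h : List (Vec n)), ∃ (G : (Mat n)ˣ) (B : Fin n → (Mat n)ˣ)
    (f : (Fin e → Bool) → Mat n → A → Fin w → ℝ),
    (∀ M a i, |f (alg.adv ω h M) M a i - bitR (alg.mem ω h M a i)| ≤ ε) ∧
    ∀ (y : Fin e → Bool) (a : A) (i : Fin w), (∀ M, 0 ≤ f y M a i ∧ f y M a i ≤ 1) ∧
      ∃ p : MvPolynomial (Fin n × Fin n) ℝ, p.totalDegree ≤ d ∧
        ∀ M : Mat n, MvPolynomial.eval (fun c => bitR (coord G B M c)) p = f y M a i

/-- On a uniformly random input (a matrix and a stream of `n` vectors), the quantum algorithm gives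
each single answer correctly with probability at least `γ`. -/
def QRight [Fintype Ω] (alg : Alg n Ω A w e (QProg A w (Vec n))) (μ : Ω → ℝ) (γ : ℝ) : Prop :=
  ∀ q : Fin n, γ ≤ avg (fun M vs => ∑ ω, μ ω *
    (alg.run ω M vs q).prob (alg.mem ω (before vs q) M) (M.mulVec (vs q)))

/-- The average total number of probes of the quantum algorithm on a random input. -/
noncomputable def QProbes [Fintype Ω] (alg : Alg n Ω A w e (QProg A w (Vec n))) (μ : Ω → ℝ) : ℝ :=
  avg (fun M vs => ∑ ω, μ ω * ∑ q, ((alg.run ω M vs q).T : ℝ))

/-- On a uniformly random input, the classical algorithm gives each single answer correctly with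
probability at least `γ`. -/
def CRight [Fintype Ω] (alg : Alg n Ω A w e (Prog A (Fin w → Bool) (Vec n))) (μ : Ω → ℝ)
    (γ : ℝ) : Prop :=
  ∀ q : Fin n, γ ≤ avg (fun M vs => ∑ ω, μ ω *
    (if (alg.run ω M vs q).out (alg.mem ω (before vs q) M) = M.mulVec (vs q) then (1 : ℝ) else 0))

/-- The average total number of probes of the classical algorithm on a random input. -/
noncomputable def CProbes [Fintype Ω] (alg : Alg n Ω A w e (Prog A (Fin w → Bool) (Vec n)))
    (μ : Ω → ℝ) : ℝ :=
  avg (fun M vs => ∑ ω, μ ω *
    ∑ q, (((alg.run ω M vs q).addrs (alg.mem ω (before vs q) M)).length : ℝ))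

end Alg

end Pool.Agent.Helper81x.QP
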