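import Pool.Agent.Helper81x.QP.Dp
import Pool.Agent.TH163.AC2.Main

/-!
# Several vectors at once
-/

set_option autoImplicit false

namespace Pool.Agent.Helper81x.QP

open Finset H568R2
open Pool.Agent.TH163.AC2 (toM toMat coord gm gm_flp flp flp_flp dz toM_mulVec free unif Avoid
  mavg mavg_eq)
open Pool.Agent.H699R2.OMV (Vec Mat)

variable {n : ℕ}

/-- multiplication by the inverse matrix -/
def mvEquiv (G : (Mat n)ˣ) : Vec n ≃ Vec n where
  toFun := (↑G⁻¹ : Mat n).mulVec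
  invFun := (G : Mat n).mulVec
  left_inv z := by rw [Matrix.mulVec_mulVec, Units.mul_inv, Matrix.one_mulVec]
  right_inv z := by rw [Matrix.mulVec_mulVec, Units.inv_mul, Matrix.one_mulVec]

lemma prod_le (G : (Mat n)ˣ) (B : Fin n → (Mat n)ˣ) (ρ : Restr (Fin n × Fin n))
    (h : List (Vec n)) {t : ℕ} (vs : Fin t → Vec n) {D D0 k : ℕ}
    (hD : D < (k + 1) * D0) (hav : ∀ j r, Av B ρ h vs D0 j r)
    (pr : List (Vec n) → Vec n → Vec n → (Fin n × Fin n → Bool) → ℝ)
    (hp0 : ∀ y v o x, 0 ≤ pr y v o x) (hp1 : ∀ y v x, ∑ o, pr y v o x ≤ 1)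
    (hdeg : ∀ y (o : Fin t → Vec n),
      (fun x => ∏ j, ((pr y (vs j) (o j) x : ℝ) : ℂ)) ∈ Dg (Fin n × Fin n) D) :
    unif (fun x => ∏ j, pr (Yx G B ρ h x) (vs j) ((toM G B (ov ρ x)).mulVec (vs j)) x) ≤
      2 ^ (n + t * k) / 2 ^ (t * n) := by
  classical
  set Gf : (Fin t × Fin n → ZMod 2) → (Fin n × Fin n → Bool) → ℝ := fun z x =>
    ∏ j, pr (Yx G B ρ h x) (vs j) (mvEquiv G (fun r => z (j, r))) x with hGf
  have h0 : ∀ z x, 0 ≤ Gf z x := fun z x => prod_nonneg (fun j _ => hp0 _ _ _ _)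
  have h1 : ∀ x, ∑ z, Gf z x ≤ 1 := by
    intro x
    have e1 : ∑ z, Gf z x = ∑ z : Fin t → Vec n,
        ∏ j, pr (Yx G B ρ h x) (vs j) (mvEquiv G (z j)) x := by
      rw [← (Equiv.curry (Fin t) (Fin n) (ZMod 2)).sum_comp]
      rfl
    rw [e1]
    have e2 := Finset.prod_univ_sum (fun _ : Fin t => (univ : Finset (Vec n)))
      (fun j o => pr (Yx G B ρ h x) (vs j) (mvEquiv G o) x)
    rw [Fintype.piFinset_univ] at e2
    rw [← e2]
    apply Finset.prod_le_one
    · intro j _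
      exact sum_nonneg (fun o _ => hp0 _ _ _ _)
    · intro j _
      have e3 := (mvEquiv G).sum_comp (fun o => pr (Yx G B ρ h x) (vs j) o x)
      rw [e3]
      exact hp1 _ _ _
  have hbig : ∀ R : Finset (Fin t × Fin n), ¬ (R.image Prod.snd).card ≤ k → ∀ z,
      ∑ x, (Gf z x : ℂ) * ∏ l ∈ R, sg ((fun l => gm B (ov ρ x) (vs l.1) l.2) l) = 0 := by
    intro R hR z
    have h2 := vanish G B ρ h vs hD hav R hR
      (fun y x => ∏ j, ((pr y (vs j) (mvEquiv G (fun r => z (j, r))) x : ℝ) : ℂ))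
      (fun y => hdeg y (fun j => mvEquiv G (fun r => z (j, r))))
    rw [← h2]
    apply sum_congr rfl
    intro x _
    rw [hGf]
    simp only [Complex.ofReal_prod]
  have hd := dirprod Gf (fun x l => gm B (ov ρ x) (vs l.1) l.2) h0 h1
    (fun R => (R.image Prod.snd).card ≤ k) hbig
  have hc := card_small t n k
  have hpar : ∀ x, Gf (fun l => gm B (ov ρ x) (vs l.1) l.2) x =
      ∏ j, pr (Yx G B ρ h x) (vs j) ((toM G B (ov ρ x)).mulVec (vs j)) x := by
    intro x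
    rw [hGf]
    apply prod_congr rfl
    intro j _
    have : mvEquiv G (fun r => gm B (ov ρ x) (vs j) r) = (toM G B (ov ρ x)).mulVec (vs j) := by
      rw [toM_mulVec]
      rfl
    rw [this]
  rw [sum_congr rfl (fun x _ => hpar x), Fintype.card_prod, Fintype.card_fin,
    Fintype.card_fin] at hd
  unfold unif
  have hX : (0 : ℝ) < Fintype.card (Fin n × Fin n → Bool) := by exact_mod_cast Fintype.card_pos
  rw [div_le_div_iff₀ hX (by positivity)]
  refine hd.trans ?_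
  apply mul_le_mul_of_nonneg_right _ hX.le
  exact_mod_cast hc

/-- all the rows are good for the vector `v` after the vectors `l` -/
def Gd (B : Fin n → (Mat n)ˣ) (ρ : Restr (Fin n × Fin n)) (D0 : ℕ) (l : List (Vec n))
    (v : Vec n) : Prop :=
  ∀ r, Avoid (free ρ r) (l.map (↑(B r)⁻¹ : Mat n).mulVec) D0 ((↑(B r)⁻¹ : Mat n).mulVec v)

/-- all the vectors are good -/
def GS (B : Fin n → (Mat n)ˣ) (ρ : Restr (Fin n × Fin n)) (D0 : ℕ) (h : List (Vec n)) {t : ℕ}
    (vs : Fin t → Vec n) : Prop :=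
  ∀ j : Fin t, Gd B ρ D0 (h ++ (List.ofFn vs).take j) (vs j)

lemma GS.av {B : Fin n → (Mat n)ˣ} {ρ : Restr (Fin n × Fin n)} {D0 : ℕ} {h : List (Vec n)} {t : ℕ}
    {vs : Fin t → Vec n} (hg : GS B ρ D0 h vs) (j : Fin t) (r : Fin n) : Av B ρ h vs D0 j r := by
  intro D hD
  obtain ⟨u, h1, h2, h3, h4⟩ := hg j r D hD
  refine ⟨u, fun c hc => (mem_filter.1 (h1 c hc)).2, h2, ?_, ?_, h4⟩
  · intro z hz
    exact h3 _ (List.mem_map_of_mem (List.mem_append_left _ hz))
  · intro i hi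
    apply h3 _ (List.mem_map_of_mem (List.mem_append_right _ _))
    rw [List.mem_iff_getElem?]
    refine ⟨i, ?_⟩
    rw [List.getElem?_take, if_pos (by exact_mod_cast hi), List.getElem?_ofFn, dif_pos i.2]

lemma GS_cons (B : Fin n → (Mat n)ˣ) (ρ : Restr (Fin n × Fin n)) (D0 : ℕ) (h : List (Vec n))
    {t : ℕ} (v : Vec n) (vs : Fin t → Vec n) :
    GS B ρ D0 h (Fin.cons v vs : Fin (t + 1) → Vec n) ↔
      Gd B ρ D0 h v ∧ GS B ρ D0 (h ++ [v]) vs := by
  unfold GS
  rw [Fin.forall_fin_succ]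
  simp only [Fin.val_zero, List.take_zero, List.append_nil, Fin.cons_zero, Fin.val_succ,
    List.ofFn_cons, List.take_succ_cons, Fin.cons_succ, List.append_assoc, List.singleton_append]

end Pool.Agent.Helper81x.QP
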