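import Pool.Agent.Helper81x.QP.Lev
import Pool.Agent.Helper81x.QP.Runs

/-!
# Decision trees have bounded degree
-/

set_option autoImplicit false

namespace Pool.Agent.Helper81x.QP

open Finset H568R2 Pool.Agent.TH163.AC3 Pool.Agent.Y603.MS

variable {I : Type}

lemma Dg.bit (i : I) : (fun x : I → Bool => bt (x i)) ∈ Dg I 1 :=
  Jun.mem {i} (by simp) (fun x x' h => by rw [h i (mem_singleton_self i)])

lemma Dg.branch {D : ℕ} (i : I) {f g : (I → Bool) → ℂ} (hf : f ∈ Dg I D) (hg : g ∈ Dg I D) :
    (fun x => if x i = true then f x else g x) ∈ Dg I (1 + D) := by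
  have h1 : (fun x => if x i = true then f x else g x) =
      fun x => bt (x i) * f x + (1 - bt (x i)) * g x := by
    funext x
    rcases h : x i with _ | _ <;> simp [bt]
  rw [h1]
  exact (Dg I (1 + D)).add_mem (Dg.mul' (Dg.bit i) hf)
    (Dg.mul' ((Dg I 1).sub_mem (Dg.const 1 1) (Dg.bit i)) hg)

variable [DecidableEq I]

/-- Functions with shallow trees have small degree. -/
lemma dt_deg {ℓ : ℕ} {f : (I → Bool) → Bool} (h : HasDT ℓ f) : (fun x => bt (f x)) ∈ Dg I ℓ := by
  obtain ⟨t, ht, he⟩ := h
  have key : ∀ (t : Pool.Agent.TH163.AC3.Tree I),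
      (fun x => bt (t.eval x)) ∈ Dg I t.depth := by
    intro t
    induction t with
    | leaf b =>
      simp only [Pool.Agent.TH163.AC3.Tree.eval]
      exact Dg.const _ _
    | node i l r ihl ihr =>
      have h1 : (fun x => bt ((Pool.Agent.TH163.AC3.Tree.node i l r).eval x)) =
          fun x => if x i = true then bt (r.eval x) else bt (l.eval x) := by
        funext x
        simp only [Pool.Agent.TH163.AC3.Tree.eval]
        split_ifs <;> rfl
      rw [h1]
      refine Dg.mono ?_ (Dg.branch i (Dg.mono (le_max_right l.depth r.depth) ihr)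
        (Dg.mono (le_max_left l.depth r.depth) ihl))
      simp only [Pool.Agent.TH163.AC3.Tree.depth]
      omega
  have h2 := Dg.mono ht (key t)
  convert h2 using 1
  funext x
  rw [he x]

/-- A common partial tree adds its depth to the degree. -/
lemma Dt.deg {Q : Restr I → Prop} {D : ℕ} (Φ : (I → Bool) → ℂ)
    (hQ : ∀ ρ, Q ρ → (fun x => Φ (ov ρ x)) ∈ Dg I D) {t : ℕ} {ρ : Restr I} (h : Dt Q t ρ) :
    (fun x => Φ (ov ρ x)) ∈ Dg I (t + D) := by
  induction h with
  | leaf t ρ h => exact Dg.mono (Nat.le_add_left _ _) (hQ ρ h)
  | node t ρ i _ ih =>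
    cases hρ : ρ i with
    | some c =>
      have h2 := ih c
      rw [update_self' ρ i (some c) hρ] at h2
      exact Dg.mono (by omega) h2
    | none =>
      have h1 : (fun x => Φ (ov ρ x)) = fun x => if x i = true then
          Φ (ov (Function.update ρ i (some true)) x) else
          Φ (ov (Function.update ρ i (some false)) x) := by
        funext x
        have e : ∀ c, x i = c → ov ρ x = ov (Function.update ρ i (some c)) x := by
          intro c hc
          funext j
          unfold ov
          by_cases hj : j = i
          · subst hj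
            rw [hρ, Function.update_self]
            exact hc
          · rw [Function.update_of_ne hj]
        by_cases hx : x i = true
        · rw [if_pos hx, e true hx]
        · rw [if_neg hx, e false (by simpa using hx)]
      rw [h1]
      have h3 := Dg.branch i (ih true) (ih false)
      rw [show t + 1 + D = 1 + (t + D) by ring]
      exact h3

end Pool.Agent.Helper81x.QP
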