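import Pool.Agent.Helper81x.QP.VolR
import Pool.Agent.Helper81x.QP.TreeDeg
import Pool.Agent.Helper81x.QP.Core

/-!
# The average over random restrictions
-/

set_option autoImplicit false

namespace Pool.Agent.Helper81x.QP

open Finset H568R2 Pool.Agent.Y603.MS
open Pool.Agent.TH163.AC2 (toM coord unif unif_mono unif_smul unif_sum unif_add unif_const mavg
  mavg_eq unif_restr few_free free)
open Pool.Agent.H699R2.OMV (Vec Mat)

variable {n e : ℕ}

open Classical in
theorem restr_avg (G : (Mat n)ˣ) (B : Fin n → (Mat n)ˣ)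
    (h : List (Vec n)) {t : ℕ} (ht : 1 ≤ t) {E D0 k s aτ s0 Lm : ℕ}
    (hD : aτ + t * E < (k + 1) * D0)
    (pr : (Fin e → Bool) → List (Vec n) → Vec n → Vec n → (Fin n × Fin n → Bool) → ℝ)
    (hpr0 : ∀ a y v o x, 0 ≤ pr a y v o x) (hpr1 : ∀ a y v x, ∑ o, pr a y v o x ≤ 1)
    (Q : (Fin e → Bool) → Restr (Fin n × Fin n) → Prop)
    (hleaf : ∀ a ρ, Q a ρ → ∀ y v o,
      (fun x => ((pr a y v o (ov ρ x) : ℝ) : ℂ)) ∈ Dg (Fin n × Fin n) E)
    (hs : e + n ≤ t * s) (hL : h.length + t ≤ Lm + 1)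
    (adv : (Fin n × Fin n → Bool) → Fin e → Bool) {p η : ℝ} (h0 : 0 ≤ p) (h1 : p ≤ 1)
    (hbad : ∀ a, Ex (wq p) (fun ρ : Restr (Fin n × Fin n) =>
      if ¬ Dt (Q a) aτ ρ then (1 : ℝ) else 0) ≤ η) :
    unif (fun X => (∑ v : Vec n, pr (adv X) (h.map (toM G B X).mulVec) v
        ((toM G B X).mulVec v) X) / 2 ^ n) ≤
      n * (2 ^ Lm * (8 ^ D0 * (9 / 16) ^ s0)) + 2 ^ (s + k) / 2 ^ n +
        (2 ^ e * η + n * (2 ^ s0 * (1 - p / 2) ^ n)) := by
  have hw := wq_nonneg h0 h1
  set F : (Fin n × Fin n → Bool) → ℝ := fun X => (∑ v : Vec n, pr (adv X)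
    (h.map (toM G B X).mulVec) v ((toM G B X).mulVec v) X) / 2 ^ n with hF
  have hF1 : ∀ X, F X ≤ 1 := by
    intro X
    rw [hF]
    dsimp only
    rw [div_le_one (by positivity)]
    have h2 : ∀ v ∈ (univ : Finset (Vec n)), pr (adv X) (h.map (toM G B X).mulVec) v
        ((toM G B X).mulVec v) X ≤ 1 := fun v _ =>
      (single_le_sum (f := fun o => pr (adv X) (h.map (toM G B X).mulVec) v o X)
        (fun o _ => hpr0 _ _ _ _ _) (mem_univ _)).trans (hpr1 _ _ _ _)
    refine (sum_le_card_nsmul _ _ _ h2).trans (le_of_eq ?_)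
    rw [nsmul_eq_mul, card_univ, card_vec, mul_one]
  set b : ℝ := n * (2 ^ Lm * (8 ^ D0 * (9 / 16) ^ s0)) with hb
  have hb0 : 0 ≤ b := by positivity
  have hpt : ∀ ρ : Restr (Fin n × Fin n), unif (fun x => F (ov ρ x)) ≤
      (b + 2 ^ (s + k) / 2 ^ n) + ((∑ a, if ¬ Dt (Q a) aτ ρ then (1 : ℝ) else 0) +
        ∑ r, if (free ρ r).card < s0 then (1 : ℝ) else 0) := by
    intro ρ
    have hA : ∀ a ∈ (univ : Finset (Fin e → Bool)),
        (0 : ℝ) ≤ (if ¬ Dt (Q a) aτ ρ then (1 : ℝ) else 0) := by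
      intro a _
      split_ifs <;> norm_num
    have hR : ∀ r ∈ (univ : Finset (Fin n)),
        (0 : ℝ) ≤ (if (free ρ r).card < s0 then (1 : ℝ) else 0) := by
      intro r _
      split_ifs <;> norm_num
    have hA' := sum_nonneg hA
    have hR' := sum_nonneg hR
    have hone : unif (fun x => F (ov ρ x)) ≤ 1 :=
      (unif_mono (G := fun _ => (1 : ℝ)) fun x => hF1 _).trans (le_of_eq (unif_const 1))
    have hc0 : (0 : ℝ) ≤ 2 ^ (s + k) / 2 ^ n := by positivity
    by_cases hg1 : ∀ a, Dt (Q a) aτ ρ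
    · by_cases hg2 : ∀ r, s0 ≤ (free ρ r).card
      · have hmain := one_restr G B ρ h ht hD (fun a y v o x => pr a y v o (ov ρ x))
          (fun a y v o x => hpr0 _ _ _ _ _) (fun a y v x => hpr1 _ _ _ _) (by
            intro a y vs o
            refine Dt.deg (fun X => ∏ j, ((pr a y (vs j) (o j) X : ℝ) : ℂ)) (Q := Q a) ?_ (hg1 a)
            intro ρ' hρ'
            have h3 := Dg.prod (univ : Finset (Fin t)) (fun j x =>
              ((pr a y (vs j) (o j) (ov ρ' x) : ℝ) : ℂ)) (fun _ => E)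
              (fun j _ => hleaf a ρ' hρ' y (vs j) (o j))
            rw [sum_const, card_univ, Fintype.card_fin, smul_eq_mul] at h3
            exact h3) hs Lm hL b (by
            intro l hl
            refine (card_bad_restr B ρ l D0 s0 hg2).trans ?_
            have : (2 : ℝ) ^ l.length ≤ 2 ^ Lm := pow_le_pow_right₀ (by norm_num) hl
            rw [hb]
            gcongr) (fun x => adv (ov ρ x))
        refine hmain.trans ?_
        linarith
      · push Not at hg2
        obtain ⟨r, hr⟩ := hg2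
        have h2 := single_le_sum hR (mem_univ r)
        rw [if_pos hr] at h2
        linarith
    · push Not at hg1
      obtain ⟨a, ha⟩ := hg1
      have h2 := single_le_sum hA (mem_univ a)
      rw [if_pos ha] at h2
      linarith
  rw [unif_restr p]
  refine (Ex_mono hw hpt).trans ?_
  rw [Ex_add, Ex_const (wq_sum p), Ex_add, Ex_sum, Ex_sum]
  have h2 : ∑ a : Fin e → Bool, Ex (wq p) (fun ρ : Restr (Fin n × Fin n) =>
      if ¬ Dt (Q a) aτ ρ then (1 : ℝ) else 0) ≤ 2 ^ e * η := by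
    refine (sum_le_card_nsmul _ _ _ (fun a _ => hbad a)).trans (le_of_eq ?_)
    rw [nsmul_eq_mul, card_univ, Fintype.card_fun, Fintype.card_bool, Fintype.card_fin]
    push_cast
    rfl
  have h3 : ∑ r : Fin n, Ex (wq p) (fun ρ : Restr (Fin n × Fin n) =>
      if (free ρ r).card < s0 then (1 : ℝ) else 0) ≤ n * (2 ^ s0 * (1 - p / 2) ^ n) := by
    refine (sum_le_card_nsmul _ _ _ (fun r _ => few_free r h0 h1 s0)).trans (le_of_eq ?_)
    rw [nsmul_eq_mul, card_univ, Fintype.card_fin]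
  linarith

end Pool.Agent.Helper81x.QP
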