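import Pool.Agent.Helper81x.QP.Prod

/-!
# The average over sequences of vectors
-/

set_option autoImplicit false

namespace Pool.Agent.Helper81x.QP

open Finset H568R2
open Pool.Agent.TH163.AC2 (toM toMat coord gm free unif unif_mono unif_sum unif_smul unif_const
  unif_nonneg Avoid mavg mavg_eq)
open Pool.Agent.H699R2.OMV (Vec Mat)

variable {n e : ℕ}

lemma card_vec : (Fintype.card (Vec n) : ℝ) = 2 ^ n := by
  rw [Fintype.card_fun, ZMod.card, Fintype.card_fin]
  push_cast
  rfl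

open Classical in
lemma seq_lower (B : Fin n → (Mat n)ˣ) (ρ : Restr (Fin n × Fin n)) (D0 Lm : ℕ) (b : ℝ)
    (hb : ∀ l : List (Vec n), l.length ≤ Lm →
      ((univ.filter (fun v : Vec n => ¬ Gd B ρ D0 l v)).card : ℝ) ≤ b * 2 ^ n)
    (p : Vec n → ℝ) (hp0 : ∀ v, 0 ≤ p v) (hp1 : ∀ v, p v ≤ 1) : ∀ (t : ℕ) (h : List (Vec n)),
    h.length + t ≤ Lm + 1 →
    (max ((∑ v, p v) / 2 ^ n - b) 0) ^ t * (2 ^ n) ^ t ≤
      ∑ vs : Fin t → Vec n, if GS B ρ D0 h vs then ∏ j, p (vs j) else 0 := by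
  intro t
  induction t with
  | zero =>
    intro h _
    have : GS B ρ D0 h (fun j : Fin 0 => (j.elim0 : Vec n)) := fun j => j.elim0
    rw [Fintype.sum_eq_single (fun j : Fin 0 => (j.elim0 : Vec n))]
    · rw [if_pos this]
      simp
    · intro x hx
      exact absurd (funext fun j => j.elim0) hx
  | succ t ih =>
    intro h hh
    set c := max ((∑ v, p v) / 2 ^ n - b) 0 with hc
    have hc0 : 0 ≤ c := le_max_right _ _
    have e1 : (∑ vs : Fin (t + 1) → Vec n, if GS B ρ D0 h vs then ∏ j, p (vs j) else 0) =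
        ∑ v : Vec n, (if Gd B ρ D0 h v then p v else 0) *
          ∑ vs : Fin t → Vec n, if GS B ρ D0 (h ++ [v]) vs then ∏ j, p (vs j) else 0 := by
      rw [← (Fin.consEquiv (fun _ : Fin (t + 1) => Vec n)).sum_comp, Fintype.sum_prod_type]
      apply sum_congr rfl
      intro v _
      rw [mul_sum]
      apply sum_congr rfl
      intro vs _
      have e2 : (Fin.consEquiv (fun _ : Fin (t + 1) => Vec n)) (v, vs) = Fin.cons v vs := rfl
      rw [e2]
      have e3 := GS_cons B ρ D0 h v vs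
      by_cases h1 : Gd B ρ D0 h v
      · by_cases h2 : GS B ρ D0 (h ++ [v]) vs
        · rw [if_pos (e3.2 ⟨h1, h2⟩), if_pos h1, if_pos h2, Fin.prod_univ_succ]
          simp only [Fin.cons_zero, Fin.cons_succ]
        · rw [if_neg (fun h3 => h2 (e3.1 h3).2), if_neg h2, mul_zero]
      · rw [if_neg (fun h3 => h1 (e3.1 h3).1), if_neg h1, zero_mul]
    rw [e1]
    have hin : ∀ v : Vec n, c ^ t * (2 ^ n) ^ t ≤
        ∑ vs : Fin t → Vec n, if GS B ρ D0 (h ++ [v]) vs then ∏ j, p (vs j) else 0 := by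
      intro v
      apply ih
      rw [List.length_append, List.length_singleton]
      omega
    have h3 : ∑ v : Vec n, (if Gd B ρ D0 h v then p v else 0) * (c ^ t * (2 ^ n) ^ t) ≤
        ∑ v : Vec n, (if Gd B ρ D0 h v then p v else 0) *
          ∑ vs : Fin t → Vec n, if GS B ρ D0 (h ++ [v]) vs then ∏ j, p (vs j) else 0 := by
      apply sum_le_sum
      intro v _
      apply mul_le_mul_of_nonneg_left (hin v)
      split_ifs
      · exact hp0 v
      · exact le_refl _
    refine le_trans ?_ h3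
    rw [← sum_mul]
    have h4 : ∑ v, p v - b * 2 ^ n ≤ ∑ v : Vec n, (if Gd B ρ D0 h v then p v else 0) := by
      have h5 : ∑ v, p v ≤ ∑ v : Vec n, ((if Gd B ρ D0 h v then p v else 0) +
          (if ¬ Gd B ρ D0 h v then 1 else 0)) := by
        apply sum_le_sum
        intro v _
        by_cases h1 : Gd B ρ D0 h v
        · rw [if_pos h1, if_neg (not_not.2 h1), add_zero]
        · rw [if_neg h1, if_pos h1, zero_add]
          exact hp1 v
      rw [sum_add_distrib, sum_boole] at h5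
      have h6 := hb h (by omega)
      linarith
    have h5 : 0 ≤ ∑ v : Vec n, (if Gd B ρ D0 h v then p v else 0) := by
      apply sum_nonneg
      intro v _
      split_ifs
      · exact hp0 v
      · exact le_refl _
    have h6 : c * 2 ^ n ≤ ∑ v : Vec n, (if Gd B ρ D0 h v then p v else 0) := by
      rcases max_choice ((∑ v, p v) / 2 ^ n - b) 0 with h7 | h7
      · rw [hc, h7, sub_mul, div_mul_cancel₀ _ (by positivity)]
        exact h4
      · rw [hc, h7, zero_mul]
        exact h5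
    calc c ^ (t + 1) * (2 ^ n) ^ (t + 1) = (c * 2 ^ n) * (c ^ t * (2 ^ n) ^ t) := by ring
      _ ≤ _ := mul_le_mul_of_nonneg_right h6 (by positivity)

lemma unif_max_pow {I : Type} [Fintype I] [DecidableEq I] (F : (I → Bool) → ℝ) (h : ∀ x, 0 ≤ F x)
    (t : ℕ) : (unif F) ^ t ≤ unif (fun x => F x ^ t) := by
  have hX : (0 : ℝ) < Fintype.card (I → Bool) := by exact_mod_cast Fintype.card_pos
  have h1 := Real.pow_arith_mean_le_arith_mean_pow (univ : Finset (I → Bool))
    (fun _ => 1 / (Fintype.card (I → Bool) : ℝ)) F (fun _ _ => by positivity) (by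
      rw [sum_const, card_univ, nsmul_eq_mul]
      field_simp) (fun x _ => h x) t
  unfold unif
  rw [← mul_sum, ← mul_sum] at h1
  rw [div_eq_inv_mul, div_eq_inv_mul, ← one_div]
  exact h1

/-- The bound for given coins and earlier vectors, under a restriction. -/
theorem one_restr (G : (Mat n)ˣ) (B : Fin n → (Mat n)ˣ) (ρ : Restr (Fin n × Fin n))
    (h : List (Vec n)) {t : ℕ} (ht : 1 ≤ t) {D D0 k s : ℕ} (hD : D < (k + 1) * D0)
    (pr : (Fin e → Bool) → List (Vec n) → Vec n → Vec n → (Fin n × Fin n → Bool) → ℝ)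
    (hpr0 : ∀ a y v o x, 0 ≤ pr a y v o x) (hpr1 : ∀ a y v x, ∑ o, pr a y v o x ≤ 1)
    (hdeg : ∀ a y (vs o : Fin t → Vec n),
      (fun x => ∏ j, ((pr a y (vs j) (o j) x : ℝ) : ℂ)) ∈ Dg (Fin n × Fin n) D)
    (hs : e + n ≤ t * s) (Lm : ℕ) (hL : h.length + t ≤ Lm + 1) (b : ℝ)
    (hb : ∀ l : List (Vec n), l.length ≤ Lm → open Classical in
      ((univ.filter (fun v : Vec n => ¬ Gd B ρ D0 l v)).card : ℝ) ≤ b * 2 ^ n)
    (adv : (Fin n × Fin n → Bool) → Fin e → Bool) :
    unif (fun x => (∑ v : Vec n, pr (adv x) (Yx G B ρ h x) v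
        ((toM G B (ov ρ x)).mulVec v) x) / 2 ^ n) ≤ b + 2 ^ (s + k) / 2 ^ n := by
  classical
  set p : (Fin n × Fin n → Bool) → Vec n → ℝ := fun x v =>
    pr (adv x) (Yx G B ρ h x) v ((toM G B (ov ρ x)).mulVec v) x with hp
  have hp0 : ∀ x v, 0 ≤ p x v := fun x v => hpr0 _ _ _ _ _
  have hp1 : ∀ x v, p x v ≤ 1 := fun x v =>
    (single_le_sum (f := fun o => pr (adv x) (Yx G B ρ h x) v o x)
      (fun o _ => hpr0 _ _ _ _ _) (mem_univ _)).trans (hpr1 _ _ _ _)
  set F : (Fin n × Fin n → Bool) → ℝ := fun x => max ((∑ v, p x v) / 2 ^ n - b) 0 with hF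
  have hF0 : ∀ x, 0 ≤ F x := fun x => le_max_right _ _
  have h1 : ∀ x, F x ^ t * (2 ^ n) ^ t ≤
      ∑ vs : Fin t → Vec n, if GS B ρ D0 h vs then ∏ j, p x (vs j) else 0 := fun x =>
    seq_lower B ρ D0 Lm b hb (p x) (hp0 x) (hp1 x) t h hL
  have h2 : ∀ vs : Fin t → Vec n, unif (fun x => if GS B ρ D0 h vs then ∏ j, p x (vs j) else 0) ≤
      2 ^ e * (2 ^ (n + t * k) / 2 ^ (t * n)) := by
    intro vs
    by_cases hg : GS B ρ D0 h vs
    · simp only [if_pos hg]
      have h3 : ∀ x, ∏ j, p x (vs j) ≤ ∑ a : Fin e → Bool, ∏ j, pr a (Yx G B ρ h x) (vs j)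
          ((toM G B (ov ρ x)).mulVec (vs j)) x := by
        intro x
        exact single_le_sum (f := fun a : Fin e → Bool => ∏ j, pr a (Yx G B ρ h x) (vs j)
          ((toM G B (ov ρ x)).mulVec (vs j)) x)
          (fun a _ => prod_nonneg (fun j _ => hpr0 _ _ _ _ _))
          (mem_univ (adv x))
      refine (unif_mono h3).trans ?_
      rw [unif_sum]
      have h4 : ∀ a ∈ (univ : Finset (Fin e → Bool)), unif (fun x => ∏ j, pr a (Yx G B ρ h x) (vs j)
          ((toM G B (ov ρ x)).mulVec (vs j)) x) ≤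
          2 ^ (n + t * k) / 2 ^ (t * n) := fun a _ =>
        prod_le G B ρ h vs hD (fun j r => hg.av j r) (pr a) (hpr0 a) (hpr1 a)
          (fun y o => hdeg a y vs o)
      refine (sum_le_card_nsmul _ _ _ h4).trans (le_of_eq ?_)
      rw [nsmul_eq_mul, card_univ, Fintype.card_fun, Fintype.card_bool, Fintype.card_fin]
      push_cast
      rfl
    · simp only [if_neg hg]
      rw [unif_const]
      positivity
  have h3 : unif (fun x => F x ^ t) * (2 ^ n) ^ t ≤
      (2 ^ n) ^ t * (2 ^ e * (2 ^ (n + t * k) / 2 ^ (t * n))) := by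
    have h4 : unif (fun x => F x ^ t * (2 ^ n) ^ t) ≤
        unif (fun x => ∑ vs : Fin t → Vec n, if GS B ρ D0 h vs then ∏ j, p x (vs j) else 0) :=
      unif_mono h1
    rw [unif_sum] at h4
    have h5 : unif (fun x => F x ^ t * (2 ^ n) ^ t) = unif (fun x => F x ^ t) * (2 ^ n) ^ t := by
      rw [mul_comm, ← unif_smul]
      congr 1
      funext x
      ring
    rw [h5] at h4
    refine h4.trans ((sum_le_card_nsmul _ _ _ (fun vs _ => h2 vs)).trans (le_of_eq ?_))
    rw [nsmul_eq_mul, card_univ, Fintype.card_fun, Fintype.card_fin, Nat.cast_pow, card_vec]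
  have h4 : unif (fun x => F x ^ t) ≤ 2 ^ e * (2 ^ (n + t * k) / 2 ^ (t * n)) := by
    have h5 : (0 : ℝ) < (2 ^ n) ^ t := by positivity
    rw [mul_comm] at h3
    exact le_of_mul_le_mul_left h3 h5
  have h5 : (unif F) ^ t ≤ (2 ^ (s + k) / 2 ^ n) ^ t := by
    refine (unif_max_pow F hF0 t).trans (h4.trans ?_)
    rw [div_pow, ← pow_mul, ← pow_mul, mul_comm n t, ← mul_div_assoc, ← pow_add]
    apply div_le_div_of_nonneg_right _ (by positivity)
    apply pow_le_pow_right₀ (by norm_num)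
    calc e + (n + t * k) = (e + n) + t * k := by ring
      _ ≤ t * s + t * k := Nat.add_le_add_right hs _
      _ = (s + k) * t := by ring
  have h6 : unif F ≤ 2 ^ (s + k) / 2 ^ n :=
    le_of_pow_le_pow_left₀ (by omega) (by positivity) h5
  have h7 : unif (fun x => (∑ v : Vec n, p x v) / 2 ^ n) ≤ unif (fun x => b + F x) := by
    apply unif_mono
    intro x
    have := le_max_left ((∑ v, p x v) / 2 ^ n - b) 0
    show (∑ v, p x v) / 2 ^ n ≤ b + max ((∑ v, p x v) / 2 ^ n - b) 0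
    linarith
  rw [Pool.Agent.TH163.AC2.unif_add, unif_const] at h7
  linarith

end Pool.Agent.Helper81x.QP
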