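import Pool.Agent.Helper81x.QP.Seq

/-!
# Few vectors are bad, under a restriction
-/

set_option autoImplicit false

namespace Pool.Agent.Helper81x.QP

open Finset H568R2
open Pool.Agent.TH163.AC2 (free Avoid cut cut_apply cutSpan exists_dz)
open Pool.Agent.H699R2.OMV (Vec Mat)

variable {n : ℕ}

/-- the number of subsets with fewer than `D0` elements -/
lemma card_subsets (S : Finset (Fin n)) (D0 : ℕ) :
    ((S.powerset.filter (fun T => T.card < D0)).card : ℝ) ≤ 8 ^ D0 * (9 / 8) ^ S.card := by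
  have h1 : ∑ T ∈ S.powerset, (1 / 8 : ℝ) ^ T.card = (9 / 8) ^ S.card := by
    have h := Finset.sum_pow_mul_eq_add_pow (1 / 8 : ℝ) 1 S
    simp only [one_pow, mul_one] at h
    rw [h]
    norm_num
  have h2 : ∑ T ∈ S.powerset.filter (fun T => T.card < D0), (1 / 8 : ℝ) ^ D0 ≤
      ∑ T ∈ S.powerset, (1 / 8 : ℝ) ^ T.card := by
    refine le_trans (sum_le_sum (g := fun T : Finset (Fin n) => (1 / 8 : ℝ) ^ T.card) ?_) ?_
    · intro T hT
      exact pow_le_pow_of_le_one (by norm_num) (by norm_num) (mem_filter.1 hT).2.le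
    · exact sum_le_sum_of_subset_of_nonneg (filter_subset _ _) (fun _ _ _ => by positivity)
  rw [h1, sum_const, nsmul_eq_mul, one_div, inv_pow, ← div_eq_mul_inv,
    div_le_iff₀ (by positivity)] at h2
  rw [mul_comm]
  exact h2

open Classical in
lemma card_not_avoid_set (S : Finset (Fin n)) (l : List (Vec n)) (D0 : ℕ) :
    ((univ.filter (fun v : Vec n => ¬ Avoid S l D0 v)).card : ℝ) ≤
      2 ^ l.length * (8 ^ D0 * (9 / 16) ^ S.card) * 2 ^ n := by
  have h1 : (univ.filter (fun v : Vec n => ¬ Avoid S l D0 v)) ⊆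
      (((univ : Finset (Fin l.length → ZMod 2)) ×ˢ
        (S.powerset.filter (fun T => T.card < D0))) ×ˢ
          (univ : Finset ({c : Fin n // c ∉ S} → ZMod 2))).image
        (fun p => fun c => if hc : c ∈ S then (∑ i, p.1.1 i • l.get i) c +
          (if c ∈ p.1.2 then (1 : ZMod 2) else 0) else p.2 ⟨c, hc⟩) := by
    intro v hv
    rw [mem_filter] at hv
    have hv2 := hv.2
    unfold Avoid at hv2
    push Not at hv2
    obtain ⟨D, hD, hall⟩ := hv2
    have h2 : cut (S \ D) v ∈ cutSpan (S \ D) l := by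
      by_contra hcon
      obtain ⟨u, hu1, hu2, hu3⟩ := exists_dz _ _ _ hcon
      exact hall u (fun c hc => (mem_sdiff.1 (hu1 c hc)).1)
        (fun c hc => (mem_sdiff.1 (hu1 c hc)).2) hu2 hu3
    unfold cutSpan at h2
    rw [Submodule.mem_span_range_iff_exists_fun] at h2
    obtain ⟨c, hc⟩ := h2
    rw [mem_image]
    refine ⟨((c, S.filter (fun i => (v - ∑ i, c i • l.get i) i = 1)), fun i => v i.1), ?_, ?_⟩
    · rw [mem_product, mem_product]
      refine ⟨⟨mem_univ _, ?_⟩, mem_univ _⟩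
      rw [mem_filter, mem_powerset]
      refine ⟨filter_subset _ _, lt_of_le_of_lt (card_le_card ?_) hD⟩
      intro i hi
      rw [mem_filter] at hi
      by_contra hiD
      have h3 := congrFun hc i
      have h4 : (∑ j, c j • cut (S \ D) (l.get j)) i = (∑ j, c j • l.get j) i := by
        rw [Finset.sum_apply, Finset.sum_apply]
        apply sum_congr rfl
        intro j _
        rw [Pi.smul_apply, Pi.smul_apply, cut_apply, if_pos (mem_sdiff.2 ⟨hi.1, hiD⟩)]
      rw [h4, cut_apply, if_pos (mem_sdiff.2 ⟨hi.1, hiD⟩)] at h3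
      have h5 := hi.2
      rw [Pi.sub_apply, h3, sub_self] at h5
      exact absurd h5 (by decide)
    · funext i
      have hbit : ∀ a : ZMod 2, (if a = 1 then (1 : ZMod 2) else 0) = a := by decide
      by_cases hi : i ∈ S
      · have h6 : (if i ∈ S.filter (fun i => (v - ∑ i, c i • l.get i) i = 1)
          then (1 : ZMod 2) else 0) = (v - ∑ i, c i • l.get i) i := by
          simp only [mem_filter, hi, true_and]
          exact hbit _
        simp only [hi, dif_pos]
        rw [h6, Pi.sub_apply]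
        ring
      · simp only [hi, dif_neg, not_false_eq_true]
  have h2 := (card_le_card h1).trans card_image_le
  have hS : S.card ≤ n := by
    have := card_le_univ S
    rwa [Fintype.card_fin] at this
  rw [card_product, card_product, card_univ, card_univ, Fintype.card_fun, ZMod.card,
    Fintype.card_fin, Fintype.card_fun, ZMod.card, Fintype.card_subtype_compl,
    Fintype.card_fin] at h2
  have hfs : Fintype.card {x // x ∈ S} = S.card := Fintype.card_coe S
  rw [hfs] at h2
  have h3 : ((univ.filter (fun v : Vec n => ¬ Avoid S l D0 v)).card : ℝ) ≤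
      2 ^ l.length * ((S.powerset.filter (fun T => T.card < D0)).card : ℝ) * 2 ^ (n - S.card) := by
    exact_mod_cast h2
  refine h3.trans ?_
  have h4 : (9 / 16 : ℝ) ^ S.card * 2 ^ n = (9 / 8) ^ S.card * 2 ^ (n - S.card) := by
    have h5 : (2 : ℝ) ^ n = 2 ^ S.card * 2 ^ (n - S.card) := by
      rw [← pow_add]
      congr 1
      omega
    rw [h5, ← mul_assoc, ← mul_pow]
    norm_num
  calc 2 ^ l.length * ((S.powerset.filter (fun T => T.card < D0)).card : ℝ) * 2 ^ (n - S.card) ≤
      2 ^ l.length * (8 ^ D0 * (9 / 8) ^ S.card) * 2 ^ (n - S.card) := by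
        apply mul_le_mul_of_nonneg_right _ (by positivity)
        exact mul_le_mul_of_nonneg_left (card_subsets S D0) (by positivity)
    _ = 2 ^ l.length * 8 ^ D0 * ((9 / 8) ^ S.card * 2 ^ (n - S.card)) := by ring
    _ = 2 ^ l.length * 8 ^ D0 * ((9 / 16) ^ S.card * 2 ^ n) := by rw [h4]
    _ = _ := by ring

open Classical in
/-- few vectors are bad -/
lemma card_bad_restr (B : Fin n → (Mat n)ˣ) (ρ : Restr (Fin n × Fin n)) (l : List (Vec n))
    (D0 s0 : ℕ) (hs : ∀ r, s0 ≤ (free ρ r).card) :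
    ((univ.filter (fun v : Vec n => ¬ Gd B ρ D0 l v)).card : ℝ) ≤
      n * (2 ^ l.length * (8 ^ D0 * (9 / 16) ^ s0)) * 2 ^ n := by
  have h1 : (univ.filter (fun v : Vec n => ¬ Gd B ρ D0 l v)) ⊆
      (univ : Finset (Fin n)).biUnion (fun r => univ.filter (fun v : Vec n =>
        ¬ Avoid (free ρ r) (l.map (↑(B r)⁻¹ : Mat n).mulVec) D0
          ((↑(B r)⁻¹ : Mat n).mulVec v))) := by
    intro v hv
    rw [mem_filter] at hv
    have hv2 := hv.2
    unfold Gd at hv2
    push Not at hv2
    obtain ⟨r, hr⟩ := hv2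
    rw [mem_biUnion]
    exact ⟨r, mem_univ r, mem_filter.2 ⟨mem_univ v, hr⟩⟩
  have h2 : ∀ r : Fin n, ((univ.filter (fun v : Vec n =>
        ¬ Avoid (free ρ r) (l.map (↑(B r)⁻¹ : Mat n).mulVec) D0
          ((↑(B r)⁻¹ : Mat n).mulVec v))).card : ℝ) ≤
      2 ^ l.length * (8 ^ D0 * (9 / 16) ^ s0) * 2 ^ n := by
    intro r
    have h3 := card_not_avoid_set (free ρ r) (l.map (↑(B r)⁻¹ : Mat n).mulVec) D0
    rw [List.length_map] at h3
    have h6 : (9 / 16 : ℝ) ^ (free ρ r).card ≤ (9 / 16) ^ s0 :=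
      pow_le_pow_of_le_one (by norm_num) (by norm_num) (hs r)
    have h7 : 2 ^ l.length * (8 ^ D0 * (9 / 16 : ℝ) ^ (free ρ r).card) * 2 ^ n ≤
        2 ^ l.length * (8 ^ D0 * (9 / 16) ^ s0) * 2 ^ n := by gcongr
    refine le_trans ?_ (h3.trans h7)
    have h4 : (univ.filter (fun v : Vec n =>
        ¬ Avoid (free ρ r) (l.map (↑(B r)⁻¹ : Mat n).mulVec) D0
          ((↑(B r)⁻¹ : Mat n).mulVec v))).card ≤
        (univ.filter (fun v : Vec n =>
          ¬ Avoid (free ρ r) (l.map (↑(B r)⁻¹ : Mat n).mulVec) D0 v)).card := by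
      apply card_le_card_of_injOn (fun v => (↑(B r)⁻¹ : Mat n).mulVec v)
      · intro v hv
        have hv' := (mem_filter.1 (mem_coe.1 hv)).2
        exact mem_coe.2 (mem_filter.2 ⟨mem_univ _, hv'⟩)
      · intro v _ v' _ hvv
        have h1 := congrArg (fun z => (B r : Mat n).mulVec z) hvv
        simpa [Matrix.mulVec_mulVec] using h1
    exact_mod_cast h4
  have h3 := (card_le_card h1).trans card_biUnion_le
  have h4 : ((univ.filter (fun v : Vec n => ¬ Gd B ρ D0 l v)).card : ℝ) ≤
      ∑ r : Fin n, ((univ.filter (fun v : Vec n =>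
        ¬ Avoid (free ρ r) (l.map (↑(B r)⁻¹ : Mat n).mulVec) D0
          ((↑(B r)⁻¹ : Mat n).mulVec v))).card : ℝ) := by
    exact_mod_cast h3
  refine h4.trans ?_
  refine (sum_le_card_nsmul _ _ _ (fun r _ => h2 r)).trans (le_of_eq ?_)
  rw [card_univ, Fintype.card_fin, nsmul_eq_mul]
  ring

end Pool.Agent.Helper81x.QP
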